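import Pool.Agent.H95.Edit.Defs

/-!
Substitutions, their words, the edit distance and the edit distance diameter: the notions of the
problem.
-/

namespace H95.Edit

/-- the extension of a substitution to words -/
def subst {A : Type} (σ : A → List A) (w : List A) : List A := w.flatMap σ

/-- primitive substitutions: for some `k`, every letter occurs in all images `σ^m(a)`, `m ≥ k` -/
def Primitive {A : Type} (σ : A → List A) : Prop :=
  ∃ k : ℕ, ∀ m : ℕ, k ≤ m → ∀ a b : A, b ∈ (subst σ)^[m] [a]

/-- the words of length `n` which occur in some `σ^k(a)`, `k ≥ 1` -/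
def Words {A : Type} (σ : A → List A) (n : ℕ) : Set (List A) :=
  {w | w.length = n ∧ ∃ (k : ℕ) (a : A), 1 ≤ k ∧ w <:+: (subst σ)^[k] [a]}

/-- the edit distance: `(|x| + |y|) / 2` minus the maximal length of a common subsequence -/
noncomputable def editDist {A : Type} (x y : List A) : ℝ :=
  ((x.length : ℝ) + y.length) / 2 - lcs x y

/-- the edit distance diameter of the set of words of length `n` -/
noncomputable def diam {A : Type} (σ : A → List A) (n : ℕ) : ℝ :=
  sSup {d | ∃ u ∈ Words σ n, ∃ v ∈ Words σ n, d = editDist u v}

/-- all words which occur in some `σ^k(a)` have the period `p` -/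
def Periodic {A : Type} (σ : A → List A) (p : ℕ) : Prop :=
  ∀ (n : ℕ), ∀ w ∈ Words σ n, ∀ i : ℕ, i + p < n → w[i + p]? = w[i]?

end H95.Edit
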