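import Mathlib

/-!
Edit distance of words, constant length substitutions, two-sided fixed points: internal definitions.
-/

namespace H95.Edit

open Finset

/-- the maximal length of a common subsequence -/
noncomputable def lcs {A : Type} (x y : List A) : ℕ :=
  sSup {n | ∃ w : List A, w.Sublist x ∧ w.Sublist y ∧ w.length = n}

/-- the least number of insertions and deletions -/
noncomputable def D {A : Type} (x y : List A) : ℕ := x.length + y.length - 2 * lcs x y

/-- the word of length `n` of the two-sided sequence `z` which starts at the position `a` -/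
def word {A : Type} (z : ℤ → A) (a : ℤ) (n : ℕ) : List A :=
  (List.range n).map (fun i : ℕ => z (a + (i : ℤ)))

/-- `sub L s k a r` is the letter number `r < L ^ k` of the `k`-th image of `a` under the
substitution of length `L` whose images are `s a 0, ..., s a (L-1)`. -/
def sub {A : Type} (L : ℕ) (s : A → ℕ → A) : ℕ → A → ℕ → A
  | 0, a, _ => a
  | k + 1, a, r => s (sub L s k a (r / L)) (r % L)

/-- `z` is a uniformly recurrent two-sided fixed point of the substitution `s` of length `L` -/
structure Sys {A : Type} (L : ℕ) (s : A → ℕ → A) (z : ℤ → A) : Prop where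
  two_le : 2 ≤ L
  eq : ∀ (n : ℤ) (r : ℕ), r < L → z (L * n + r) = s (z n) r
  recur : ∀ n : ℕ, ∃ R : ℕ, ∀ p q : ℤ, ∃ t : ℕ, t ≤ R ∧ ∀ i : ℕ, i < n → z (q + t + i) = z (p + i)

open Classical in
/-- number of mismatches of the `k`-th images -/
noncomputable def Hm {A : Type} (L : ℕ) (s : A → ℕ → A) (k : ℕ) (a b : A) : ℕ :=
  ((range (L ^ k)).filter (fun r => sub L s k a r ≠ sub L s k b r)).card

open Classical in
/-- number of places where the `k`-th images are not `Q`-related -/
noncomputable def NQ {A : Type} (L : ℕ) (s : A → ℕ → A) (Q : A → A → Prop) (k : ℕ) (a b : A) : ℕ :=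
  ((range (L ^ k)).filter (fun r => ¬ Q (sub L s k a r) (sub L s k b r))).card

/-- `Q` is an equivalence relation which is respected by the substitution -/
structure Compat {A : Type} (L : ℕ) (s : A → ℕ → A) (Q : A → A → Prop) : Prop where
  equiv : Equivalence Q
  step : ∀ a b, Q a b → ∀ r : ℕ, r < L → Q (s a r) (s b r)

/-- `z` is periodic modulo `Q` -/
def Per {A : Type} (z : ℤ → A) (Q : A → A → Prop) : Prop :=
  ∃ p : ℕ, 1 ≤ p ∧ ∀ n : ℤ, Q (z n) (z (n + p))

/-- every misregistered window of length `l` contains a pair which is not `Q`-related -/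
def Rgn {A : Type} (L : ℕ) (z : ℤ → A) (Q : A → A → Prop) (l : ℕ) : Prop :=
  ∀ J : ℤ, ¬ (L : ℤ) ∣ J → ∀ w : ℤ, ∃ i : ℕ, i < l ∧ ¬ Q (z (w + i)) (z (w + i + J))

/-- pairs whose mismatch numbers have exponent at most `η` -/
def Qe {A : Type} (L : ℕ) (s : A → ℕ → A) (η : ℝ) (a b : A) : Prop :=
  ∀ ε : ℝ, 0 < ε → ∃ C : ℝ, ∀ k : ℕ, (Hm L s k a b : ℝ) ≤ C * (L : ℝ) ^ ((η + ε) * k)

/-- a cheap alignment of a window of `l` blocks of level `m` is registered and `Q`-related -/
def Kap {A : Type} (L : ℕ) (z : ℤ → A) (Q : A → A → Prop) (l m : ℕ) (K : ℝ) : Prop :=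
  ∀ (p β : ℤ) (n : ℕ), (D (word z (p * (L : ℤ) ^ m) (l * L ^ m)) (word z β n) : ℝ) < K →
    ∃ J : ℤ, 8 * |β - (p + J) * (L : ℤ) ^ m| ≤ (L : ℤ) ^ m ∧
      ∀ i : ℕ, i < l → Q (z (p + i)) (z (p + i + J))

end H95.Edit
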