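import Pool.Agent.H95.Edit.Defs

/-! M1: elementary facts on the edit distance. -/

namespace H95.Edit

open Finset

variable {A : Type}

theorem word_add (z : ℤ → A) (a : ℤ) (n m : ℕ) :
    word z a (n + m) = word z a n ++ word z (a + n) m := by
  unfold word
  rw [List.range_add, List.map_append, List.map_map]
  congr 1
  apply List.map_congr_left
  intro i _
  simp only [Function.comp_apply]
  push_cast
  rw [add_assoc]

theorem length_word (z : ℤ → A) (a : ℤ) (n : ℕ) : (word z a n).length = n := by
  simp [word]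

theorem lcs_set_bdd (x y : List A) :
    BddAbove {n | ∃ w : List A, w.Sublist x ∧ w.Sublist y ∧ w.length = n} := by
  refine ⟨x.length, ?_⟩
  rintro n ⟨w, h1, -, rfl⟩
  exact h1.length_le

theorem exists_lcs (x y : List A) :
    ∃ w : List A, w.Sublist x ∧ w.Sublist y ∧ w.length = lcs x y := by
  have h : lcs x y ∈ {n | ∃ w : List A, w.Sublist x ∧ w.Sublist y ∧ w.length = n} :=
    Nat.sSup_mem ⟨0, [], List.nil_sublist x, List.nil_sublist y, rfl⟩ (lcs_set_bdd x y)
  exact h

theorem le_lcs {x y w : List A} (h1 : w.Sublist x) (h2 : w.Sublist y) : w.length ≤ lcs x y :=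
  le_csSup (lcs_set_bdd x y) ⟨w, h1, h2, rfl⟩

theorem lcs_le_left (x y : List A) : lcs x y ≤ x.length := by
  obtain ⟨w, h1, -, h3⟩ := exists_lcs x y
  rw [← h3]
  exact h1.length_le

theorem lcs_le_right (x y : List A) : lcs x y ≤ y.length := by
  obtain ⟨w, -, h1, h3⟩ := exists_lcs x y
  rw [← h3]
  exact h1.length_le

theorem D_add_lcs (x y : List A) : D x y + 2 * lcs x y = x.length + y.length := by
  have h1 := lcs_le_left x y
  have h2 := lcs_le_right x y
  unfold D
  omega

theorem D_eq_zero {x y : List A} (h : D x y = 0) : x = y := by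
  have h1 := lcs_le_left x y
  have h2 := lcs_le_right x y
  have h3 := D_add_lcs x y
  obtain ⟨w, h4, h5, h6⟩ := exists_lcs x y
  have h7 : w = x := h4.eq_of_length (by omega)
  have h8 : w = y := h5.eq_of_length (by omega)
  rw [← h7, ← h8]

theorem length_le_D (x y : List A) : x.length ≤ y.length + D x y ∧ y.length ≤ x.length + D x y := by
  have h1 := lcs_le_left x y
  have h2 := lcs_le_right x y
  have h3 := D_add_lcs x y
  omega

theorem D_le_of_sublist {x y w : List A} (h1 : w.Sublist x) (h2 : w.Sublist y) :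
    D x y + 2 * w.length ≤ x.length + y.length := by
  have h3 := D_add_lcs x y
  have h4 := le_lcs h1 h2
  omega

/-- splitting: an alignment of `x₁ ++ x₂` with a word of `z` splits the word -/
theorem D_split (x₁ x₂ : List A) (z : ℤ → A) (β : ℤ) (n : ℕ) :
    ∃ n₁ n₂ : ℕ, n = n₁ + n₂ ∧
      D x₁ (word z β n₁) + D x₂ (word z (β + n₁) n₂) ≤ D (x₁ ++ x₂) (word z β n) := by
  obtain ⟨w, h1, h2, h3⟩ := exists_lcs (x₁ ++ x₂) (word z β n)
  obtain ⟨w₁, w₂, rfl, h4, h5⟩ := List.sublist_append_iff.1 h1
  obtain ⟨y₁, y₂, h6, h7, h8⟩ := List.append_sublist_iff.1 h2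
  have h9 : n = y₁.length + y₂.length := by
    have := congrArg List.length h6
    rw [length_word, List.length_append] at this
    exact this
  have h10 : y₁ = word z β y₁.length ∧ y₂ = word z (β + y₁.length) y₂.length := by
    rw [h9, word_add] at h6
    have := List.append_inj h6 (by rw [length_word])
    exact ⟨this.1.symm, this.2.symm⟩
  refine ⟨y₁.length, y₂.length, h9, ?_⟩
  rw [← h10.1, ← h10.2]
  have e1 := D_le_of_sublist h4 h7
  have e2 := D_le_of_sublist h5 h8
  have e3 := D_add_lcs (x₁ ++ x₂) (word z β n)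
  rw [← h3, length_word, List.length_append, List.length_append] at e3
  omega

theorem D_split_aux (z : ℤ → A) (b e : ℕ) : ∀ (r : ℕ) (α β : ℤ) (n : ℕ),
    ∃ (γ : ℕ → ℤ) (ν : ℕ → ℕ) (n' : ℕ), γ 0 = β ∧ (∀ q, γ (q + 1) = γ q + ν q) ∧
      (∑ q ∈ range r, D (word z (α + q * b) b) (word z (γ q) (ν q))) +
        D (word z (α + r * b) e) (word z (γ r) n') ≤
      D (word z α (r * b + e)) (word z β n) := by
  intro r
  induction r with
  | zero =>
    intro α β n
    refine ⟨fun _ => β, fun _ => 0, n, rfl, fun q => by simp, ?_⟩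
    simp
  | succ r ih =>
    intro α β n
    have e1 : (r + 1) * b + e = b + (r * b + e) := by ring
    obtain ⟨n₁, n₂, -, h2⟩ := D_split (word z α b) (word z (α + b) (r * b + e)) z β n
    rw [← word_add, ← e1] at h2
    obtain ⟨γ, ν, n', h3, h4, h5⟩ := ih (α + b) (β + n₁) n₂
    refine ⟨fun q => if q = 0 then β else γ (q - 1), fun q => if q = 0 then n₁ else ν (q - 1), n',
      by simp, ?_, ?_⟩
    · intro q
      rcases Nat.eq_zero_or_pos q with rfl | hq
      · simp [h3]
      · obtain ⟨q, rfl⟩ := Nat.exists_eq_succ_of_ne_zero hq.ne'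
        simp [h4]
    · rw [Finset.sum_range_succ']
      have e2 : ∀ q : ℕ, α + ((q + 1 : ℕ) : ℤ) * b = α + b + q * b := by
        intro q
        push_cast
        ring
      simp only [Nat.add_eq_zero_iff, one_ne_zero, and_false, if_false, if_true,
        Nat.add_sub_cancel, Nat.cast_zero, zero_mul, add_zero, e2]
      have h6 := h5
      omega

/-- splitting a window into `r` windows of length `b` and a rest -/
theorem D_split_many (z : ℤ → A) (α β : ℤ) (r b e n : ℕ) :
    ∃ (γ : ℕ → ℤ) (ν : ℕ → ℕ) (n' : ℕ), γ 0 = β ∧ (∀ q, γ (q + 1) = γ q + ν q) ∧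
      (∑ q ∈ range r, D (word z (α + q * b) b) (word z (γ q) (ν q))) +
        D (word z (α + r * b) e) (word z (γ r) n') ≤
      D (word z α (r * b + e)) (word z β n) ∧
      ∀ q, q ≤ r → |(γ q - β) - q * b| ≤ D (word z α (r * b + e)) (word z β n) := by
  obtain ⟨γ, ν, n', h1, h2, h3⟩ := D_split_aux z b e r α β n
  refine ⟨γ, ν, n', h1, h2, h3, ?_⟩
  have h4 : ∀ q : ℕ, |(γ q - β) - (q : ℤ) * (b : ℤ)| ≤
      ((∑ i ∈ range q, D (word z (α + (i : ℤ) * (b : ℤ)) b) (word z (γ i) (ν i)) : ℕ) : ℤ) := by
    intro q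
    induction q with
    | zero => simp [h1]
    | succ q ih =>
      rw [h2, Finset.sum_range_succ]
      have h5 := length_le_D (word z (α + q * b) b) (word z (γ q) (ν q))
      rw [length_word, length_word] at h5
      push_cast at ih ⊢
      rw [abs_le] at ih ⊢
      constructor
      · linarith [ih.1, (by exact_mod_cast h5.1 :
          (b : ℤ) ≤ ν q + D (word z (α + q * b) b) (word z (γ q) (ν q)))]
      · linarith [ih.2, (by exact_mod_cast h5.2 :
          (ν q : ℤ) ≤ b + D (word z (α + q * b) b) (word z (γ q) (ν q)))]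
  intro q hq
  refine (h4 q).trans ?_
  have h6 : ∑ i ∈ range q, D (word z (α + (i : ℤ) * (b : ℤ)) b) (word z (γ i) (ν i)) ≤
      ∑ i ∈ range r, D (word z (α + (i : ℤ) * (b : ℤ)) b) (word z (γ i) (ν i)) :=
    Finset.sum_le_sum_of_subset (Finset.range_subset_range.2 hq)
  exact Int.ofNat_le.2 (h6.trans (by omega))

open Classical in
/-- mismatches bound the edit distance -/
theorem D_le_mismatch (z : ℤ → A) (a b : ℤ) (n : ℕ) :
    D (word z a n) (word z b n) ≤
      2 * ((range n).filter (fun i : ℕ => z (a + (i : ℤ)) ≠ z (b + (i : ℤ)))).card := by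
  have key : ∃ w : List A, w.Sublist (word z a n) ∧ w.Sublist (word z b n) ∧
      n ≤ w.length + ((range n).filter (fun i : ℕ => z (a + (i : ℤ)) ≠ z (b + (i : ℤ)))).card := by
    induction n with
    | zero => exact ⟨[], List.nil_sublist _, List.nil_sublist _, by simp⟩
    | succ n ih =>
      obtain ⟨w, h1, h2, h3⟩ := ih
      have e : ∀ c : ℤ, word z c (n + 1) = word z c n ++ [z (c + n)] := by
        intro c
        rw [word_add]
        simp [word]
      rw [e, e, Finset.range_add_one, Finset.filter_insert]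
      by_cases hc : z (a + n) = z (b + n)
      · refine ⟨w ++ [z (a + n)], h1.append (List.Sublist.refl _), ?_, ?_⟩
        · rw [hc]
          exact h2.append (List.Sublist.refl _)
        · rw [List.length_append, List.length_singleton, if_neg (not_not.2 hc)]
          omega
      · refine ⟨w, h1.trans (List.sublist_append_left _ _),
          h2.trans (List.sublist_append_left _ _), ?_⟩
        rw [if_pos hc, Finset.card_insert_of_notMem (by simp)]
        omega
  obtain ⟨w, h1, h2, h3⟩ := key
  have h4 := D_le_of_sublist h1 h2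
  rw [length_word, length_word] at h4
  omega

/-- cutting off ends -/
theorem D_infix (z : ℤ → A) (a b : ℤ) (n a₁ b₁ n' : ℕ) (h1 : a₁ + n' ≤ n) (h2 : b₁ + n' ≤ n) :
    D (word z a n) (word z b n) ≤ 2 * (n - n') + D (word z (a + a₁) n') (word z (b + b₁) n') := by
  have key : ∀ (a : ℤ) (a₁ : ℕ), a₁ + n' ≤ n → (word z (a + a₁) n').Sublist (word z a n) := by
    intro a a₁ h
    obtain ⟨e, rfl⟩ := Nat.exists_eq_add_of_le h
    rw [word_add, word_add]
    exact ((List.sublist_append_right _ _).trans (List.sublist_append_left _ _))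
  obtain ⟨w, h3, h4, h5⟩ := exists_lcs (word z (a + a₁) n') (word z (b + b₁) n')
  have h6 := D_le_of_sublist (h3.trans (key a a₁ h1)) (h4.trans (key b b₁ h2))
  have h7 := D_add_lcs (word z (a + a₁) n') (word z (b + b₁) n')
  simp only [length_word] at h6 h7
  omega

end H95.Edit
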