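import Mathlib

/-! M8: from the bounds to the limit (helper13). -/

namespace H95.Edit

open Filter Topology

/-- the level `m` with `L ^ m` close to `N ^ t` -/
lemma level_bounds (L : ℕ) (hL : 2 ≤ L) (t : ℝ) (ht : 0 ≤ t) (N : ℕ) (hN : 1 ≤ N) :
    ((L : ℝ) ^ (⌊t * Real.log N / Real.log L⌋₊) ≤ (N : ℝ) ^ t) ∧
      ((N : ℝ) ^ t ≤ (L : ℝ) * (L : ℝ) ^ (⌊t * Real.log N / Real.log L⌋₊)) := by
  have hL0 : (0 : ℝ) < L := by positivity
  have hN0 : (0 : ℝ) < N := by positivity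
  have hlogL : 0 < Real.log L := Real.log_pos (by exact_mod_cast (by omega : 1 < L))
  have hlogN : 0 ≤ Real.log N := Real.log_nonneg (by exact_mod_cast hN)
  set m := ⌊t * Real.log N / Real.log L⌋₊ with hm
  have h1 : (m : ℝ) ≤ t * Real.log N / Real.log L := Nat.floor_le (by positivity)
  have h2 : t * Real.log N / Real.log L < m + 1 := Nat.lt_floor_add_one _
  rw [le_div_iff₀ hlogL] at h1
  rw [div_lt_iff₀ hlogL] at h2
  have e1 : (L : ℝ) ^ m = Real.exp (m * Real.log L) := by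
    rw [← Real.rpow_natCast, Real.rpow_def_of_pos hL0, mul_comm]
  have e2 : (N : ℝ) ^ t = Real.exp (t * Real.log N) := by
    rw [Real.rpow_def_of_pos hN0, mul_comm]
  constructor
  · rw [e1, e2]
    exact Real.exp_le_exp.2 h1
  · have e3 : (L : ℝ) * (L : ℝ) ^ m = Real.exp ((m + 1) * Real.log L) := by
      rw [e1, add_mul, one_mul, Real.exp_add, Real.exp_log hL0, mul_comm]
    rw [e3, e2]
    exact Real.exp_le_exp.2 h2.le

lemma upper_of_bounds (L : ℕ) (hL : 2 ≤ L) (μ : ℝ) (h0 : 0 ≤ μ) (h1 : μ ≤ 1) (Δ : ℕ → ℝ)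
    (hup : ∀ ε : ℝ, 0 < ε → ∃ C : ℝ, 0 ≤ C ∧ ∀ m N : ℕ,
      Δ N ≤ C * (L : ℝ) ^ m + 2 * (N / L ^ m : ℕ) * (C * (L : ℝ) ^ ((μ + ε) * m)))
    (ε : ℝ) (hε : 0 < ε) :
    ∃ C : ℝ, 1 ≤ C ∧ ∀ N : ℕ, 1 ≤ N → Δ N ≤ C * (N : ℝ) ^ (1 / (2 - μ) + ε) := by
  obtain ⟨C, hC, h⟩ := hup ε hε
  have hL1 : (1 : ℝ) ≤ L := by exact_mod_cast (by omega : 1 ≤ L)
  have hL0 : (0 : ℝ) < L := by positivity
  refine ⟨max 1 (C + 2 * C * L), le_max_left _ _, fun N hN => ?_⟩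
  have hN1 : (1 : ℝ) ≤ N := by exact_mod_cast hN
  have hN0 : (0 : ℝ) < N := by positivity
  set θ : ℝ := 1 / (2 - μ) with hθ
  have hθ0 : 0 < θ := by
    rw [hθ]
    apply div_pos one_pos
    linarith
  have hθ1 : θ ≤ 1 := by
    rw [hθ, div_le_one (by linarith)]
    linarith
  obtain ⟨g1, g2⟩ := level_bounds L hL θ hθ0.le N hN
  set m := ⌊θ * Real.log N / Real.log L⌋₊ with hm
  have h3 := h m N
  have hLm : (0 : ℝ) < (L : ℝ) ^ m := by positivity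
  have h4 : ((N / L ^ m : ℕ) : ℝ) ≤ N / (L : ℝ) ^ m := by
    have := @Nat.cast_div_le ℝ _ _ _ N (L ^ m)
    push_cast at this
    exact this
  have e1 : (L : ℝ) ^ ((μ + ε) * m) = (L : ℝ) ^ m * ((L : ℝ) ^ m) ^ (μ - 1) * ((L : ℝ) ^ m) ^ ε := by
    have : ((μ + ε) * m : ℝ) = (m : ℝ) * (μ + ε) := by ring
    rw [this, Real.rpow_mul hL0.le, Real.rpow_natCast]
    have h5 : (μ + ε) = 1 + (μ - 1) + ε := by ring
    rw [h5, Real.rpow_add hLm, Real.rpow_add hLm, Real.rpow_one]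
  have e2 : ((L : ℝ) ^ m) ^ (μ - 1) ≤ L * (N : ℝ) ^ (θ * (μ - 1)) := by
    have h5 : (N : ℝ) ^ θ / L ≤ (L : ℝ) ^ m := by
      rw [div_le_iff₀ hL0]
      linarith
    have h6 : 0 < (N : ℝ) ^ θ / L := by positivity
    calc ((L : ℝ) ^ m) ^ (μ - 1) ≤ ((N : ℝ) ^ θ / L) ^ (μ - 1) :=
          Real.rpow_le_rpow_of_nonpos h6 h5 (by linarith)
      _ = (N : ℝ) ^ (θ * (μ - 1)) * (L : ℝ) ^ (1 - μ) := by
          rw [Real.div_rpow (by positivity) hL0.le, ← Real.rpow_mul hN0.le, div_eq_mul_inv,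
            ← Real.rpow_neg hL0.le]
          congr 2
          ring
      _ ≤ (N : ℝ) ^ (θ * (μ - 1)) * L := by
          gcongr
          calc (L : ℝ) ^ (1 - μ) ≤ (L : ℝ) ^ (1 : ℝ) :=
                Real.rpow_le_rpow_of_exponent_le hL1 (by linarith)
            _ = L := Real.rpow_one _
      _ = L * (N : ℝ) ^ (θ * (μ - 1)) := by ring
  have e3 : ((L : ℝ) ^ m) ^ ε ≤ (N : ℝ) ^ ε := by
    calc ((L : ℝ) ^ m) ^ ε ≤ ((N : ℝ) ^ θ) ^ ε := Real.rpow_le_rpow hLm.le g1 hε.le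
      _ = (N : ℝ) ^ (θ * ε) := by rw [← Real.rpow_mul hN0.le]
      _ ≤ (N : ℝ) ^ ε := by
          apply Real.rpow_le_rpow_of_exponent_le hN1
          nlinarith
  have e4 : (N : ℝ) * (N : ℝ) ^ (θ * (μ - 1)) = (N : ℝ) ^ θ := by
    have h5 : θ = 1 + θ * (μ - 1) := by
      rw [hθ]
      have : (2 - μ) ≠ 0 := by linarith
      field_simp
      ring
    conv_rhs => rw [h5, Real.rpow_add hN0, Real.rpow_one]
  have e5 : (N : ℝ) ^ θ ≤ (N : ℝ) ^ (θ + ε) :=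
    Real.rpow_le_rpow_of_exponent_le hN1 (by linarith)
  have key : 2 * ((N / L ^ m : ℕ) : ℝ) * (C * (L : ℝ) ^ ((μ + ε) * m)) ≤
      2 * C * L * (N : ℝ) ^ (θ + ε) := by
    calc 2 * ((N / L ^ m : ℕ) : ℝ) * (C * (L : ℝ) ^ ((μ + ε) * m))
        ≤ 2 * (N / (L : ℝ) ^ m) * (C * (L : ℝ) ^ ((μ + ε) * m)) := by gcongr
      _ = 2 * C * N * (((L : ℝ) ^ m) ^ (μ - 1) * ((L : ℝ) ^ m) ^ ε) := by
          rw [e1]
          field_simp
      _ ≤ 2 * C * N * ((L * (N : ℝ) ^ (θ * (μ - 1))) * (N : ℝ) ^ ε) := by gcongr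
      _ = 2 * C * L * ((N * (N : ℝ) ^ (θ * (μ - 1))) * (N : ℝ) ^ ε) := by ring
      _ = 2 * C * L * (N : ℝ) ^ (θ + ε) := by rw [e4, ← Real.rpow_add hN0]
  calc Δ N ≤ C * (L : ℝ) ^ m + 2 * (N / L ^ m : ℕ) * (C * (L : ℝ) ^ ((μ + ε) * m)) := h3
    _ ≤ C * (N : ℝ) ^ (θ + ε) + 2 * C * L * (N : ℝ) ^ (θ + ε) := by
        apply add_le_add _ key
        exact mul_le_mul_of_nonneg_left (g1.trans e5) hC
    _ = (C + 2 * C * L) * (N : ℝ) ^ (θ + ε) := by ring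
    _ ≤ max 1 (C + 2 * C * L) * (N : ℝ) ^ (θ + ε) := by
        gcongr
        exact le_max_right _ _

lemma lower_of_bounds (L : ℕ) (hL : 2 ≤ L) (μ : ℝ) (h0 : 0 ≤ μ) (h1 : μ ≤ 1) (Δ : ℕ → ℝ)
    (hlow : ∀ ε : ℝ, 0 < ε → ∃ (c : ℝ) (l : ℕ), 0 < c ∧ 1 ≤ l ∧ ∀ m N : ℕ, 1 ≤ m →
      min ((L : ℝ) ^ m / 8) ((N / (l * L ^ m) : ℕ) * (c * (L : ℝ) ^ ((μ - ε) * m))) ≤ Δ N)
    (ε : ℝ) (hε : 0 < ε) (hε4 : ε ≤ 1 / 4) :
    ∃ c : ℝ, 0 < c ∧ ∀ᶠ N : ℕ in atTop, c * (N : ℝ) ^ (1 / (2 - μ) - ε) ≤ Δ N := by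
  obtain ⟨c, l, hc, hl, h⟩ := hlow ε hε
  have hL1 : (1 : ℝ) ≤ L := by exact_mod_cast (by omega : 1 ≤ L)
  have hL0 : (0 : ℝ) < L := by positivity
  have hl0 : (0 : ℝ) < l := by exact_mod_cast (by omega : 0 < l)
  set θ : ℝ := 1 / (2 - μ) with hθ
  have hθ1 : θ ≤ 1 := by
    rw [hθ, div_le_one (by linarith)]
    linarith
  have hθ2 : 1 / 2 ≤ θ := by
    rw [hθ]
    apply one_div_le_one_div_of_le <;> linarith
  set t : ℝ := θ - ε with ht
  have ht0 : 0 < t := by rw [ht]; linarith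
  have ht1 : t < 1 := by rw [ht]; linarith
  have hT1 : Tendsto (fun N : ℕ => (N : ℝ) ^ t) atTop atTop :=
    (tendsto_rpow_atTop ht0).comp tendsto_natCast_atTop_atTop
  have hT2 : Tendsto (fun N : ℕ => (N : ℝ) ^ (1 - t)) atTop atTop :=
    (tendsto_rpow_atTop (by linarith)).comp tendsto_natCast_atTop_atTop
  refine ⟨min (1 / (8 * (L : ℝ))) (c / (2 * l)), by positivity, ?_⟩
  filter_upwards [eventually_ge_atTop 1, hT1.eventually_ge_atTop ((L : ℝ) ^ 2),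
    hT2.eventually_ge_atTop (2 * l)] with N hN hN2 hN3
  have hN1 : (1 : ℝ) ≤ N := by exact_mod_cast hN
  have hN0 : (0 : ℝ) < N := by positivity
  obtain ⟨g1, g2⟩ := level_bounds L hL t ht0.le N hN
  set m := ⌊t * Real.log N / Real.log L⌋₊ with hm
  have hLm : (0 : ℝ) < (L : ℝ) ^ m := by positivity
  have hm1 : 1 ≤ m := by
    by_contra hm0
    have hm0' : m = 0 := by omega
    rw [hm0'] at g2
    have hL2 : (2 : ℝ) ≤ L := by exact_mod_cast hL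
    nlinarith
  refine le_trans ?_ (h m N hm1)
  apply le_min
  · calc min (1 / (8 * (L : ℝ))) (c / (2 * l)) * (N : ℝ) ^ t ≤ 1 / (8 * (L : ℝ)) * (N : ℝ) ^ t := by
          gcongr
          exact min_le_left _ _
      _ ≤ 1 / (8 * (L : ℝ)) * (L * (L : ℝ) ^ m) := by gcongr
      _ = (L : ℝ) ^ m / 8 := by
          field_simp
  · have h4 : (N : ℝ) / (2 * l * (L : ℝ) ^ m) ≤ ((N / (l * L ^ m) : ℕ) : ℝ) := by
      have h5 : (N : ℝ) / (l * (L : ℝ) ^ m) < ((N / (l * L ^ m) : ℕ) : ℝ) + 1 := by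
        have h6 : N < (l * L ^ m) * (N / (l * L ^ m) + 1) :=
          Nat.lt_mul_div_succ N (by positivity)
        have h7 : (N : ℝ) < (l * (L : ℝ) ^ m) * (((N / (l * L ^ m) : ℕ) : ℝ) + 1) := by
          exact_mod_cast h6
        rw [div_lt_iff₀ (by positivity)]
        linarith
      have h8 : (2 : ℝ) ≤ (N : ℝ) / (l * (L : ℝ) ^ m) := by
        rw [le_div_iff₀ (by positivity)]
        have h9 : (N : ℝ) = (N : ℝ) ^ (1 - t) * (N : ℝ) ^ t := by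
          rw [← Real.rpow_add hN0]
          simp
        calc (2 : ℝ) * (l * (L : ℝ) ^ m) = (2 * l) * (L : ℝ) ^ m := by ring
          _ ≤ (N : ℝ) ^ (1 - t) * (N : ℝ) ^ t := by gcongr
          _ = N := h9.symm
      have h10 : (N : ℝ) / (2 * l * (L : ℝ) ^ m) = (N : ℝ) / (l * (L : ℝ) ^ m) / 2 := by
        field_simp
      rw [h10]
      linarith
    have e1 : (L : ℝ) ^ ((μ - ε) * m) = (L : ℝ) ^ m * ((L : ℝ) ^ m) ^ (μ - 1 - ε) := by
      have : ((μ - ε) * m : ℝ) = (m : ℝ) * (μ - ε) := by ring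
      rw [this, Real.rpow_mul hL0.le, Real.rpow_natCast]
      have h5 : (μ - ε) = 1 + (μ - 1 - ε) := by ring
      rw [h5, Real.rpow_add hLm, Real.rpow_one]
    have e2 : (N : ℝ) ^ (t * (μ - 1 - ε)) ≤ ((L : ℝ) ^ m) ^ (μ - 1 - ε) := by
      rw [Real.rpow_mul hN0.le]
      exact Real.rpow_le_rpow_of_nonpos hLm g1 (by linarith)
    have e3 : (N : ℝ) ^ t ≤ N * (N : ℝ) ^ (t * (μ - 1 - ε)) := by
      have h5 : (N : ℝ) * (N : ℝ) ^ (t * (μ - 1 - ε)) = (N : ℝ) ^ (1 + t * (μ - 1 - ε)) := by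
        rw [Real.rpow_add hN0, Real.rpow_one]
      rw [h5]
      apply Real.rpow_le_rpow_of_exponent_le hN1
      have h6 : θ * (2 - μ) = 1 := by
        rw [hθ]
        have : (2 - μ) ≠ 0 := by linarith
        field_simp
      rw [ht]
      nlinarith
    calc min (1 / (8 * (L : ℝ))) (c / (2 * l)) * (N : ℝ) ^ t ≤ c / (2 * l) * (N : ℝ) ^ t := by
          gcongr
          exact min_le_right _ _
      _ ≤ c / (2 * l) * (N * ((L : ℝ) ^ m) ^ (μ - 1 - ε)) := by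
          gcongr
          exact e3.trans (by gcongr)
      _ = (N : ℝ) / (2 * l * (L : ℝ) ^ m) * (c * (L : ℝ) ^ ((μ - ε) * m)) := by
          rw [e1]
          field_simp
      _ ≤ ((N / (l * L ^ m) : ℕ) : ℝ) * (c * (L : ℝ) ^ ((μ - ε) * m)) := by gcongr

theorem limit_of_bounds (L : ℕ) (hL : 2 ≤ L) (μ : ℝ) (h0 : 0 ≤ μ) (h1 : μ ≤ 1) (Δ : ℕ → ℝ)
    (hlow : ∀ ε : ℝ, 0 < ε → ∃ (c : ℝ) (l : ℕ), 0 < c ∧ 1 ≤ l ∧ ∀ m N : ℕ, 1 ≤ m →
      min ((L : ℝ) ^ m / 8) ((N / (l * L ^ m) : ℕ) * (c * (L : ℝ) ^ ((μ - ε) * m))) ≤ Δ N)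
    (hup : ∀ ε : ℝ, 0 < ε → ∃ C : ℝ, 0 ≤ C ∧ ∀ m N : ℕ,
      Δ N ≤ C * (L : ℝ) ^ m + 2 * (N / L ^ m : ℕ) * (C * (L : ℝ) ^ ((μ + ε) * m))) :
    Tendsto (fun N : ℕ => Real.log (Δ N / 2) / Real.log N) atTop (𝓝 (1 / (2 - μ))) := by
  have hlogT : Tendsto (fun N : ℕ => Real.log N) atTop atTop :=
    Real.tendsto_log_atTop.comp tendsto_natCast_atTop_atTop
  have hdiv : ∀ K : ℝ, Tendsto (fun N : ℕ => K / Real.log N) atTop (𝓝 0) := fun K =>
    tendsto_const_nhds.div_atTop hlogT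
  rw [tendsto_order]
  constructor
  · intro a ha
    set θ : ℝ := 1 / (2 - μ) with hθ
    set ε : ℝ := min ((θ - a) / 2) (1 / 4) with hεdef
    have hε : 0 < ε := lt_min (by linarith) (by norm_num)
    obtain ⟨c, hc, h⟩ := lower_of_bounds L hL μ h0 h1 Δ hlow ε hε (min_le_right _ _)
    have hev := (hdiv (Real.log (c / 2))).eventually (lt_mem_nhds (show -((θ - a) / 2) < (0 : ℝ) by
      linarith))
    filter_upwards [h, hev, hlogT.eventually_gt_atTop 0, eventually_ge_atTop 1] with N hN1 hN2 hN3 hN4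
    have hN0 : (0 : ℝ) < N := by exact_mod_cast hN4
    have h2 : c / 2 * (N : ℝ) ^ (θ - ε) ≤ Δ N / 2 := by
      have : c / 2 * (N : ℝ) ^ (θ - ε) = (c * (N : ℝ) ^ (θ - ε)) / 2 := by ring
      rw [this]
      linarith
    have h3 : Real.log (c / 2) + (θ - ε) * Real.log N ≤ Real.log (Δ N / 2) := by
      have h4 : 0 < c / 2 * (N : ℝ) ^ (θ - ε) := by positivity
      have h5 := Real.log_le_log h4 h2
      rwa [Real.log_mul (by positivity) (by positivity), Real.log_rpow hN0] at h5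
    have h6 : Real.log (c / 2) / Real.log N + (θ - ε) ≤ Real.log (Δ N / 2) / Real.log N := by
      rw [div_add' _ _ _ hN3.ne']
      gcongr
    have h7 : ε ≤ (θ - a) / 2 := min_le_left _ _
    linarith
  · intro b hb
    set θ : ℝ := 1 / (2 - μ) with hθ
    set ε : ℝ := min ((b - θ) / 2) (1 / 4) with hεdef
    have hε : 0 < ε := lt_min (by linarith) (by norm_num)
    obtain ⟨C, hC, h⟩ := upper_of_bounds L hL μ h0 h1 Δ hup ε hε
    obtain ⟨c, hc, h'⟩ := lower_of_bounds L hL μ h0 h1 Δ hlow ε hε (min_le_right _ _)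
    have hev := (hdiv (Real.log (C / 2))).eventually (gt_mem_nhds (show (0 : ℝ) < (b - θ) / 2 by
      linarith))
    filter_upwards [h', hev, hlogT.eventually_gt_atTop 0, eventually_ge_atTop 1] with N hN1 hN2 hN3 hN4
    have hN0 : (0 : ℝ) < N := by exact_mod_cast hN4
    have hN5 := h N hN4
    have hΔ : 0 < Δ N / 2 := by
      have : 0 < c * (N : ℝ) ^ (θ - ε) := by positivity
      linarith
    have h2 : Δ N / 2 ≤ C / 2 * (N : ℝ) ^ (θ + ε) := by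
      have : C / 2 * (N : ℝ) ^ (θ + ε) = (C * (N : ℝ) ^ (θ + ε)) / 2 := by ring
      rw [this]
      linarith
    have h3 : Real.log (Δ N / 2) ≤ Real.log (C / 2) + (θ + ε) * Real.log N := by
      have h5 := Real.log_le_log hΔ h2
      rwa [Real.log_mul (by positivity) (by positivity), Real.log_rpow hN0] at h5
    have h6 : Real.log (Δ N / 2) / Real.log N ≤ Real.log (C / 2) / Real.log N + (θ + ε) := by
      rw [div_add' _ _ _ hN3.ne']
      gcongr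
    have h7 : ε ≤ (b - θ) / 2 := min_le_left _ _
    linarith

end H95.Edit
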