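import Pool.Agent.H95.Edit.Defs

/-! M2: iterated images. -/

namespace H95.Edit

open Finset

variable {A : Type} {L : ℕ} {s : A → ℕ → A} {z : ℤ → A} {Q : A → A → Prop}

theorem Sys.sub_eq (h : Sys L s z) (k : ℕ) (n : ℤ) (r : ℕ) (hr : r < L ^ k) :
    z ((L : ℤ) ^ k * n + r) = sub L s k (z n) r := by
  have hL := h.two_le
  induction k generalizing r with
  | zero =>
    have : r = 0 := by simpa using hr
    subst this
    simp [sub]
  | succ k ih =>
    have h1 : r / L < L ^ k := Nat.div_lt_of_lt_mul (by rw [mul_comm]; rwa [← pow_succ])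
    have h2 : (L : ℤ) ^ (k + 1) * n + r = L * ((L : ℤ) ^ k * n + (r / L : ℕ)) + (r % L : ℕ) := by
      have h3 : ((L * (r / L) + r % L : ℕ) : ℤ) = r := by rw [Nat.div_add_mod]
      push_cast at h3 ⊢
      rw [pow_succ]
      linear_combination -h3
    rw [h2, h.eq _ _ (Nat.mod_lt _ (by omega)), ih _ h1]
    rfl

theorem sub_add (L : ℕ) (s : A → ℕ → A) (k m : ℕ) (a : A) (r : ℕ) :
    sub L s (k + m) a r = sub L s m (sub L s k a (r / L ^ m)) (r % L ^ m) := by
  induction m generalizing r with
  | zero => simp [sub]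
  | succ m ih =>
    change s (sub L s (k + m) a (r / L)) (r % L) =
      s (sub L s m (sub L s k a (r / L ^ (m + 1))) (r % L ^ (m + 1) / L)) (r % L ^ (m + 1) % L)
    rw [ih]
    have e1 : r / L / L ^ m = r / L ^ (m + 1) := by
      rw [Nat.div_div_eq_div_mul, pow_succ, mul_comm]
    have e2 : r / L % L ^ m = r % L ^ (m + 1) / L := by
      rw [pow_succ, mul_comm (L ^ m) L, Nat.mod_mul_right_div_self]
    have e3 : r % L ^ (m + 1) % L = r % L := by
      rw [pow_succ, mul_comm (L ^ m) L]
      exact Nat.mod_mul_right_mod r L (L ^ m)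
    rw [e1, e2, e3]

theorem Compat.sub (h : Compat L s Q) (k : ℕ) (a b : A) (hab : Q a b) (r : ℕ) (hr : r < L ^ k) :
    Q (sub L s k a r) (sub L s k b r) := by
  induction k generalizing r with
  | zero => exact hab
  | succ k ih =>
    have hL : 0 < L := by
      rcases Nat.eq_zero_or_pos L with rfl | h'
      · rw [pow_succ, mul_zero] at hr
        omega
      · exact h'
    have h1 : r / L < L ^ k := Nat.div_lt_of_lt_mul (by rw [mul_comm]; rwa [← pow_succ])
    exact h.step _ _ (ih _ h1) _ (Nat.mod_lt _ hL)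

/-- counting in blocks -/
theorem card_blocks (P : ℕ → Prop) [DecidablePred P] (n b : ℕ) :
    ((range (n * b)).filter P).card =
      ∑ i ∈ range n, ((range b).filter (fun j => P (i * b + j))).card := by
  induction n with
  | zero => simp
  | succ n ih =>
    rw [Finset.sum_range_succ, ← ih, Nat.succ_mul]
    have h1 : (range (n * b + b)).filter P = ((range (n * b)).filter P) ∪
        (((range b).filter (fun j => P (n * b + j))).map (addLeftEmbedding (n * b))) := by
      ext i
      simp only [mem_filter, mem_range, mem_union, mem_map, addLeftEmbedding_apply]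
      constructor
      · rintro ⟨h2, h3⟩
        by_cases h4 : i < n * b
        · exact Or.inl ⟨h4, h3⟩
        · right
          refine ⟨i - n * b, ⟨by omega, ?_⟩, by omega⟩
          rwa [Nat.add_sub_cancel' (by omega)]
      · rintro (⟨h2, h3⟩ | ⟨j, ⟨h2, h3⟩, rfl⟩)
        · exact ⟨by omega, h3⟩
        · exact ⟨by omega, h3⟩
    rw [h1, Finset.card_union_of_disjoint, Finset.card_map]
    rw [Finset.disjoint_left]
    intro i hi hi'
    simp only [mem_filter, mem_range, mem_map, addLeftEmbedding_apply] at hi hi'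
    obtain ⟨j, -, rfl⟩ := hi'
    omega

theorem NQ_add (hL : 1 ≤ L) (k m : ℕ) (a b : A) :
    NQ L s Q (k + m) a b = ∑ r ∈ range (L ^ k), NQ L s Q m (sub L s k a r) (sub L s k b r) := by
  classical
  unfold NQ
  rw [pow_add, card_blocks]
  apply Finset.sum_congr rfl
  intro i _
  congr 1
  apply Finset.filter_congr
  intro j hj
  rw [mem_range] at hj
  rw [sub_add, sub_add]
  have hpos : 0 < L ^ m := by positivity
  have e1 : (i * L ^ m + j) / L ^ m = i := by
    rw [mul_comm, Nat.mul_add_div hpos, Nat.div_eq_of_lt hj, add_zero]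
  have e2 : (i * L ^ m + j) % L ^ m = j := by
    rw [mul_comm, Nat.mul_add_mod, Nat.mod_eq_of_lt hj]
  rw [e1, e2]

/-- mismatch numbers as sums over sub-pairs -/
theorem Hm_add (hL : 1 ≤ L) (k m : ℕ) (a b : A) :
    Hm L s (k + m) a b = ∑ r ∈ range (L ^ k), Hm L s m (sub L s k a r) (sub L s k b r) :=
  NQ_add (Q := fun a b => a = b) hL k m a b

theorem NQ_le (L : ℕ) (s : A → ℕ → A) (Q : A → A → Prop) (k : ℕ) (a b : A) :
    NQ L s Q k a b ≤ L ^ k := by
  classical
  unfold NQ
  exact (Finset.card_filter_le _ _).trans (Finset.card_range _).le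

open Classical in
/-- the number of pairs outside `Q` in a window of `n` blocks of level `k` -/
theorem Sys.notQ_eq (h : Sys L s z) (Q : A → A → Prop) (k n : ℕ) (a b : ℤ) :
    ((range (n * L ^ k)).filter (fun i =>
      ¬ Q (z (a * (L : ℤ) ^ k + (i : ℕ))) (z (b * (L : ℤ) ^ k + (i : ℕ))))).card =
      ∑ i ∈ range n, NQ L s Q k (z (a + i)) (z (b + i)) := by
  have hL := h.two_le
  rw [card_blocks]
  apply Finset.sum_congr rfl
  intro i _
  unfold NQ
  congr 1
  apply Finset.filter_congr
  intro j hj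
  rw [mem_range] at hj
  have e : ∀ c : ℤ, c * (L : ℤ) ^ k + ((i * L ^ k + j : ℕ) : ℤ) =
      (L : ℤ) ^ k * (c + i) + (j : ℤ) := by
    intro c
    push_cast
    ring
  rw [e, e, h.sub_eq k _ j hj, h.sub_eq k _ j hj]

open Classical in
/-- the number of mismatches in a window of `n` blocks of level `k` -/
theorem Sys.mismatch_eq (h : Sys L s z) (k n : ℕ) (a b : ℤ) :
    ((range (n * L ^ k)).filter (fun i =>
      z (a * (L : ℤ) ^ k + (i : ℕ)) ≠ z (b * (L : ℤ) ^ k + (i : ℕ)))).card =
      ∑ i ∈ range n, Hm L s k (z (a + i)) (z (b + i)) :=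
  h.notQ_eq (fun a b => a = b) k n a b

end H95.Edit
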