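import Pool.Agent.H95.Edit.Pub
import Pool.Agent.H95.Edit.M2_Sub

/-! M9: the language of a primitive substitution of constant length and its two-sided fixed
points. -/

namespace H95.Edit

open Finset

variable {A : Type}

/-- the letters of the images as a function (the default value is irrelevant) -/
def toFun (σ : A → List A) (a : A) (r : ℕ) : A := (σ a).getD r a

theorem length_subst (σ : A → List A) (L : ℕ) (hL : ∀ a, (σ a).length = L) (w : List A) :
    (subst σ w).length = w.length * L := by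
  unfold subst
  induction w with
  | nil => simp
  | cons a w ih =>
    rw [List.flatMap_cons, List.length_append, ih, hL, List.length_cons]
    ring

theorem length_iter (σ : A → List A) (L : ℕ) (hL : ∀ a, (σ a).length = L) (k : ℕ) (a : A) :
    ((subst σ)^[k] [a]).length = L ^ k := by
  induction k with
  | zero => simp
  | succ k ih =>
    rw [Function.iterate_succ_apply', length_subst σ L hL, ih, pow_succ]

theorem getElem_subst (σ : A → List A) (L : ℕ) (hL : ∀ a, (σ a).length = L) (w : List A) :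
    ∀ (q r : ℕ) (c : A), r < L → w[q]? = some c →
      (subst σ w)[q * L + r]? = some (toFun σ c r) := by
  induction w with
  | nil => intro q r c _ h; simp at h
  | cons a w ih =>
    intro q r c hr h
    have e : subst σ (a :: w) = σ a ++ subst σ w := by
      unfold subst; rw [List.flatMap_cons]
    rw [e]
    cases q with
    | zero =>
      simp only [List.getElem?_cons_zero, Option.some.injEq] at h
      subst h
      rw [zero_mul, zero_add, List.getElem?_append_left (by rw [hL]; exact hr)]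
      unfold toFun
      rw [List.getD_eq_getElem?_getD, List.getElem?_eq_getElem (by rw [hL]; exact hr)]
      simp
    | succ q =>
      simp only [List.getElem?_cons_succ] at h
      have e2 : (q + 1) * L + r = L + (q * L + r) := by ring
      rw [e2, List.getElem?_append_right (by rw [hL]; omega), hL]
      have e3 : L + (q * L + r) - L = q * L + r := by omega
      rw [e3]
      exact ih q r c hr h

theorem getElem_iter (σ : A → List A) (L : ℕ) (hL : ∀ a, (σ a).length = L) (k : ℕ) (a : A)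
    (r : ℕ) (hr : r < L ^ k) : ((subst σ)^[k] [a])[r]? = some (sub L (toFun σ) k a r) := by
  induction k generalizing r with
  | zero =>
    have : r = 0 := by simpa using hr
    subst this
    simp [sub]
  | succ k ih =>
    have hL0 : 0 < L := by
      rcases Nat.eq_zero_or_pos L with h0 | h0
      · rw [h0] at hr; simp at hr
      · exact h0
    rw [Function.iterate_succ_apply']
    have h1 : r / L < L ^ k := by
      rw [Nat.div_lt_iff_lt_mul hL0]
      rw [pow_succ] at hr
      exact hr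
    have h2 := ih (r / L) h1
    have h3 := getElem_subst σ L hL _ (r / L) (r % L) _ (Nat.mod_lt _ hL0) h2
    have h4 : r / L * L + r % L = r := by
      rw [mul_comm]; exact Nat.div_add_mod r L
    rw [h4] at h3
    rw [h3]
    rfl

/-- infix words in terms of the letter functions -/
theorem infix_iter_iff (σ : A → List A) (L : ℕ) (hL : ∀ a, (σ a).length = L) (k : ℕ) (c : A)
    (w : List A) :
    w <:+: (subst σ)^[k] [c] ↔ ∃ p : ℕ, p + w.length ≤ L ^ k ∧
      ∀ i : ℕ, i < w.length → w[i]? = some (sub L (toFun σ) k c (p + i)) := by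
  have hlen := length_iter σ L hL k c
  constructor
  · rintro ⟨u, v, huv⟩
    have hl : u.length + w.length + v.length = L ^ k := by
      rw [← hlen, ← huv]; simp [add_assoc]
    refine ⟨u.length, by omega, ?_⟩
    intro i hi
    rw [← getElem_iter σ L hL k c (u.length + i) (by omega), ← huv, List.append_assoc,
      List.getElem?_append_right (by omega)]
    rw [Nat.add_sub_cancel_left, List.getElem?_append_left hi]
  · rintro ⟨p, hp, h⟩
    set W := (subst σ)^[k] [c] with hW
    refine ⟨W.take p, W.drop (p + w.length), ?_⟩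
    have e : w = (W.drop p).take w.length := by
      apply List.ext_getElem?
      intro i
      by_cases hi : i < w.length
      · rw [h i hi, List.getElem?_take_of_lt hi, List.getElem?_drop,
          getElem_iter σ L hL k c (p + i) (by omega)]
      · rw [not_lt] at hi
        rw [List.getElem?_eq_none hi, List.getElem?_eq_none]
        rw [List.length_take]
        omega
    have e2 : W.drop (p + w.length) = (W.drop p).drop w.length := by
      rw [List.drop_drop]
    rw [e2]
    conv_lhs => 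
      rw [List.append_assoc]
    have e3 : w ++ (W.drop p).drop w.length = W.drop p := by
      conv_lhs =>
        arg 1
        rw [e]
      rw [List.take_append_drop]
    rw [e3, List.take_append_drop]

/-- the words of length `n` in terms of the letter functions -/
theorem mem_Words_iff (σ : A → List A) (L : ℕ) (hL : ∀ a, (σ a).length = L) (n : ℕ)
    (w : List A) :
    w ∈ Words σ n ↔ w.length = n ∧ ∃ (k : ℕ) (c : A) (p : ℕ), 1 ≤ k ∧ p + n ≤ L ^ k ∧
      ∀ i : ℕ, i < n → w[i]? = some (sub L (toFun σ) k c (p + i)) := by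
  unfold Words
  constructor
  · rintro ⟨rfl, k, c, hk, h⟩
    rw [infix_iter_iff σ L hL] at h
    obtain ⟨p, hp, h⟩ := h
    exact ⟨rfl, k, c, p, hk, hp, h⟩
  · rintro ⟨rfl, k, c, p, hk, hp, h⟩
    refine ⟨rfl, k, c, hk, ?_⟩
    rw [infix_iter_iff σ L hL]
    exact ⟨p, hp, h⟩

/-! ### Fixed points of the letter function -/

section Fixed

variable {L : ℕ} {s : A → ℕ → A}

/-- pairs of neighbouring letters -/
def Adm (L : ℕ) (s : A → ℕ → A) (x : A × A) : Prop :=
  ∃ (k : ℕ) (c : A) (p : ℕ), 1 ≤ k ∧ p + 2 ≤ L ^ k ∧ sub L s k c p = x.1 ∧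
    sub L s k c (p + 1) = x.2

/-- the pair at the cut of the image -/
def nxt (L : ℕ) (s : A → ℕ → A) (x : A × A) : A × A := (s x.1 (L - 1), s x.2 0)

theorem div_mod_pred {a b : ℕ} (hb : 1 ≤ b) :
    (a * b + (b - 1)) / b = a ∧ (a * b + (b - 1)) % b = b - 1 := by
  constructor
  · rw [mul_comm, Nat.mul_add_div (by omega), Nat.div_eq_of_lt (by omega), add_zero]
  · rw [mul_comm, Nat.mul_add_mod, Nat.mod_eq_of_lt (by omega)]

theorem div_mod_lt {a b r : ℕ} (hr : r < b) :
    (a * b + r) / b = a ∧ (a * b + r) % b = r := by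
  constructor
  · rw [mul_comm, Nat.mul_add_div (by omega), Nat.div_eq_of_lt (by omega), add_zero]
  · rw [mul_comm, Nat.mul_add_mod, Nat.mod_eq_of_lt (by omega)]

/-- letters of composed images -/
theorem sub_add_of_lt (L : ℕ) (s : A → ℕ → A) (k m : ℕ) (a : A) (q r : ℕ) (hr : r < L ^ m) :
    sub L s (k + m) a (q * L ^ m + r) = sub L s m (sub L s k a q) r := by
  rw [sub_add]
  obtain ⟨h1, h2⟩ := div_mod_lt (a := q) hr
  rw [h1, h2]

theorem nxt_iter (hL : 1 ≤ L) (k : ℕ) (x : A × A) :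
    (nxt L s)^[k] x = (sub L s k x.1 (L ^ k - 1), sub L s k x.2 0) := by
  induction k with
  | zero => simp [sub]
  | succ k ih =>
    rw [Function.iterate_succ_apply', ih]
    have hP : 1 ≤ L ^ k := Nat.one_le_pow _ _ hL
    have e : L ^ (k + 1) - 1 = (L ^ k - 1) * L + (L - 1) := by
      rw [pow_succ]
      obtain ⟨u, hu⟩ := Nat.exists_eq_add_of_le hP
      obtain ⟨v, hv⟩ := Nat.exists_eq_add_of_le hL
      rw [hu, hv]
      have : (1 + u) * (1 + v) = 1 + (u * (1 + v) + v) := by ring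
      rw [this]
      simp
    obtain ⟨h1, h2⟩ := div_mod_pred (a := L ^ k - 1) hL
    unfold nxt
    simp only [sub]
    rw [e, h1, h2]
    simp

theorem Adm.nxt (hL : 2 ≤ L) {x : A × A} (hx : Adm L s x) : Adm L s (nxt L s x) := by
  obtain ⟨k, c, p, hk, hp, h1, h2⟩ := hx
  refine ⟨k + 1, c, p * L + (L - 1), by omega, ?_, ?_, ?_⟩
  · rw [pow_succ]
    have : (p + 2) * L ≤ L ^ k * L := Nat.mul_le_mul_right _ hp
    have e : (p + 2) * L = p * L + 2 * L := by ring
    omega
  · obtain ⟨h3, h4⟩ := div_mod_pred (a := p) (b := L) (by omega)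
    simp only [sub, H95.Edit.nxt]
    rw [h3, h4, h1]
  · have e : p * L + (L - 1) + 1 = (p + 1) * L + 0 := by
      have : (p + 1) * L = p * L + L := by ring
      omega
    obtain ⟨h3, h4⟩ := div_mod_lt (a := p + 1) (b := L) (r := 0) (by omega)
    simp only [sub, H95.Edit.nxt]
    rw [e, h3, h4, h2]

theorem Adm.iter (hL : 2 ≤ L) {x : A × A} (hx : Adm L s x) (k : ℕ) :
    Adm L s ((H95.Edit.nxt L s)^[k] x) := by
  induction k with
  | zero => exact hx
  | succ k ih => rw [Function.iterate_succ_apply']; exact ih.nxt hL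

/-- a periodic pair -/
theorem exists_periodic [Finite A] [Nonempty A] (hL : 2 ≤ L) :
    ∃ (K : ℕ) (a b : A), 1 ≤ K ∧ Adm L s (a, b) ∧ sub L s K a (L ^ K - 1) = a ∧
      sub L s K b 0 = b := by
  obtain ⟨c⟩ := ‹Nonempty A›
  have h0 : Adm L s (sub L s 1 c 0, sub L s 1 c 1) :=
    ⟨1, c, 0, le_refl _, by simpa using hL, rfl, rfl⟩
  set x : A × A := (sub L s 1 c 0, sub L s 1 c 1) with hx
  obtain ⟨i, j, hij, he⟩ := Finite.exists_ne_map_eq_of_infinite (fun n : ℕ => (nxt L s)^[n] x)
  have key : ∀ i j : ℕ, i < j → (nxt L s)^[i] x = (nxt L s)^[j] x →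
      ∃ (K : ℕ) (a b : A), 1 ≤ K ∧ Adm L s (a, b) ∧ sub L s K a (L ^ K - 1) = a ∧
      sub L s K b 0 = b := by
    intro i j hij he
    obtain ⟨K, hK⟩ := Nat.exists_eq_add_of_le hij.le
    refine ⟨K, ((nxt L s)^[i] x).1, ((nxt L s)^[i] x).2, by omega, h0.iter hL i, ?_, ?_⟩
    · have h1 : (nxt L s)^[K] ((nxt L s)^[i] x) = (nxt L s)^[i] x := by
        rw [← Function.iterate_add_apply, add_comm, ← hK, he]
      rw [nxt_iter (by omega)] at h1
      exact congrArg Prod.fst h1
    · have h1 : (nxt L s)^[K] ((nxt L s)^[i] x) = (nxt L s)^[i] x := by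
        rw [← Function.iterate_add_apply, add_comm, ← hK, he]
      rw [nxt_iter (by omega) K ((nxt L s)^[i] x)] at h1
      exact congrArg Prod.snd h1
  rcases lt_or_gt_of_ne hij with h | h
  · exact key i j h he
  · exact key j i h he.symm

/-- finite stages of the fixed point -/
def stage (L : ℕ) (s : A → ℕ → A) (K : ℕ) (a b : A) (j : ℕ) (n : ℤ) : A :=
  if 0 ≤ n then sub L s (K * j) b n.toNat else sub L s (K * j) a (n + (L : ℤ) ^ (K * j)).toNat

/-- the two-sided fixed point -/
def zfix (L : ℕ) (s : A → ℕ → A) (K : ℕ) (a b : A) (n : ℤ) : A := stage L s K a b n.natAbs n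

theorem stage_succ (hL : 2 ≤ L) {K : ℕ} {a b : A}
    (ha : sub L s K a (L ^ K - 1) = a) (hb : sub L s K b 0 = b) (j : ℕ) (n : ℤ)
    (hn : n.natAbs < L ^ (K * j)) : stage L s K a b (j + 1) n = stage L s K a b j n := by
  have e : K * (j + 1) = K + K * j := by ring
  unfold stage
  rw [e]
  set M : ℕ := L ^ (K * j) with hM
  have hM0 : 0 < M := by omega
  have hMZ : (L : ℤ) ^ (K * j) = (M : ℤ) := by rw [hM]; push_cast; rfl
  have hP0 : 0 < L ^ K := pow_pos (by omega) K
  by_cases h0 : 0 ≤ n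
  · rw [if_pos h0, if_pos h0]
    have h1 : n.toNat < M := by omega
    have h2 := sub_add_of_lt L s K (K * j) b 0 n.toNat (by rw [← hM]; exact h1)
    rw [zero_mul, zero_add] at h2
    rw [h2, hb]
  · rw [if_neg h0, if_neg h0]
    rw [pow_add, hMZ]
    have h1 : (n + (M : ℤ)).toNat < M := by omega
    have h3 : (n + (L : ℤ) ^ K * (M : ℤ)).toNat = (L ^ K - 1) * L ^ (K * j) + (n + (M : ℤ)).toNat := by
      rw [← hM]
      obtain ⟨u, hu⟩ := Nat.exists_eq_add_of_le (show 1 ≤ L ^ K from hP0)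
      have huZ : (L : ℤ) ^ K = 1 + (u : ℤ) := by exact_mod_cast congrArg (Nat.cast : ℕ → ℤ) hu
      rw [huZ, hu]
      have e1 : (1 + u - 1) * M = u * M := by congr 1; omega
      rw [e1]
      have e2 : n + (1 + (u : ℤ)) * (M : ℤ) = ((u * M : ℕ) : ℤ) + (n + M) := by push_cast; ring
      rw [e2]
      have e4 : 0 ≤ n + (M : ℤ) := by omega
      omega
    rw [h3]
    have h2 := sub_add_of_lt L s K (K * j) a (L ^ K - 1) (n + (M : ℤ)).toNat
      (by rw [← hM]; exact h1)
    rw [h2, ha]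

theorem stage_add (hL : 2 ≤ L) {K : ℕ} {a b : A}
    (ha : sub L s K a (L ^ K - 1) = a) (hb : sub L s K b 0 = b) (j i : ℕ) (n : ℤ)
    (hn : n.natAbs < L ^ (K * j)) : stage L s K a b (j + i) n = stage L s K a b j n := by
  induction i with
  | zero => rfl
  | succ i ih =>
    rw [← ih, ← add_assoc]
    apply stage_succ hL ha hb
    refine lt_of_lt_of_le hn (Nat.pow_le_pow_right (by omega) ?_)
    exact Nat.mul_le_mul_left _ (by omega)

theorem lt_pow_mul (hL : 2 ≤ L) {K : ℕ} (hK : 1 ≤ K) (n : ℕ) : n < L ^ (K * n) := by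
  calc n < 2 ^ n := Nat.lt_two_pow_self
    _ ≤ L ^ n := Nat.pow_le_pow_left hL n
    _ ≤ L ^ (K * n) := Nat.pow_le_pow_right (by omega) (by nlinarith)

theorem zfix_eq (hL : 2 ≤ L) {K : ℕ} (hK : 1 ≤ K) {a b : A}
    (ha : sub L s K a (L ^ K - 1) = a) (hb : sub L s K b 0 = b) (j : ℕ) (n : ℤ)
    (hn : n.natAbs < L ^ (K * j)) : zfix L s K a b n = stage L s K a b j n := by
  unfold zfix
  rcases le_total n.natAbs j with h | h
  · obtain ⟨i, hi⟩ := Nat.exists_eq_add_of_le h
    rw [hi]
    exact (stage_add hL ha hb _ _ _ (lt_pow_mul hL hK _)).symm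
  · obtain ⟨i, hi⟩ := Nat.exists_eq_add_of_le h
    rw [hi]
    exact stage_add hL ha hb _ _ _ hn

theorem zfix_step (hL : 2 ≤ L) {K : ℕ} (hK : 1 ≤ K) {a b : A}
    (ha : sub L s K a (L ^ K - 1) = a) (hb : sub L s K b 0 = b) (n : ℤ) (r : ℕ)
    (hr : r < L ^ K) :
    zfix L s K a b ((L : ℤ) ^ K * n + r) = sub L s K (zfix L s K a b n) r := by
  set j := n.natAbs with hj
  have h1 : n.natAbs < L ^ (K * j) := lt_pow_mul hL hK _
  rw [zfix_eq hL hK ha hb j n h1]
  set P : ℕ := L ^ K with hP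
  have hPZ : (L : ℤ) ^ K = (P : ℤ) := by rw [hP]; push_cast; rfl
  rw [hPZ]
  have hP0 : 0 < P := by omega
  set M : ℕ := L ^ (K * j) with hM
  have hMZ : (L : ℤ) ^ (K * j) = (M : ℤ) := by rw [hM]; push_cast; rfl
  have e : K * (j + 1) = K * j + K := by ring
  have hpow : L ^ (K * (j + 1)) = M * P := by rw [e, pow_add]
  have hn1 : n < M := by omega
  have hn2 : -(M : ℤ) < n := by omega
  have h2 : ((P : ℤ) * n + r).natAbs < L ^ (K * (j + 1)) := by
    rw [hpow]
    have hPz : (0 : ℤ) < P := by exact_mod_cast hP0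
    have hrz : (r : ℤ) < P := by exact_mod_cast hr
    have h3 : (P : ℤ) * n + r < M * P := by nlinarith
    have h4 : -((M : ℤ) * P) < P * n + r := by nlinarith
    have h5 : |(P : ℤ) * n + r| < ((M * P : ℕ) : ℤ) := by
      rw [abs_lt]; push_cast; exact ⟨h4, h3⟩
    rw [Int.abs_eq_natAbs] at h5
    exact_mod_cast h5
  rw [zfix_eq hL hK ha hb (j + 1) _ h2]
  unfold stage
  have hPz : (0 : ℤ) < P := by exact_mod_cast hP0
  have hrz : (r : ℤ) < P := by exact_mod_cast hr
  by_cases h0 : 0 ≤ n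
  · have h3 : 0 ≤ (P : ℤ) * n + r := by positivity
    rw [if_pos h0, if_pos h3, e]
    have h4 : ((P : ℤ) * n + r).toNat = n.toNat * L ^ K + r := by
      obtain ⟨n', rfl⟩ := Int.eq_ofNat_of_zero_le h0
      rw [← hP]
      have : (P : ℤ) * (n' : ℤ) + r = ((n' * P + r : ℕ) : ℤ) := by push_cast; ring
      rw [this, Int.toNat_natCast, Int.toNat_natCast]
    rw [h4, sub_add_of_lt L s (K * j) K b _ r (by rw [← hP]; exact hr)]
  · rw [not_le] at h0
    have h3 : ¬ (0 ≤ (P : ℤ) * n + r) := by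
      rw [not_le]; nlinarith
    rw [if_neg h3, if_neg (by omega), e, pow_add, hMZ, hPZ]
    have h4 : ((P : ℤ) * n + r + M * P).toNat = (n + M).toNat * L ^ K + r := by
      obtain ⟨n', hn'⟩ := Int.eq_ofNat_of_zero_le (show 0 ≤ n + (M : ℤ) by omega)
      rw [hn', ← hP]
      have : (P : ℤ) * n + r + M * P = ((n' * P + r : ℕ) : ℤ) := by
        push_cast
        rw [← hn']
        ring
      rw [this, Int.toNat_natCast, Int.toNat_natCast]
    rw [h4, sub_add_of_lt L s (K * j) K a _ r (by rw [← hP]; exact hr)]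

theorem zfix_pow (hL : 2 ≤ L) {K : ℕ} (hK : 1 ≤ K) {a b : A}
    (ha : sub L s K a (L ^ K - 1) = a) (hb : sub L s K b 0 = b) (j : ℕ) (n : ℤ) (r : ℕ)
    (hr : r < L ^ (K * j)) :
    zfix L s K a b ((L : ℤ) ^ (K * j) * n + r) = sub L s (K * j) (zfix L s K a b n) r := by
  induction j generalizing r with
  | zero =>
    have : r = 0 := by simpa using hr
    subst this
    simp [sub]
  | succ j ih =>
    have e : K * (j + 1) = K * j + K := by ring
    have hP0 : 0 < L ^ K := pow_pos (by omega) K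
    have h1 : r / L ^ K < L ^ (K * j) := by
      rw [Nat.div_lt_iff_lt_mul hP0, ← pow_add, ← e]
      exact hr
    have h2 : (L : ℤ) ^ (K * (j + 1)) * n + r =
        (L : ℤ) ^ K * ((L : ℤ) ^ (K * j) * n + ((r / L ^ K : ℕ) : ℤ)) + ((r % L ^ K : ℕ) : ℤ) := by
      have h3 : ((L ^ K * (r / L ^ K) + r % L ^ K : ℕ) : ℤ) = (r : ℤ) := by
        rw [Nat.div_add_mod]
      rw [e, pow_add]
      rw [← h3]
      push_cast
      ring
    rw [h2, zfix_step hL hK ha hb _ _ (Nat.mod_lt _ hP0), ih _ h1, e, sub_add]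

/-- windows of the fixed point occur in iterated images -/
theorem zfix_window (hL : 2 ≤ L) {K : ℕ} (hK : 1 ≤ K) {a b : A} (hab : Adm L s (a, b))
    (ha : sub L s K a (L ^ K - 1) = a) (hb : sub L s K b 0 = b) (α : ℤ) (n : ℕ) :
    ∃ (k : ℕ) (c : A) (p : ℕ), 1 ≤ k ∧ p + n ≤ L ^ k ∧
      ∀ i : ℕ, i < n → zfix L s K a b (α + i) = sub L s k c (p + i) := by
  obtain ⟨k, c, p, hk, hp, h1, h2⟩ := hab
  set j := α.natAbs + n with hj
  have hjlt : j < L ^ (K * j) := lt_pow_mul hL hK _
  set M : ℕ := L ^ (K * j) with hM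
  have hMZ : (L : ℤ) ^ (K * j) = (M : ℤ) := by rw [hM]; push_cast; rfl
  obtain ⟨q, hq⟩ := Int.eq_ofNat_of_zero_le (show 0 ≤ (M : ℤ) + α by omega)
  refine ⟨k + K * j, c, p * M + q, by omega, ?_, ?_⟩
  · rw [pow_add, ← hM]
    have h3 : (p + 2) * M ≤ L ^ k * M := Nat.mul_le_mul_right _ hp
    have e : (p + 2) * M = p * M + 2 * M := by ring
    omega
  · intro i hi
    rw [zfix_eq hL hK ha hb j _ (by omega)]
    unfold stage
    by_cases h0 : 0 ≤ α + (i : ℤ)
    · rw [if_pos h0]
      have e : p * M + q + i = (p + 1) * L ^ (K * j) + (α + (i : ℤ)).toNat := by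
        rw [← hM]
        have : (p + 1) * M = p * M + M := by ring
        omega
      rw [e, sub_add_of_lt L s k (K * j) c _ _ (by omega), h2]
    · rw [if_neg h0, hMZ]
      have e : p * M + q + i = p * L ^ (K * j) + (α + (i : ℤ) + M).toNat := by
        rw [← hM]
        omega
      rw [e, sub_add_of_lt L s k (K * j) c _ _ (by omega), h1]

/-- spreading of words by primitivity -/
theorem spread (k₀ : ℕ)
    (hp : ∀ m : ℕ, k₀ ≤ m → ∀ a b : A, ∃ r < L ^ m, sub L s m a r = b) {n : ℕ} {f : ℕ → A}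
    (hf : ∃ (k : ℕ) (c : A) (p : ℕ), p + n ≤ L ^ k ∧ ∀ i : ℕ, i < n → f i = sub L s k c (p + i)) :
    ∃ M : ℕ, ∀ m : ℕ, M ≤ m → ∀ d : A, ∃ p : ℕ, p + n ≤ L ^ m ∧
      ∀ i : ℕ, i < n → f i = sub L s m d (p + i) := by
  obtain ⟨k, c, p, hpk, h⟩ := hf
  refine ⟨k₀ + k, ?_⟩
  intro m hm d
  obtain ⟨t, ht⟩ := Nat.exists_eq_add_of_le hm
  have e : m = (k₀ + t) + k := by omega
  obtain ⟨r, hr, hrc⟩ := hp (k₀ + t) (by omega) d c
  refine ⟨r * L ^ k + p, ?_, ?_⟩
  · rw [e, pow_add _ (k₀ + t) k]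
    have h3 : (r + 1) * L ^ k ≤ L ^ (k₀ + t) * L ^ k := Nat.mul_le_mul_right _ hr
    have e : (r + 1) * L ^ k = r * L ^ k + L ^ k := by ring
    omega
  · intro i hi
    rw [h i hi, e, add_assoc (r * L ^ k) p i, sub_add_of_lt L s (k₀ + t) k d _ _ (by omega), hrc]

/-- uniform spreading of the windows of the fixed point -/
theorem spread_unif [Finite A] (hL : 2 ≤ L) {K : ℕ} (hK : 1 ≤ K) {a b : A}
    (hab : Adm L s (a, b))
    (ha : sub L s K a (L ^ K - 1) = a) (hb : sub L s K b 0 = b) (k₀ : ℕ)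
    (hp : ∀ m : ℕ, k₀ ≤ m → ∀ a b : A, ∃ r < L ^ m, sub L s m a r = b) (n : ℕ) :
    ∃ M : ℕ, ∀ α : ℤ, ∀ m : ℕ, M ≤ m → ∀ d : A, ∃ p : ℕ, p + n ≤ L ^ m ∧
      ∀ i : ℕ, i < n → zfix L s K a b (α + i) = sub L s m d (p + i) := by
  classical
  have h1 : ∀ u : Fin n → A, ∃ M : ℕ, ∀ α : ℤ,
      (∀ i : Fin n, u i = zfix L s K a b (α + (i : ℕ))) → ∀ m : ℕ, M ≤ m → ∀ d : A, ∃ p : ℕ,
        p + n ≤ L ^ m ∧ ∀ i : ℕ, i < n → zfix L s K a b (α + i) = sub L s m d (p + i) := by
    intro u
    by_cases hu : ∃ α : ℤ, ∀ i : Fin n, u i = zfix L s K a b (α + (i : ℕ))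
    · obtain ⟨α, hα⟩ := hu
      obtain ⟨k, c, p, -, hpk, hw⟩ := zfix_window hL hK hab ha hb α n
      obtain ⟨M, hM⟩ := spread (f := fun i : ℕ => zfix L s K a b (α + i)) k₀ hp
        ⟨k, c, p, hpk, hw⟩
      refine ⟨M, ?_⟩
      intro α' hα' m hm d
      obtain ⟨p', hp', hw'⟩ := hM m hm d
      refine ⟨p', hp', ?_⟩
      intro i hi
      rw [← hw' i hi]
      have e1 := hα ⟨i, hi⟩
      have e2 := hα' ⟨i, hi⟩
      simp only at e1 e2
      rw [← e1, ← e2]
    · refine ⟨0, ?_⟩
      intro α hα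
      exact absurd ⟨α, hα⟩ hu
  choose M hM using h1
  haveI : Fintype (Fin n → A) := Fintype.ofFinite _
  refine ⟨Finset.univ.sup M, ?_⟩
  intro α m hm d
  exact hM (fun i : Fin n => zfix L s K a b (α + (i : ℕ))) α (fun _ => rfl) m
    (le_trans (Finset.le_sup (Finset.mem_univ _)) hm) d

theorem zfix_recur [Finite A] (hL : 2 ≤ L) {K : ℕ} (hK : 1 ≤ K) {a b : A}
    (hab : Adm L s (a, b))
    (ha : sub L s K a (L ^ K - 1) = a) (hb : sub L s K b 0 = b) (k₀ : ℕ)
    (hp : ∀ m : ℕ, k₀ ≤ m → ∀ a b : A, ∃ r < L ^ m, sub L s m a r = b) (n : ℕ) :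
    ∃ R : ℕ, ∀ p q : ℤ, ∃ t : ℕ, t ≤ R ∧ ∀ i : ℕ, i < n →
      zfix L s K a b (q + t + i) = zfix L s K a b (p + i) := by
  obtain ⟨M, hM⟩ := spread_unif hL hK hab ha hb k₀ hp n
  refine ⟨2 * L ^ (K * M), ?_⟩
  intro p q
  have hKM : M ≤ K * M := by nlinarith
  set P : ℕ := L ^ (K * M) with hP
  have hP0 : 0 < P := by rw [hP]; exact pow_pos (by omega) _
  have hPz : (0 : ℤ) < P := by exact_mod_cast hP0
  have hPZ : (L : ℤ) ^ (K * M) = (P : ℤ) := by rw [hP]; push_cast; rfl
  set q0 : ℤ := q / P with hq0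
  have hq1 : q0 * P ≤ q := by rw [hq0]; exact Int.ediv_mul_le q hPz.ne'
  have hq2 : q < (q0 + 1) * P := by
    rw [hq0]; exact Int.lt_ediv_add_one_mul_self q hPz
  obtain ⟨r, hr, hw⟩ := hM p (K * M) hKM (zfix L s K a b (q0 + 1))
  have e1 : (q0 + 1) * P = q0 * P + P := by ring
  obtain ⟨t, ht⟩ := Int.eq_ofNat_of_zero_le (show 0 ≤ (q0 + 1) * P + r - q by omega)
  refine ⟨t, by omega, ?_⟩
  intro i hi
  rw [hw i hi]
  have h3 := zfix_pow hL hK ha hb M (q0 + 1) (r + i) (by rw [← hP]; omega)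
  rw [← h3, hPZ]
  congr 1
  push_cast
  have e2 : (P : ℤ) * (q0 + 1) = (q0 + 1) * P := by ring
  rw [e2]
  linarith

/-- iterated images of the power -/
theorem sub_pow (L : ℕ) (s : A → ℕ → A) (K j : ℕ) (a : A) (r : ℕ) :
    sub (L ^ K) (fun a r => sub L s K a r) j a r = sub L s (K * j) a r := by
  induction j generalizing r with
  | zero => simp [sub]
  | succ j ih =>
    have e : K * (j + 1) = K * j + K := by ring
    rw [e, sub_add L s (K * j) K]
    simp only [sub]
    rw [ih]

end Fixed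

theorem getElem_word (z : ℤ → A) (a : ℤ) (n i : ℕ) (hi : i < n) :
    (word z a n)[i]? = some (z (a + i)) := by
  unfold word
  rw [List.getElem?_map, List.getElem?_range hi]
  rfl

theorem length_word' (z : ℤ → A) (a : ℤ) (n : ℕ) : (word z a n).length = n := by
  simp [word]

theorem two_le_of_primitive [Nontrivial A] (σ : A → List A) (L : ℕ)
    (hL : ∀ a, (σ a).length = L) (hp : Primitive σ) : 2 ≤ L := by
  obtain ⟨k, hk⟩ := hp
  obtain ⟨a, b, hab⟩ := exists_pair_ne A
  by_contra hlt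
  have h1 : L ^ k ≤ 1 := by
    have : L ≤ 1 := by omega
    exact pow_le_one₀ (Nat.zero_le _) this
  have hlen := length_iter σ L hL k a
  have ha := hk k (le_refl _) a a
  have hb := hk k (le_refl _) a b
  rcases h : (subst σ)^[k] [a] with _ | ⟨x, _ | ⟨y, w⟩⟩
  · rw [h] at ha; simp at ha
  · rw [h] at ha hb
    simp only [List.mem_singleton] at ha hb
    exact hab (ha.trans hb.symm)
  · rw [h] at hlen
    simp only [List.length_cons] at hlen
    omega

theorem primitive_fun (σ : A → List A) (L : ℕ)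
    (hL : ∀ a, (σ a).length = L) (hp : Primitive σ) :
    ∃ k₀ : ℕ, ∀ m : ℕ, k₀ ≤ m → ∀ a b : A, ∃ r < L ^ m, sub L (toFun σ) m a r = b := by
  obtain ⟨k, hk⟩ := hp
  refine ⟨k, ?_⟩
  intro m hm a b
  have h1 := hk m hm a b
  obtain ⟨r, hr, hrb⟩ := List.mem_iff_getElem.1 h1
  have hr' : r < L ^ m := by
    rw [length_iter σ L hL] at hr
    exact hr
  refine ⟨r, hr', ?_⟩
  have h2 := getElem_iter σ L hL m a r hr'
  rw [List.getElem?_eq_getElem hr] at h2
  rw [hrb] at h2
  exact (Option.some.inj h2).symm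

/-- **Two-sided fixed points.** -/
theorem exists_sys [Finite A] [Nontrivial A] (σ : A → List A) (L : ℕ)
    (hL : ∀ a, (σ a).length = L) (hp : Primitive σ) :
    ∃ (K : ℕ) (z : ℤ → A), 1 ≤ K ∧ Sys (L ^ K) (fun a r => sub L (toFun σ) K a r) z ∧
      ∀ n, Words σ n = Set.range (fun a : ℤ => word z a n) := by
  have hL2 := two_le_of_primitive σ L hL hp
  obtain ⟨k₀, hk₀⟩ := primitive_fun σ L hL hp
  obtain ⟨K, a, b, hK, hab, ha, hb⟩ := exists_periodic (s := toFun σ) hL2
  refine ⟨K, zfix L (toFun σ) K a b, hK, ?_, ?_⟩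
  · refine ⟨?_, ?_, ?_⟩
    · calc 2 ≤ L := hL2
        _ = L ^ 1 := (pow_one L).symm
        _ ≤ L ^ K := Nat.pow_le_pow_right (by omega) hK
    · intro n r hr
      have := zfix_step hL2 hK ha hb n r hr
      push_cast
      exact this
    · intro n
      exact zfix_recur hL2 hK hab ha hb k₀ hk₀ n
  · intro n
    ext w
    rw [mem_Words_iff σ L hL]
    constructor
    · rintro ⟨hw, k, c, p, hk, hpk, h⟩
      subst hw
      obtain ⟨M, hM⟩ := spread (L := L) (s := toFun σ) (n := w.length)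
        (f := fun i => sub L (toFun σ) k c (p + i)) k₀ hk₀ ⟨k, c, p, hpk, fun i _ => rfl⟩
      have hKM : M ≤ K * M := by nlinarith
      obtain ⟨q, hq, hw⟩ := hM (K * M) hKM (zfix L (toFun σ) K a b 0)
      refine ⟨(q : ℤ), ?_⟩
      apply List.ext_getElem?
      intro i
      by_cases hi : i < w.length
      · simp only
        rw [getElem_word _ _ _ _ hi, h i hi]
        have h3 := zfix_pow hL2 hK ha hb M 0 (q + i) (by omega)
        have h4 := hw i hi
        rw [← h3] at h4
        rw [h4]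
        congr 2
        push_cast
        ring
      · rw [not_lt] at hi
        simp only
        rw [List.getElem?_eq_none (by rw [length_word']; exact hi), List.getElem?_eq_none hi]
    · rintro ⟨α, rfl⟩
      refine ⟨length_word' _ _ _, ?_⟩
      obtain ⟨k, c, p, hk, hpk, h⟩ := zfix_window hL2 hK hab ha hb α n
      refine ⟨k, c, p, hk, hpk, ?_⟩
      intro i hi
      simp only
      rw [getElem_word _ _ _ _ hi, h i hi]

/-- powers of a substitution with two letters -/
theorem Hm_pow_two (L : ℕ) (hL : 1 ≤ L) (s : A → ℕ → A) {a b : A} (hab : a ≠ b)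
    (htwo : ∀ c : A, c = a ∨ c = b) (K : ℕ) :
    Hm (L ^ K) (fun a r => sub L s K a r) 1 a b = Hm L s 1 a b ^ K := by
  classical
  have h1 : Hm (L ^ K) (fun a r => sub L s K a r) 1 a b = Hm L s K a b := by
    unfold Hm
    rw [pow_one]
    congr 1
    apply Finset.filter_congr
    intro r _
    rw [sub_pow, sub_pow, mul_one]
  rw [h1]
  clear h1
  induction K with
  | zero =>
    unfold Hm
    rw [pow_zero, pow_zero]
    have : (range 1).filter (fun r => sub L s 0 a r ≠ sub L s 0 b r) = range 1 := by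
      apply Finset.filter_true_of_mem
      intro r _
      simpa [sub] using hab
    rw [this]
    simp
  | succ K ih =>
    rw [Hm_add hL, pow_succ, ← ih]
    have hsym : Hm L s 1 b a = Hm L s 1 a b := by
      unfold Hm
      congr 1
      apply Finset.filter_congr
      intro r _
      exact ne_comm
    have hself : ∀ c : A, Hm L s 1 c c = 0 := by
      intro c
      unfold Hm
      simp
    have h2 : ∀ r ∈ range (L ^ K), Hm L s 1 (sub L s K a r) (sub L s K b r) =
        if sub L s K a r ≠ sub L s K b r then Hm L s 1 a b else 0 := by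
      intro r _
      split_ifs with h
      · rcases htwo (sub L s K a r) with e1 | e1 <;> rcases htwo (sub L s K b r) with e2 | e2
        · exact absurd (e1.trans e2.symm) h
        · rw [e1, e2]
        · rw [e1, e2, hsym]
        · exact absurd (e1.trans e2.symm) h
      · rw [not_not] at h
        rw [h, hself]
    rw [Finset.sum_congr rfl h2, ← Finset.sum_filter, Finset.sum_const, smul_eq_mul]
    rfl

end H95.Edit
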