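import Pool.Agent.H95.Edit.M7_Core
import Pool.Agent.H95.Edit.M8_Limit
import Pool.Agent.H95.Edit.M9_Lang

/-! M10: the final theorem. -/

namespace H95.Edit

open Filter Topology

variable {A : Type}

theorem editDist_word (z : ℤ → A) (a b : ℤ) (n : ℕ) :
    editDist (word z a n) (word z b n) = (D (word z a n) (word z b n) : ℝ) / 2 := by
  have h := D_add_lcs (word z a n) (word z b n)
  rw [length_word, length_word] at h
  unfold editDist
  rw [length_word, length_word]
  have h' : (D (word z a n) (word z b n) : ℝ) + 2 * lcs (word z a n) (word z b n) = n + n := by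
    exact_mod_cast h
  linarith

theorem D_word_le (z : ℤ → A) (a b : ℤ) (n : ℕ) : D (word z a n) (word z b n) ≤ 2 * n := by
  have h := D_add_lcs (word z a n) (word z b n)
  rw [length_word, length_word] at h
  omega

theorem m10_getElem_word (z : ℤ → A) (n i : ℕ) (hi : i < n) (a : ℤ) : (word z a n)[i]? = some (z (a + i)) := by
  unfold word
  rw [List.getElem?_map, List.getElem?_range hi]
  rfl

section

variable {σ : A → List A} {z : ℤ → A}
  (hW : ∀ n, Words σ n = Set.range (fun a : ℤ => word z a n))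

include hW

theorem diam_bdd (n : ℕ) :
    BddAbove {d | ∃ u ∈ Words σ n, ∃ v ∈ Words σ n, d = editDist u v} := by
  refine ⟨n, ?_⟩
  rintro d ⟨u, hu, v, hv, rfl⟩
  rw [hW] at hu hv
  obtain ⟨a, rfl⟩ := hu
  obtain ⟨b, rfl⟩ := hv
  simp only [editDist_word]
  have : (D (word z a n) (word z b n) : ℝ) ≤ 2 * n := by exact_mod_cast D_word_le z a b n
  linarith

theorem le_diam (n : ℕ) (a b : ℤ) :
    (D (word z a n) (word z b n) : ℝ) ≤ 2 * diam σ n := by
  have h : editDist (word z a n) (word z b n) ≤ diam σ n :=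
    le_csSup (diam_bdd hW n) ⟨word z a n, by rw [hW]; exact ⟨a, rfl⟩, word z b n,
      by rw [hW]; exact ⟨b, rfl⟩, rfl⟩
  rw [editDist_word] at h
  linarith

theorem diam_le (n : ℕ) (B : ℝ)
    (hB : ∀ a b : ℤ, (D (word z a n) (word z b n) : ℝ) ≤ B) : 2 * diam σ n ≤ B := by
  have h : diam σ n ≤ B / 2 := by
    refine csSup_le ⟨_, word z 0 n, by rw [hW]; exact ⟨0, rfl⟩, word z 0 n,
      by rw [hW]; exact ⟨0, rfl⟩, rfl⟩ ?_
    rintro d ⟨u, hu, v, hv, rfl⟩
    rw [hW] at hu hv
    obtain ⟨a, rfl⟩ := hu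
    obtain ⟨b, rfl⟩ := hv
    simp only [editDist_word]
    have := hB a b
    linarith
  linarith

/-- from the bounds to the limit -/
theorem tendsto_of_bounds {L : ℕ} (hL : 2 ≤ L) {μ : ℝ} (h0 : 0 ≤ μ) (h1 : μ ≤ 1)
    (hlow : LowerB L z μ) (hup : UpperB L z μ) :
    Tendsto (fun n : ℕ => Real.log (diam σ n) / Real.log n) atTop (𝓝 (1 / (2 - μ))) := by
  have h := limit_of_bounds L hL μ h0 h1 (fun n => 2 * diam σ n) ?_ ?_
  · refine h.congr fun n => ?_
    simp
  · intro ε hε
    obtain ⟨c, l, hc, hl, h2⟩ := hlow ε hε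
    refine ⟨c, l, hc, hl, fun m N hm => ?_⟩
    obtain ⟨a, b, h3⟩ := h2 m N hm
    exact h3.trans (le_diam hW N a b)
  · intro ε hε
    obtain ⟨C, hC, h2⟩ := hup ε hε
    exact ⟨C, hC, fun m N => diam_le hW N _ (fun a b => h2 m N a b)⟩

theorem periodic_iff (p : ℕ) : Periodic σ p ↔ ∀ n : ℤ, z n = z (n + p) := by
  constructor
  · intro h n
    have h1 := h (p + 1) (word z n (p + 1)) (by rw [hW]; exact ⟨n, rfl⟩) 0 (by omega)
    rw [m10_getElem_word z _ _ (by omega), m10_getElem_word z _ _ (by omega)] at h1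
    simp only [Option.some.injEq] at h1
    have e : n + ((0 + p : ℕ) : ℤ) = n + p := by push_cast; ring
    rw [e] at h1
    rw [h1]
    simp
  · intro h n w hw i hi
    rw [hW] at hw
    obtain ⟨a, rfl⟩ := hw
    simp only
    rw [m10_getElem_word z _ _ hi, m10_getElem_word z _ _ (by omega)]
    have e : a + ((i + p : ℕ) : ℤ) = (a + i) + p := by push_cast; ring
    rw [e, ← h]

end

theorem periodic_case [Finite A] {σ : A → List A} {z : ℤ → A} {L : ℕ} {s : A → ℕ → A}
    (hW : ∀ n, Words σ n = Set.range (fun a : ℤ => word z a n)) (h : Sys L s z)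
    (hne : ∃ a b : ℤ, z a ≠ z b) (hP : Per z (fun a b => a = b)) :
    Tendsto (fun n : ℕ => Real.log (diam σ n) / Real.log n) atTop (𝓝 0) := by
  have hQ : Compat L s (fun a b : A => a = b) :=
    ⟨⟨fun _ => rfl, fun h => h.symm, fun h h' => h.trans h'⟩, fun a b hab r _ => by rw [hab]⟩
  obtain ⟨C, hC⟩ := upper h hQ hP
  have hup : ∀ n : ℕ, diam σ n ≤ C := by
    intro n
    have h1 := diam_le hW n (2 * C) (fun a b => by
      have h2 := hC 0 n 0 (fun a b hab => by
        subst hab
        simp [Hm]) a b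
      rw [pow_zero, mul_one, mul_zero, add_zero] at h2
      have : (0 : ℝ) ≤ C := Nat.cast_nonneg _
      linarith)
    linarith
  obtain ⟨a, b, hab⟩ := hne
  have hlow : ∀ n : ℕ, 1 ≤ n → 1 / 2 ≤ diam σ n := by
    intro n hn
    have h1 := le_diam hW n a b
    have h2 : 1 ≤ D (word z a n) (word z b n) := by
      by_contra hcon
      have h3 : D (word z a n) (word z b n) = 0 := by omega
      have h4 := D_eq_zero h3
      have h5 : (word z a n)[0]? = (word z b n)[0]? := by rw [h4]
      rw [m10_getElem_word z _ _ (by omega), m10_getElem_word z _ _ (by omega)] at h5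
      simp only [Nat.cast_zero, add_zero, Option.some.injEq] at h5
      exact hab h5
    have h3 : (1 : ℝ) ≤ D (word z a n) (word z b n) := by exact_mod_cast h2
    linarith
  have hlogn : Tendsto (fun n : ℕ => Real.log n) atTop atTop :=
    Real.tendsto_log_atTop.comp tendsto_natCast_atTop_atTop
  have hlow' : Tendsto (fun n : ℕ => Real.log (1 / 2) / Real.log n) atTop (𝓝 0) :=
    Tendsto.div_atTop tendsto_const_nhds hlogn
  have hup' : Tendsto (fun n : ℕ => Real.log C / Real.log n) atTop (𝓝 0) :=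
    Tendsto.div_atTop tendsto_const_nhds hlogn
  refine tendsto_of_tendsto_of_tendsto_of_le_of_le' hlow' hup' ?_ ?_
  · filter_upwards [eventually_ge_atTop 1] with n hn
    have h1 := hlow n hn
    have : 0 ≤ Real.log n := Real.log_natCast_nonneg n
    gcongr
  · filter_upwards [eventually_ge_atTop 1] with n hn
    have h1 := hlow n hn
    have h2 := hup n
    have : 0 ≤ Real.log n := Real.log_natCast_nonneg n
    gcongr

open Classical in
theorem Hm_one_eq (σ : A → List A) (L : ℕ) (hL : ∀ a, (σ a).length = L) (a b : A) :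
    Hm L (toFun σ) 1 a b =
      ((Finset.range L).filter (fun i => (σ a)[i]? ≠ (σ b)[i]?)).card := by
  unfold Hm
  rw [pow_one]
  congr 1
  apply Finset.filter_congr
  intro i hi
  rw [Finset.mem_range] at hi
  have h1 : ∀ c : A, sub L (toFun σ) 1 c i = toFun σ c i := by
    intro c
    simp [sub, Nat.mod_eq_of_lt hi]
  have h2 : ∀ c : A, (σ c)[i]? = some (toFun σ c i) := by
    intro c
    have h3 : i < (σ c).length := by rw [hL]; exact hi
    unfold toFun
    rw [List.getD_eq_getElem?_getD, List.getElem?_eq_getElem h3]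
    rfl
  rw [h1, h1, h2, h2]
  simp

open Classical in
theorem main [Fintype A] (hA : 2 ≤ Fintype.card A) (σ : A → List A) (hp : Primitive σ) (L : ℕ)
    (hL : ∀ a, (σ a).length = L) :
    ∃ t : ℝ, Tendsto (fun n : ℕ => Real.log (diam σ n) / Real.log n) atTop (𝓝 t) ∧
      ((∃ p, 1 ≤ p ∧ Periodic σ p) → t = 0) ∧
      ((¬ ∃ p, 1 ≤ p ∧ Periodic σ p) → 1 / 2 ≤ t ∧ t ≤ 1 ∧
        ∀ a b : A, a ≠ b → (∀ c, c = a ∨ c = b) → ∀ H : ℕ,
          H = ((Finset.range L).filter (fun i => (σ a)[i]? ≠ (σ b)[i]?)).card →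
            t = Real.log L / Real.log ((L : ℝ) ^ 2 / H)) := by
  have hnt : Nontrivial A := Fintype.one_lt_card_iff_nontrivial.1 (by omega)
  obtain ⟨K, z, hK, hsys, hW⟩ := exists_sys σ L hL hp
  have hL2 := hsys.two_le
  have hL1 : 2 ≤ L := by
    by_contra hcon
    have : L = 0 ∨ L = 1 := by omega
    rcases this with rfl | rfl
    · rw [zero_pow (by omega)] at hL2
      omega
    · rw [one_pow] at hL2
      omega
  have hPer : (∃ p, 1 ≤ p ∧ Periodic σ p) ↔ Per z (fun a b => a = b) := by
    constructor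
    · rintro ⟨p, hp1, hp2⟩
      exact ⟨p, hp1, (periodic_iff hW p).1 hp2⟩
    · rintro ⟨p, hp1, hp2⟩
      exact ⟨p, hp1, (periodic_iff hW p).2 hp2⟩
  by_cases hc : Per z (fun a b => a = b)
  · refine ⟨0, periodic_case hW hsys ?_ hc, fun _ => rfl, fun h => absurd (hPer.2 hc) h⟩
    -- two different letters occur
    by_contra hcon
    push Not at hcon
    obtain ⟨x, y, hxy⟩ := hnt
    have hocc : ∀ x : A, ∃ a : ℤ, z a = x := by
      intro x
      obtain ⟨k, hk⟩ := hp
      have h1 := hk (k + 1) (by omega) x x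
      have h2 : [x] ∈ Words σ 1 :=
        ⟨rfl, k + 1, x, by omega, List.singleton_infix_iff _ _ |>.2 h1⟩
      rw [hW] at h2
      obtain ⟨a, ha⟩ := h2
      refine ⟨a, ?_⟩
      simp only [word, List.range_one, List.map_cons, List.map_nil, List.cons.injEq, and_true,
        Nat.cast_zero, add_zero] at ha
      exact ha
    obtain ⟨a, ha⟩ := hocc x
    obtain ⟨b, hb⟩ := hocc y
    exact hxy (ha ▸ hb ▸ hcon a b)
  · obtain ⟨μ, h0, h1, hlow, hup⟩ := core hsys hc
    have hlim := tendsto_of_bounds hW hL2 h0 h1 hlow hup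
    refine ⟨1 / (2 - μ), hlim, fun h => absurd (hPer.1 h) hc, fun _ => ⟨?_, ?_, ?_⟩⟩
    · apply one_div_le_one_div_of_le <;> linarith
    · rw [div_le_one (by linarith)]
      linarith
    · intro a b hab htwo H hH
      obtain ⟨h2, h3, h4⟩ := core_two hsys hc hab htwo
      rw [Hm_pow_two L (by omega) (toFun σ) hab htwo K, Hm_one_eq σ L hL a b, ← hH] at h2 h3 h4
      have hH1 : 1 ≤ H := by
        by_contra hcon
        have : H = 0 := by omega
        rw [this, zero_pow (by omega)] at h2
        omega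
      have hHL : H ≤ L := by
        rw [hH]
        calc _ ≤ (Finset.range L).card := Finset.card_filter_le _ _
          _ = L := Finset.card_range L
      have hlogL : 0 < Real.log L := Real.log_pos (by exact_mod_cast hL1)
      have hlogH : 0 ≤ Real.log H := Real.log_natCast_nonneg H
      have hlogHL : Real.log H ≤ Real.log L :=
        Real.log_le_log (by exact_mod_cast hH1) (by exact_mod_cast hHL)
      have hμ : Real.log ((H ^ K : ℕ) : ℝ) / Real.log ((L ^ K : ℕ) : ℝ) =
          Real.log H / Real.log L := by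
        push_cast
        rw [Real.log_pow, Real.log_pow]
        have hK0 : (K : ℝ) ≠ 0 := by
          have : (1 : ℝ) ≤ K := by exact_mod_cast hK
          linarith
        field_simp
      rw [hμ] at h3 h4
      have hlim2 := tendsto_of_bounds hW hL2 (div_nonneg hlogH hlogL.le)
        ((div_le_one hlogL).2 hlogHL) h3 h4
      have h5 := tendsto_nhds_unique hlim hlim2
      rw [h5]
      have h6 : Real.log ((L : ℝ) ^ 2 / H) = 2 * Real.log L - Real.log H := by
        rw [Real.log_div (by positivity) (by positivity), Real.log_pow]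
        norm_num
      rw [h6]
      have h7 : 2 * Real.log L - Real.log H ≠ 0 := by linarith
      field_simp

end H95.Edit
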