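import Pool.Agent.H95.Edit.M1_Lcs
import Pool.Agent.H95.Edit.M2_Sub

/-! M5: the recursion for the cost of bad windows. -/

namespace H95.Edit

open Finset

variable {A : Type} {L : ℕ} {s : A → ℕ → A} {z : ℤ → A} {Q : A → A → Prop}

theorem exists_val (k : ℕ) (J : ℤ) (hJ : ¬ (L : ℤ) ^ k ∣ J) :
    ∃ (v : ℕ) (J₁ : ℤ), v < k ∧ J = J₁ * (L : ℤ) ^ v ∧ ¬ (L : ℤ) ∣ J₁ := by
  classical
  have hex : ∃ u : ℕ, ¬ (L : ℤ) ^ u ∣ J := ⟨k, hJ⟩
  have h1 := Nat.find_spec hex
  have h2 : Nat.find hex ≤ k := Nat.find_min' hex hJ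
  have h3 : Nat.find hex ≠ 0 := by
    intro h
    rw [h, pow_zero] at h1
    exact h1 (one_dvd _)
  obtain ⟨v, hv⟩ := Nat.exists_eq_succ_of_ne_zero h3
  have h4 : (L : ℤ) ^ v ∣ J := by
    by_contra hc
    exact Nat.find_min hex (by omega) hc
  obtain ⟨J₁, rfl⟩ := h4
  refine ⟨v, J₁, by omega, by ring, ?_⟩
  rintro ⟨t, rfl⟩
  apply h1
  rw [hv, Nat.succ_eq_add_one, pow_succ]
  exact ⟨t, by ring⟩

open Classical in
/-- few pairs outside `Q` in a window of level `k` force registration at level `k` -/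
theorem registered (h : Sys L s z) (_hQ : Compat L s Q) {l : ℕ} (hl : Rgn L z Q l)
    {c ν : ℝ} (hc : 0 < c) (hν : 0 < ν) (hνL : ν ≤ L)
    (hN : ∀ a b, ¬ Q a b → ∀ k : ℕ, c * ν ^ k ≤ NQ L s Q k a b) (k : ℕ) (p J : ℤ)
    (hJ : (((range (l * L ^ k)).filter (fun i =>
      ¬ Q (z (p * (L : ℤ) ^ k + (i : ℕ))) (z (p * (L : ℤ) ^ k + (i : ℕ) + J)))).card : ℝ) <
        c * ν ^ k) :
    ∃ J' : ℤ, J = J' * (L : ℤ) ^ k ∧ ∀ i : ℕ, i < l → Q (z (p + i)) (z (p + i + J')) := by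
  have hL := h.two_le
  -- counting at level `v`
  have count : ∀ (v w : ℕ) (J₁ : ℤ), k = v + w → J = J₁ * (L : ℤ) ^ v →
      (((range (l * L ^ k)).filter (fun i =>
        ¬ Q (z (p * (L : ℤ) ^ k + (i : ℕ))) (z (p * (L : ℤ) ^ k + (i : ℕ) + J)))).card) =
      ∑ i ∈ range (l * L ^ w), NQ L s Q v (z (p * (L : ℤ) ^ w + i))
        (z (p * (L : ℤ) ^ w + J₁ + i)) := by
    intro v w J₁ hk hJ1
    rw [← h.notQ_eq Q v (l * L ^ w) (p * (L : ℤ) ^ w) (p * (L : ℤ) ^ w + J₁)]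
    have e1 : l * L ^ w * L ^ v = l * L ^ k := by rw [hk, pow_add]; ring
    have e2 : p * (L : ℤ) ^ w * (L : ℤ) ^ v = p * (L : ℤ) ^ k := by rw [hk, pow_add]; ring
    have e3 : (p * (L : ℤ) ^ w + J₁) * (L : ℤ) ^ v = p * (L : ℤ) ^ k + J := by
      rw [hJ1, hk, pow_add]; ring
    rw [e1]
    congr 1
    apply Finset.filter_congr
    intro i _
    rw [e2, e3, add_right_comm]
  by_cases hd : (L : ℤ) ^ k ∣ J
  · obtain ⟨J', hJ'⟩ := hd
    rw [mul_comm] at hJ'
    refine ⟨J', hJ', ?_⟩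
    by_contra hcon
    push Not at hcon
    obtain ⟨i, hi, hni⟩ := hcon
    have h1 := count k 0 J' (by simp) hJ'
    rw [h1] at hJ
    have h2 : NQ L s Q k (z (p * (L : ℤ) ^ 0 + i)) (z (p * (L : ℤ) ^ 0 + J' + i)) ≤
        ∑ i ∈ range (l * L ^ 0), NQ L s Q k (z (p * (L : ℤ) ^ 0 + i))
        (z (p * (L : ℤ) ^ 0 + J' + i)) :=
      Finset.single_le_sum (f := fun i : ℕ => NQ L s Q k (z (p * (L : ℤ) ^ 0 + i))
        (z (p * (L : ℤ) ^ 0 + J' + i))) (fun _ _ => Nat.zero_le _) (by simpa using hi)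
    have h3 : ¬ Q (z (p * (L : ℤ) ^ 0 + i)) (z (p * (L : ℤ) ^ 0 + J' + i)) := by
      rw [pow_zero, mul_one, add_right_comm]
      exact hni
    have h4 := hN _ _ h3 k
    have h5 := h4.trans (Nat.cast_le.2 h2)
    linarith
  · exfalso
    obtain ⟨v, J₁, hv, hJ1, hLJ⟩ := exists_val k J hd
    obtain ⟨w, rfl⟩ := Nat.exists_eq_add_of_le hv.le
    have h1 := count v w J₁ rfl hJ1
    rw [h1] at hJ
    -- one bad pair in each window
    have hex : ∀ t : ℕ, ∃ i : ℕ, i < l ∧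
        ¬ Q (z (p * (L : ℤ) ^ w + ((t * l + i : ℕ) : ℤ)))
          (z (p * (L : ℤ) ^ w + J₁ + ((t * l + i : ℕ) : ℤ))) := by
      intro t
      obtain ⟨i, hi, hni⟩ := hl J₁ hLJ (p * (L : ℤ) ^ w + t * l)
      refine ⟨i, hi, ?_⟩
      have e1 : p * (L : ℤ) ^ w + ((t * l + i : ℕ) : ℤ) = p * (L : ℤ) ^ w + t * l + i := by
        push_cast; ring
      have e2 : p * (L : ℤ) ^ w + J₁ + ((t * l + i : ℕ) : ℤ) =
          p * (L : ℤ) ^ w + t * l + i + J₁ := by
        push_cast; ring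
      rw [e1, e2]
      exact hni
    choose f hf1 hf2 using hex
    have hl0 : 0 < l := (Nat.zero_le _).trans_lt (hf1 0)
    let T : Finset ℕ := (range (l * L ^ w)).filter (fun i =>
      ¬ Q (z (p * (L : ℤ) ^ w + (i : ℕ))) (z (p * (L : ℤ) ^ w + J₁ + (i : ℕ))))
    have hT : L ^ w ≤ T.card := by
      have h2 : (range (L ^ w)).card ≤ T.card := by
        refine Finset.card_le_card_of_injOn (fun t => t * l + f t) ?_ ?_
        · intro t ht
          rw [Finset.mem_coe, Finset.mem_range] at ht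
          rw [Finset.mem_coe, Finset.mem_filter, Finset.mem_range]
          refine ⟨?_, hf2 t⟩
          calc t * l + f t < t * l + l := by have := hf1 t; omega
            _ = (t + 1) * l := by ring
            _ ≤ L ^ w * l := Nat.mul_le_mul_right _ ht
            _ = l * L ^ w := mul_comm _ _
        · intro t _ t' _ htt
          have h3 : (t * l + f t) / l = (t' * l + f t') / l := congrArg (· / l) htt
          rw [mul_comm t l, mul_comm t' l, Nat.mul_add_div hl0, Nat.mul_add_div hl0,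
            Nat.div_eq_of_lt (hf1 t), Nat.div_eq_of_lt (hf1 t')] at h3
          simpa using h3
      rwa [Finset.card_range] at h2
    have h3 : (T.card : ℝ) * (c * ν ^ v) ≤
        ((∑ i ∈ range (l * L ^ w), NQ L s Q v (z (p * (L : ℤ) ^ w + i))
          (z (p * (L : ℤ) ^ w + J₁ + i)) : ℕ) : ℝ) := by
      rw [← nsmul_eq_mul]
      calc T.card • (c * ν ^ v) ≤ ∑ i ∈ T, (NQ L s Q v (z (p * (L : ℤ) ^ w + (i : ℕ)))
            (z (p * (L : ℤ) ^ w + J₁ + (i : ℕ))) : ℝ) :=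
            Finset.card_nsmul_le_sum T _ _ (fun i hi => hN _ _ (Finset.mem_filter.1 hi).2 v)
        _ ≤ ∑ i ∈ range (l * L ^ w), (NQ L s Q v (z (p * (L : ℤ) ^ w + (i : ℕ)))
            (z (p * (L : ℤ) ^ w + J₁ + (i : ℕ))) : ℝ) :=
            Finset.sum_le_sum_of_subset_of_nonneg (Finset.filter_subset _ _)
              (fun _ _ _ => Nat.cast_nonneg _)
        _ = _ := by push_cast; rfl
    have h4 : c * ν ^ (v + w) ≤ (T.card : ℝ) * (c * ν ^ v) := by
      have h5 : ν ^ w ≤ (T.card : ℝ) := by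
        calc ν ^ w ≤ (L : ℝ) ^ w := pow_le_pow_left₀ hν.le hνL w
          _ ≤ T.card := by exact_mod_cast hT
      calc c * ν ^ (v + w) = ν ^ w * (c * ν ^ v) := by rw [pow_add]; ring
        _ ≤ _ := mul_le_mul_of_nonneg_right h5 (by positivity)
    linarith

theorem kap_zero (hQ : Compat L s Q) (l : ℕ) : Kap L z Q l 0 1 := by
  intro p β n hD
  have h0 : D (word z (p * (L : ℤ) ^ 0) (l * L ^ 0)) (word z β n) = 0 := by
    have : D (word z (p * (L : ℤ) ^ 0) (l * L ^ 0)) (word z β n) < 1 := by exact_mod_cast hD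
    omega
  have h1 := D_eq_zero h0
  rw [pow_zero, pow_zero, mul_one, mul_one] at h1
  have h2 : l = n := by
    have := congrArg List.length h1
    rwa [length_word, length_word] at this
  subst h2
  refine ⟨β - p, by simp, ?_⟩
  intro i hi
  have h3 : (word z p l)[i]? = (word z β l)[i]? := by rw [h1]
  unfold word at h3
  rw [List.getElem?_map, List.getElem?_map, List.getElem?_range hi] at h3
  simp only [Option.map_some, Option.some.injEq] at h3
  have e : p + (i : ℤ) + (β - p) = β + i := by ring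
  rw [e, ← h3]
  exact hQ.equiv.refl _

theorem Kap.mono {l m : ℕ} {K K' : ℝ} (h : Kap L z Q l m K) (hK : K' ≤ K) : Kap L z Q l m K' :=
  fun p β n hD => h p β n (hD.trans_le hK)

/-- **Recursion.** -/
theorem kap_step (h : Sys L s z) (hQ : Compat L s Q) {l : ℕ} (hl1 : 1 ≤ l) (hl : Rgn L z Q l)
    {c ν : ℝ} (hc : 0 < c) (hc1 : c ≤ 1) (hν : 0 < ν) (hνL : ν ≤ L)
    (hN : ∀ a b, ¬ Q a b → ∀ k : ℕ, c * ν ^ k ≤ NQ L s Q k a b) {m : ℕ} {K : ℝ}
    (hK : Kap L z Q l m K) (k : ℕ) :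
    Kap L z Q l (m + k) (min ((L : ℝ) ^ m / 8) (c / l * ν ^ k * K)) := by
  classical
  have hL := h.two_le
  have hl0 : (0 : ℝ) < l := by exact_mod_cast hl1
  intro p β n hD
  rw [lt_min_iff] at hD
  obtain ⟨hD1, hD2⟩ := hD
  have hcν : 0 < c / l * ν ^ k := by positivity
  have hKpos : 0 < K := by
    by_contra hcon
    push Not at hcon
    have h1 : c / l * ν ^ k * K ≤ 0 := mul_nonpos_of_nonneg_of_nonpos hcν.le hcon
    have h2 : (0 : ℝ) ≤ D (word z (p * (L : ℤ) ^ (m + k)) (l * L ^ (m + k))) (word z β n) :=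
      Nat.cast_nonneg _
    linarith
  have hcl : c / l ≤ 1 := by
    rw [div_le_one hl0]
    have : (1 : ℝ) ≤ l := by exact_mod_cast hl1
    linarith
  rcases Nat.eq_zero_or_pos k with rfl | hk
  · refine hK.mono (K' := c / l * ν ^ 0 * K) ?_ p β n hD2
    rw [pow_zero, mul_one]
    exact mul_le_of_le_one_left hKpos.le hcl
  have eα : l * L ^ (m + k) = L ^ k * (l * L ^ m) + 0 := by rw [pow_add]; ring
  rw [eα] at hD1 hD2
  obtain ⟨γ, ν', n', hγ0, hγ, hsum, hoff⟩ :=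
    D_split_many z (p * (L : ℤ) ^ (m + k)) β (L ^ k) (l * L ^ m) 0 n
  set C : ℕ := D (word z (p * (L : ℤ) ^ (m + k)) (L ^ k * (l * L ^ m) + 0)) (word z β n) with hC
  have h8C : 8 * (C : ℤ) < (L : ℤ) ^ m := by
    have h1 : 8 * (C : ℝ) < (L : ℝ) ^ m := by linarith
    exact_mod_cast h1
  have hLm : (0 : ℤ) < (L : ℤ) ^ m := by positivity
  -- the costs of the windows
  let d : ℕ → ℕ := fun q => D (word z (p * (L : ℤ) ^ (m + k) + (q : ℤ) * ((l * L ^ m : ℕ) : ℤ))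
    (l * L ^ m)) (word z (γ q) (ν' q))
  have hdsum : ∑ q ∈ range (L ^ k), d q ≤ C := by
    have := hsum
    change ∑ q ∈ range (L ^ k), d q + _ ≤ C at this
    omega
  -- good windows
  have hgood : ∀ q, q < L ^ k → (d q : ℝ) < K → ∃ J : ℤ,
      8 * |β - (p * (L : ℤ) ^ k + J) * (L : ℤ) ^ m| < 2 * (L : ℤ) ^ m ∧
      ∀ i : ℕ, i < l → Q (z (p * (L : ℤ) ^ k + (q * l + i : ℕ)))
        (z (p * (L : ℤ) ^ k + (q * l + i : ℕ) + J)) := by
    intro q hq hdq
    have e1 : p * (L : ℤ) ^ (m + k) + (q : ℤ) * ((l * L ^ m : ℕ) : ℤ) =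
        (p * (L : ℤ) ^ k + q * l) * (L : ℤ) ^ m := by
      push_cast
      rw [pow_add]
      ring
    have h1 : (D (word z ((p * (L : ℤ) ^ k + q * l) * (L : ℤ) ^ m) (l * L ^ m))
        (word z (γ q) (ν' q)) : ℝ) < K := by
      rw [← e1]
      exact hdq
    obtain ⟨J, hJ1, hJ2⟩ := hK _ _ _ h1
    refine ⟨J, ?_, ?_⟩
    · have h2 := hoff q hq.le
      have e2 : β - (p * (L : ℤ) ^ k + J) * (L : ℤ) ^ m =
          (γ q - (p * (L : ℤ) ^ k + q * l + J) * (L : ℤ) ^ m) -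
            (γ q - β - (q : ℤ) * ((l * L ^ m : ℕ) : ℤ)) := by
        push_cast
        ring
      have h3 : |β - (p * (L : ℤ) ^ k + J) * (L : ℤ) ^ m| ≤
          |γ q - (p * (L : ℤ) ^ k + q * l + J) * (L : ℤ) ^ m| + C := by
        rw [e2]
        exact (abs_sub _ _).trans (by gcongr)
      linarith
    · intro i hi
      have h4 := hJ2 i hi
      have e3 : p * (L : ℤ) ^ k + ((q * l + i : ℕ) : ℤ) = p * (L : ℤ) ^ k + q * l + i := by
        push_cast
        ring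
      rw [e3]
      exact h4
  -- bad windows
  let Bad : Finset ℕ := (range (L ^ k)).filter (fun q => ¬ (d q : ℝ) < K)
  have hBad : (Bad.card : ℝ) < c / l * ν ^ k := by
    have h1 : (Bad.card : ℝ) * K ≤ C := by
      rw [← nsmul_eq_mul]
      calc Bad.card • K ≤ ∑ q ∈ Bad, (d q : ℝ) :=
            Finset.card_nsmul_le_sum Bad _ _ (fun q hq => not_lt.1 (Finset.mem_filter.1 hq).2)
        _ ≤ ∑ q ∈ range (L ^ k), (d q : ℝ) :=
            Finset.sum_le_sum_of_subset_of_nonneg (Finset.filter_subset _ _)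
              (fun _ _ _ => Nat.cast_nonneg _)
        _ ≤ C := by exact_mod_cast hdsum
    have h2 : (Bad.card : ℝ) * K < c / l * ν ^ k * K := h1.trans_lt hD2
    exact lt_of_mul_lt_mul_right h2 hKpos.le
  have hLk : c / l * ν ^ k ≤ (L : ℝ) ^ k := by
    calc c / l * ν ^ k ≤ 1 * (L : ℝ) ^ k :=
          mul_le_mul hcl (pow_le_pow_left₀ hν.le hνL k) (by positivity) zero_le_one
      _ = _ := one_mul _
  obtain ⟨q₀, hq₀, hdq₀⟩ : ∃ q, q < L ^ k ∧ (d q : ℝ) < K := by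
    by_contra hcon
    push Not at hcon
    have h1 : Bad = range (L ^ k) := by
      apply Finset.filter_true_of_mem
      intro q hq
      exact not_lt.2 (hcon q (Finset.mem_range.1 hq))
    rw [h1, Finset.card_range] at hBad
    push_cast at hBad
    linarith
  obtain ⟨J, hJ1, -⟩ := hgood q₀ hq₀ hdq₀
  have hall : ∀ q, q < L ^ k → (d q : ℝ) < K → ∀ i : ℕ, i < l →
      Q (z (p * (L : ℤ) ^ k + (q * l + i : ℕ))) (z (p * (L : ℤ) ^ k + (q * l + i : ℕ) + J)) := by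
    intro q hq hdq
    obtain ⟨J', hJ'1, hJ'2⟩ := hgood q hq hdq
    have h1 : J' = J := by
      have e2 : (J' - J) * (L : ℤ) ^ m = (β - (p * (L : ℤ) ^ k + J) * (L : ℤ) ^ m) -
          (β - (p * (L : ℤ) ^ k + J') * (L : ℤ) ^ m) := by ring
      have h2 : |(J' - J) * (L : ℤ) ^ m| ≤ |β - (p * (L : ℤ) ^ k + J) * (L : ℤ) ^ m| +
          |β - (p * (L : ℤ) ^ k + J') * (L : ℤ) ^ m| := by
        rw [e2]
        exact abs_sub _ _
      rw [abs_mul, abs_of_pos hLm] at h2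
      have h3 : |J' - J| * (L : ℤ) ^ m < 1 * (L : ℤ) ^ m := by linarith
      have h4 : |J' - J| < 1 := lt_of_mul_lt_mul_right h3 hLm.le
      have h5 := Int.abs_lt_one_iff.1 h4
      omega
    rw [h1] at hJ'2
    exact hJ'2
  -- few pairs outside `Q`
  have hfew : (((range (l * L ^ k)).filter (fun i =>
      ¬ Q (z (p * (L : ℤ) ^ k + (i : ℕ))) (z (p * (L : ℤ) ^ k + (i : ℕ) + J)))).card : ℝ) <
        c * ν ^ k := by
    set F : Finset ℕ := (range (l * L ^ k)).filter (fun i =>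
      ¬ Q (z (p * (L : ℤ) ^ k + (i : ℕ))) (z (p * (L : ℤ) ^ k + (i : ℕ) + J))) with hF
    have h1 : F.card ≤ l * (F.image (fun i => i / l)).card := by
      refine Finset.card_le_mul_card_image F l ?_
      intro q _
      have h2 : (F.filter (fun i => i / l = q)) ⊆ Finset.Ico (q * l) (q * l + l) := by
        intro i hi
        rw [Finset.mem_filter] at hi
        rw [Finset.mem_Ico]
        have h3 := Nat.div_add_mod i l
        have h4 := Nat.mod_lt i (show 0 < l by omega)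
        rw [hi.2] at h3
        rw [mul_comm q l]
        omega
      calc (F.filter (fun i => i / l = q)).card ≤ (Finset.Ico (q * l) (q * l + l)).card :=
            Finset.card_le_card h2
        _ = l := by rw [Nat.card_Ico]; omega
    have h5 : F.image (fun i => i / l) ⊆ Bad := by
      intro q hq
      obtain ⟨i, hi, rfl⟩ := Finset.mem_image.1 hq
      rw [hF, Finset.mem_filter, Finset.mem_range] at hi
      have h6 : i / l < L ^ k := Nat.div_lt_of_lt_mul hi.1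
      rw [Finset.mem_filter, Finset.mem_range]
      refine ⟨h6, fun hd => hi.2 ?_⟩
      have h7 := hall (i / l) h6 hd (i % l) (Nat.mod_lt i (by omega))
      have h8 : i / l * l + i % l = i := by
        rw [mul_comm]
        exact Nat.div_add_mod i l
      rwa [h8] at h7
    have h9 : (F.card : ℝ) ≤ l * Bad.card := by
      have := h1.trans (Nat.mul_le_mul_left l (Finset.card_le_card h5))
      exact_mod_cast this
    calc (F.card : ℝ) ≤ l * Bad.card := h9
      _ < l * (c / l * ν ^ k) := mul_lt_mul_of_pos_left hBad hl0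
      _ = c * ν ^ k := by field_simp
  obtain ⟨J', hJ', hJ'2⟩ := registered h hQ hl hc hν hνL hN k p J hfew
  refine ⟨J', ?_, hJ'2⟩
  have e1 : (p + J') * (L : ℤ) ^ (m + k) = (p * (L : ℤ) ^ k + J) * (L : ℤ) ^ m := by
    rw [hJ', pow_add]
    ring
  rw [e1]
  have h1 : 2 * (L : ℤ) ^ m ≤ (L : ℤ) ^ (m + k) := by
    rw [pow_add, mul_comm]
    have h2 : (2 : ℤ) ≤ (L : ℤ) ^ k := by
      calc (2 : ℤ) ≤ L := by exact_mod_cast hL
        _ = (L : ℤ) ^ 1 := (pow_one _).symm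
        _ ≤ (L : ℤ) ^ k := pow_le_pow_right₀ (by omega) hk
    exact mul_le_mul_of_nonneg_left h2 hLm.le
  linarith

/-- growth of the cost of bad windows on the exponential scale -/
theorem kap_growth (h : Sys L s z) (hQ : Compat L s Q) {l : ℕ} (hl1 : 1 ≤ l) (hl : Rgn L z Q l)
    {c η : ℝ} (hc : 0 < c) (hc1 : c ≤ 1) (hη1 : η ≤ 1)
    (hN : ∀ a b, ¬ Q a b → ∀ k : ℕ, c * (L : ℝ) ^ (η * k) ≤ NQ L s Q k a b)
    (ε : ℝ) (hε : 0 < ε) :
    ∃ c₁ : ℝ, 0 < c₁ ∧ ∀ m : ℕ, Kap L z Q l m (c₁ * (L : ℝ) ^ ((η - ε) * m)) := by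
  have hL := h.two_le
  have hLr : (1 : ℝ) < L := by
    have : (2 : ℝ) ≤ L := by exact_mod_cast hL
    linarith
  have hL0 : (0 : ℝ) < L := by linarith
  have hl0 : (0 : ℝ) < l := by exact_mod_cast hl1
  have hcl0 : 0 < c / l := by positivity
  have hcl : c / l ≤ 1 := by
    rw [div_le_one hl0]
    have : (1 : ℝ) ≤ l := by exact_mod_cast hl1
    linarith
  -- the size of a step
  obtain ⟨k, hk1, hk⟩ : ∃ k : ℕ, 1 ≤ k ∧ 1 ≤ c / l * (L : ℝ) ^ (ε * k) := by
    have h1 : 1 < (L : ℝ) ^ ε := Real.one_lt_rpow hLr hε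
    obtain ⟨k, hk⟩ := pow_unbounded_of_one_lt (1 / (c / l)) h1
    refine ⟨k + 1, by omega, ?_⟩
    have h2 : (L : ℝ) ^ (ε * (k + 1 : ℕ)) = ((L : ℝ) ^ ε) ^ (k + 1) := by
      rw [Real.rpow_mul hL0.le, Real.rpow_natCast]
    rw [h2]
    have h3 : ((L : ℝ) ^ ε) ^ k ≤ ((L : ℝ) ^ ε) ^ (k + 1) := pow_le_pow_right₀ h1.le (by omega)
    have h4 : 1 / (c / l) ≤ ((L : ℝ) ^ ε) ^ (k + 1) := hk.le.trans h3
    rw [div_le_iff₀ hcl0] at h4
    linarith
  have hν : 0 < (L : ℝ) ^ η := Real.rpow_pos_of_pos hL0 _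
  have hνL : (L : ℝ) ^ η ≤ L := by
    calc (L : ℝ) ^ η ≤ (L : ℝ) ^ (1 : ℝ) := Real.rpow_le_rpow_of_exponent_le hLr.le hη1
      _ = L := Real.rpow_one _
  have hpow : ∀ j : ℕ, ((L : ℝ) ^ η) ^ j = (L : ℝ) ^ (η * j) := by
    intro j
    rw [Real.rpow_mul hL0.le, Real.rpow_natCast]
  have hN' : ∀ a b, ¬ Q a b → ∀ k : ℕ, c * ((L : ℝ) ^ η) ^ k ≤ NQ L s Q k a b := by
    intro a b hab k
    rw [hpow]
    exact hN a b hab k
  have hle : ∀ j : ℕ, (L : ℝ) ^ ((η - ε) * j) ≤ (L : ℝ) ^ j := by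
    intro j
    rw [← Real.rpow_natCast (L : ℝ) j]
    apply Real.rpow_le_rpow_of_exponent_le hLr.le
    have : (0 : ℝ) ≤ j := Nat.cast_nonneg j
    nlinarith
  refine ⟨((L : ℝ) ^ k)⁻¹ / 8 * (c / l), by positivity, ?_⟩
  set c₁ : ℝ := ((L : ℝ) ^ k)⁻¹ / 8 * (c / l) with hc₁
  have hc₁0 : 0 < c₁ := by positivity
  have hc₁a : c₁ ≤ ((L : ℝ) ^ k)⁻¹ / 8 := by
    rw [hc₁]
    exact mul_le_of_le_one_right (by positivity) hcl
  have hLk1 : (1 : ℝ) ≤ (L : ℝ) ^ k := one_le_pow₀ hLr.le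
  have hc₁b : c₁ ≤ c / l := by
    rw [hc₁]
    apply mul_le_of_le_one_left hcl0.le
    have : ((L : ℝ) ^ k)⁻¹ ≤ 1 := inv_le_one_of_one_le₀ hLk1
    linarith
  intro m
  induction m using Nat.strong_induction_on with
  | _ m ih =>
    by_cases hm : m < k
    · have h1 := kap_step h hQ hl1 hl hc hc1 hν hνL hN' (kap_zero hQ l) m
      rw [zero_add] at h1
      refine h1.mono (le_min ?_ ?_)
      · rw [pow_zero]
        calc c₁ * (L : ℝ) ^ ((η - ε) * m) ≤ ((L : ℝ) ^ k)⁻¹ / 8 * (L : ℝ) ^ k := by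
              apply mul_le_mul hc₁a _ (by positivity) (by positivity)
              exact (hle m).trans (pow_le_pow_right₀ hLr.le hm.le)
          _ = 1 / 8 := by field_simp
      · rw [mul_one, hpow]
        apply mul_le_mul hc₁b _ (by positivity) hcl0.le
        apply Real.rpow_le_rpow_of_exponent_le hLr.le
        have : (0 : ℝ) ≤ m := Nat.cast_nonneg m
        nlinarith
    · push Not at hm
      obtain ⟨j, rfl⟩ := Nat.exists_eq_add_of_le' hm
      have h1 := kap_step h hQ hl1 hl hc hc1 hν hνL hN' (ih j (by omega)) k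
      refine h1.mono (le_min ?_ ?_)
      · calc c₁ * (L : ℝ) ^ ((η - ε) * (j + k : ℕ)) ≤ ((L : ℝ) ^ k)⁻¹ / 8 * (L : ℝ) ^ (j + k) :=
              mul_le_mul hc₁a (hle _) (by positivity) (by positivity)
          _ = (L : ℝ) ^ j / 8 := by
            rw [pow_add]
            field_simp
      · rw [hpow]
        have e1 : (L : ℝ) ^ ((η - ε) * (j + k : ℕ)) =
            (L : ℝ) ^ ((η - ε) * j) * ((L : ℝ) ^ (η * k) * ((L : ℝ) ^ (ε * k))⁻¹) := by
          rw [← Real.rpow_neg hL0.le, ← Real.rpow_add hL0, ← Real.rpow_add hL0]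
          congr 1
          push_cast
          ring
        have e2 : ((L : ℝ) ^ (ε * k))⁻¹ ≤ c / l := by
          rw [inv_le_iff_one_le_mul₀ (by positivity)]
          exact hk
        rw [e1]
        calc c₁ * ((L : ℝ) ^ ((η - ε) * j) * ((L : ℝ) ^ (η * k) * ((L : ℝ) ^ (ε * k))⁻¹))
            ≤ c₁ * ((L : ℝ) ^ ((η - ε) * j) * ((L : ℝ) ^ (η * k) * (c / l))) := by
              gcongr
          _ = _ := by ring

end H95.Edit
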