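import Pool.Agent.H95.Edit.M4_Rec
import Pool.Agent.H95.Edit.M5_Kap

/-! M11: substitutions without coincidences: the distance of the images of two letters. -/

namespace H95.Edit

open Finset

variable {A : Type} {L : ℕ} {s : A → ℕ → A} {z : ℤ → A} {Q : A → A → Prop}

/-- no coincidences -/
def Bij (L : ℕ) (s : A → ℕ → A) : Prop := ∀ a b, a ≠ b → ∀ r : ℕ, r < L → s a r ≠ s b r

theorem Bij.sub (hL : 1 ≤ L) (h : Bij L s) (k : ℕ) (a b : A) (hab : a ≠ b) (r : ℕ)
    (hr : r < L ^ k) : sub L s k a r ≠ sub L s k b r := by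
  induction k generalizing r with
  | zero => exact hab
  | succ k ih =>
    have h1 : r / L < L ^ k := Nat.div_lt_of_lt_mul (by rw [mul_comm]; rwa [← pow_succ])
    exact h _ _ (ih _ h1) _ (Nat.mod_lt _ hL)

theorem eq_compat (L : ℕ) (s : A → ℕ → A) : Compat L s (fun a b : A => a = b) :=
  ⟨⟨fun _ => rfl, fun h => h.symm, fun h h' => h.trans h'⟩, fun a b hab r _ => by rw [hab]⟩

theorem Bij.NQ_eq (hL : 1 ≤ L) (h : Bij L s) (k : ℕ) (a b : A) (hab : a ≠ b) :
    NQ L s (fun a b => a = b) k a b = L ^ k := by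
  classical
  unfold NQ
  refine (congrArg Finset.card (Finset.filter_true_of_mem ?_)).trans (Finset.card_range _)
  intro r hr
  exact h.sub hL k a b hab r (Finset.mem_range.1 hr)

/-- the cost of bad windows is `L ^ (m - C √m)` -/
theorem kap_sqrt (h : Sys L s z) (hb : Bij L s) {l : ℕ} (hl1 : 1 ≤ l)
    (hl : Rgn L z (fun a b => a = b) l) :
    ∃ C : ℝ, 5 ≤ C ∧ 2 * (Real.log l / Real.log L) ≤ C ∧ ∀ m : ℕ,
      Kap L z (fun a b => a = b) l m ((L : ℝ) ^ ((m : ℝ) - C * (√m + 1))) := by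
  have hL := h.two_le
  have hLr : (2 : ℝ) ≤ L := by exact_mod_cast hL
  have hL0 : (0 : ℝ) < L := by linarith
  have hl0 : (0 : ℝ) < l := by exact_mod_cast hl1
  have hlogL : 0 < Real.log L := Real.log_pos (by linarith)
  set lam : ℝ := Real.log l / Real.log L with hlam
  have hlam0 : 0 ≤ lam := div_nonneg (Real.log_natCast_nonneg l) hlogL.le
  have hl' : (L : ℝ) ^ lam = l := by
    rw [Real.rpow_def_of_pos hL0, hlam]
    rw [mul_div_cancel₀ _ hlogL.ne', Real.exp_log hl0]
  have hN : ∀ a b : A, ¬ a = b → ∀ k : ℕ, 1 * (L : ℝ) ^ k ≤ NQ L s (fun a b => a = b) k a b := by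
    intro a b hab k
    rw [hb.NQ_eq (by omega) k a b hab, one_mul]
    push_cast
    exact le_rfl
  have h8 : (L : ℝ) ^ (-3 : ℝ) ≤ 1 / 8 := by
    rw [Real.rpow_neg hL0.le, one_div]
    apply inv_anti₀ (by norm_num)
    have : (2 : ℝ) ^ (3 : ℕ) ≤ (L : ℝ) ^ (3 : ℕ) := pow_le_pow_left₀ (by norm_num) hLr 3
    have e : (L : ℝ) ^ (3 : ℝ) = (L : ℝ) ^ (3 : ℕ) := by
      rw [← Real.rpow_natCast]; norm_num
    rw [e]
    linarith
  refine ⟨2 * lam + 5, by linarith, by linarith, ?_⟩
  set C : ℝ := 2 * lam + 5 with hC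
  intro M
  induction M using Nat.strong_induction_on with
  | _ M ih =>
    set g : ℝ := C * (√M + 1) with hg
    have hsM : 0 ≤ √(M : ℝ) := Real.sqrt_nonneg _
    have hg5 : C ≤ g := by
      rw [hg]
      nlinarith
    obtain ⟨k, hk1, hk2⟩ : ∃ k : ℕ, (k : ℝ) ≤ g - 3 ∧ g - 4 ≤ k := by
      refine ⟨⌊g - 3⌋₊, Nat.floor_le (by linarith), ?_⟩
      have := Nat.lt_floor_add_one (g - 3)
      linarith
    by_cases hkM : M ≤ k
    · have h1 := kap_step h (eq_compat L s) hl1 hl one_pos le_rfl hL0 le_rfl hN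
        (kap_zero (eq_compat L s) l) M
      rw [zero_add] at h1
      refine h1.mono (le_min ?_ ?_)
      · rw [pow_zero]
        refine le_trans (Real.rpow_le_rpow_of_exponent_le (by linarith) ?_) h8
        have : (M : ℝ) ≤ k := by exact_mod_cast hkM
        linarith
      · have e : 1 / (l : ℝ) * (L : ℝ) ^ M * 1 = (L : ℝ) ^ ((M : ℝ) - lam) := by
          rw [Real.rpow_sub hL0, hl', Real.rpow_natCast]
          ring
        rw [e]
        apply Real.rpow_le_rpow_of_exponent_le (by linarith)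
        linarith
    · push Not at hkM
      obtain ⟨m, rfl⟩ := Nat.exists_eq_add_of_le' hkM.le
      have hk0 : 0 < k := by
        have : (0 : ℝ) < k := by linarith
        exact_mod_cast this
      have h1 := kap_step h (eq_compat L s) hl1 hl one_pos le_rfl hL0 le_rfl hN
        (ih m (by omega)) k
      refine h1.mono (le_min ?_ ?_)
      · have e : (L : ℝ) ^ ((m : ℝ) - 3) ≤ (L : ℝ) ^ m / 8 := by
          rw [sub_eq_add_neg, Real.rpow_add hL0, Real.rpow_natCast]
          have : 0 ≤ (L : ℝ) ^ m := by positivity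
          nlinarith [mul_le_mul_of_nonneg_left h8 this]
        refine le_trans (Real.rpow_le_rpow_of_exponent_le (by linarith) ?_) e
        push_cast
        linarith
      · have e : 1 / (l : ℝ) * (L : ℝ) ^ k * (L : ℝ) ^ ((m : ℝ) - C * (√m + 1)) =
            (L : ℝ) ^ (-lam + k + ((m : ℝ) - C * (√m + 1))) := by
          rw [Real.rpow_add hL0, Real.rpow_add hL0, Real.rpow_neg hL0.le, hl', Real.rpow_natCast,
            one_div]
        rw [e]
        apply Real.rpow_le_rpow_of_exponent_le (by linarith)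
        -- `C (√M - √m) ≥ lam`
        have hsm : 0 ≤ √(m : ℝ) := Real.sqrt_nonneg _
        have h2 : √(m : ℝ) * √(m : ℝ) = m := Real.mul_self_sqrt (Nat.cast_nonneg m)
        have h3 : √((m + k : ℕ) : ℝ) * √((m + k : ℕ) : ℝ) = ((m + k : ℕ) : ℝ) :=
          Real.mul_self_sqrt (Nat.cast_nonneg _)
        set x := √(m : ℝ) with hx
        set y := √((m + k : ℕ) : ℝ) with hy
        have hxy : x ≤ y := Real.sqrt_le_sqrt (by push_cast; linarith [(Nat.cast_nonneg k : (0:ℝ) ≤ k)])
        have h4 : (y - x) * (y + x) = k := by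
          have : (y - x) * (y + x) = y * y - x * x := by ring
          rw [this, h2, h3]
          push_cast
          ring
        have hy0 : 0 < y := by
          rw [hy]
          apply Real.sqrt_pos.2
          have : (0 : ℝ) < k := by exact_mod_cast hk0
          push_cast
          linarith [(Nat.cast_nonneg m : (0:ℝ) ≤ m)]
        have h5 : C * y ≤ k := by
          have : g = C * y + C := by rw [hg]; ring
          linarith
        have h6 : C / 2 ≤ y - x := by
          by_contra hcon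
          push Not at hcon
          have h7 : (y - x) * (y + x) ≤ C / 2 * (y + x) :=
            mul_le_mul_of_nonneg_right hcon.le (by linarith)
          have h8' : C / 2 * (y + x) ≤ C / 2 * (y + y) := by
            apply mul_le_mul_of_nonneg_left (by linarith)
            linarith
          have h9 : (y - x) * (y + x) < C * y ∨ (y - x) * (y + x) = C * y := by
            rcases lt_or_eq_of_le hxy with h10 | h10
            · left
              have h11 : (y - x) * (y + x) < C / 2 * (y + x) :=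
                mul_lt_mul_of_pos_right hcon (by linarith)
              linarith
            · right
              rw [h4] at *
              linarith
          rcases h9 with h9 | h9
          · linarith
          · have h10 : x = y := by
              by_contra hne
              have h11 : x < y := lt_of_le_of_ne hxy hne
              have h12 : (y - x) * (y + x) < C / 2 * (y + x) :=
                mul_lt_mul_of_pos_right hcon (by linarith)
              linarith
            rw [h10, sub_self, zero_mul] at h9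
            have : 0 < C * y := mul_pos (by linarith) hy0
            linarith
        have h7 : lam ≤ C * (y - x) := by
          have : C * (C / 2) ≤ C * (y - x) := mul_le_mul_of_nonneg_left h6 (by linarith)
          nlinarith
        have h8'' : ((m + k : ℕ) : ℝ) = m + k := by push_cast; ring
        rw [hg, h8'']
        nlinarith

/-- lower bound for the distance of two different blocks of level `m + k` -/
theorem block_lower (h : Sys L s z) (hb : Bij L s) {l : ℕ} (hl1 : 1 ≤ l) {m : ℕ} {K : ℝ}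
    (hKap : Kap L z (fun a b => a = b) l m K) (k : ℕ) (p q : ℤ)
    (hpq : z p ≠ z q) :
    min ((L : ℝ) ^ m / 8) ((L ^ k / l : ℕ) * K) ≤
      D (word z (p * (L : ℤ) ^ (m + k)) (L ^ (m + k)))
        (word z (q * (L : ℤ) ^ (m + k)) (L ^ (m + k))) := by
  classical
  have hL := h.two_le
  by_contra hcon
  push Not at hcon
  rw [lt_min_iff] at hcon
  obtain ⟨hD1, hD2⟩ := hcon
  set r := L ^ k / l with hr
  obtain ⟨e, he⟩ : ∃ e, L ^ (m + k) = r * (l * L ^ m) + e := by
    refine Nat.exists_eq_add_of_le ?_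
    calc r * (l * L ^ m) = (L ^ k / l * l) * L ^ m := by rw [hr]; ring
      _ ≤ L ^ k * L ^ m := Nat.mul_le_mul_right _ (Nat.div_mul_le_self _ _)
      _ = L ^ (m + k) := by rw [pow_add]; ring
  rw [he] at hD1 hD2
  obtain ⟨γ, ν', n', hγ0, hγ, hsum, hoff⟩ :=
    D_split_many z (p * (L : ℤ) ^ (m + k)) (q * (L : ℤ) ^ (m + k)) r (l * L ^ m) e
      (r * (l * L ^ m) + e)
  set C : ℕ := D (word z (p * (L : ℤ) ^ (m + k)) (r * (l * L ^ m) + e))
    (word z (q * (L : ℤ) ^ (m + k)) (r * (l * L ^ m) + e)) with hC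
  have h8C : 8 * (C : ℤ) < (L : ℤ) ^ m := by
    have h1 : 8 * (C : ℝ) < (L : ℝ) ^ m := by linarith
    exact_mod_cast h1
  have hLm : (0 : ℤ) < (L : ℤ) ^ m := by positivity
  let d : ℕ → ℕ := fun t => D (word z (p * (L : ℤ) ^ (m + k) + (t : ℤ) * ((l * L ^ m : ℕ) : ℤ))
    (l * L ^ m)) (word z (γ t) (ν' t))
  have hdsum : ∑ t ∈ range r, d t ≤ C := by
    have := hsum
    change ∑ t ∈ range r, d t + _ ≤ C at this
    omega
  obtain ⟨t, ht, hdt⟩ : ∃ t, t < r ∧ (d t : ℝ) < K := by
    by_contra hcon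
    push Not at hcon
    have h1 : (r : ℝ) * K ≤ C := by
      calc (r : ℝ) * K = ∑ t ∈ range r, K := by rw [Finset.sum_const, Finset.card_range, nsmul_eq_mul]
        _ ≤ ∑ t ∈ range r, (d t : ℝ) :=
            Finset.sum_le_sum (fun t ht => hcon t (Finset.mem_range.1 ht))
        _ ≤ C := by exact_mod_cast hdsum
    linarith
  have e1 : p * (L : ℤ) ^ (m + k) + (t : ℤ) * ((l * L ^ m : ℕ) : ℤ) =
      (p * (L : ℤ) ^ k + t * l) * (L : ℤ) ^ m := by
    push_cast
    rw [pow_add]
    ring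
  have h1 : (D (word z ((p * (L : ℤ) ^ k + t * l) * (L : ℤ) ^ m) (l * L ^ m))
      (word z (γ t) (ν' t)) : ℝ) < K := by
    rw [← e1]
    exact hdt
  obtain ⟨J, hJ1, hJ2⟩ := hKap _ _ _ h1
  have h2 := hoff t ht.le
  have h3 : J = (q - p) * (L : ℤ) ^ k := by
    have e2 : ((q - p) * (L : ℤ) ^ k - J) * (L : ℤ) ^ m =
        (γ t - (p * (L : ℤ) ^ k + t * l + J) * (L : ℤ) ^ m) -
          (γ t - q * (L : ℤ) ^ (m + k) - (t : ℤ) * ((l * L ^ m : ℕ) : ℤ)) := by
      push_cast
      rw [pow_add]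
      ring
    have h4 : |((q - p) * (L : ℤ) ^ k - J) * (L : ℤ) ^ m| ≤
        |γ t - (p * (L : ℤ) ^ k + t * l + J) * (L : ℤ) ^ m| + C := by
      rw [e2]
      exact (abs_sub _ _).trans (by gcongr)
    rw [abs_mul, abs_of_pos hLm] at h4
    have h5 : |(q - p) * (L : ℤ) ^ k - J| * (L : ℤ) ^ m < 1 * (L : ℤ) ^ m := by linarith
    have h6 := Int.abs_lt_one_iff.1 (lt_of_mul_lt_mul_right h5 hLm.le)
    omega
  have h4 := hJ2 0 (by omega)
  have htl : t * l < L ^ k := by
    calc t * l < r * l := Nat.mul_lt_mul_of_pos_right ht (by omega)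
      _ ≤ L ^ k := Nat.div_mul_le_self _ _
  have e3 : p * (L : ℤ) ^ k + t * l + ((0 : ℕ) : ℤ) = (L : ℤ) ^ k * p + ((t * l : ℕ) : ℤ) := by
    push_cast
    ring
  have e4 : p * (L : ℤ) ^ k + t * l + ((0 : ℕ) : ℤ) + J = (L : ℤ) ^ k * q + ((t * l : ℕ) : ℤ) := by
    rw [h3]
    push_cast
    ring
  rw [e4, e3, h.sub_eq k p _ htl, h.sub_eq k q _ htl] at h4
  exact hb.sub (by omega) k _ _ hpq _ htl h4

/-- **Lower bound for blocks.** -/
theorem block_sqrt (h : Sys L s z) (hb : Bij L s) {l : ℕ} (hl1 : 1 ≤ l)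
    (hl : Rgn L z (fun a b => a = b) l) :
    ∃ C : ℝ, 0 < C ∧ ∀ (M : ℕ) (p q : ℤ), z p ≠ z q →
      (L : ℝ) ^ ((M : ℝ) - C * (√M + 1)) ≤
        D (word z (p * (L : ℤ) ^ M) (L ^ M)) (word z (q * (L : ℤ) ^ M) (L ^ M)) := by
  have hL := h.two_le
  have hLr : (2 : ℝ) ≤ L := by exact_mod_cast hL
  have hL0 : (0 : ℝ) < L := by linarith
  have hl0 : (0 : ℝ) < l := by exact_mod_cast hl1
  have hlogL : 0 < Real.log L := Real.log_pos (by linarith)
  obtain ⟨C, hC5, hClam, hKap⟩ := kap_sqrt h hb hl1 hl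
  set lam : ℝ := Real.log l / Real.log L with hlam
  have hlam0 : 0 ≤ lam := div_nonneg (Real.log_natCast_nonneg l) hlogL.le
  have hl' : (L : ℝ) ^ lam = l := by
    rw [Real.rpow_def_of_pos hL0, hlam, mul_div_cancel₀ _ hlogL.ne', Real.exp_log hl0]
  refine ⟨2 * C + 5, by linarith, ?_⟩
  intro M p q hpq
  set g : ℝ := C * (√M + 1) with hg
  have hsM : 0 ≤ √(M : ℝ) := Real.sqrt_nonneg _
  have hgC : C ≤ g := by rw [hg]; nlinarith
  -- the number of levels
  obtain ⟨k, hk1, hk2⟩ : ∃ k : ℕ, g + lam + 1 ≤ k ∧ (k : ℝ) ≤ g + lam + 2 := by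
    refine ⟨⌈g + lam + 1⌉₊, Nat.le_ceil _, ?_⟩
    have := Nat.ceil_lt_add_one (show 0 ≤ g + lam + 1 by linarith)
    linarith
  have hexp : (M : ℝ) - (2 * C + 5) * (√M + 1) ≤ (M : ℝ) - k - 3 := by
    nlinarith
  by_cases hkM : M < k
  · -- trivial case
    have h1 : 1 ≤ D (word z (p * (L : ℤ) ^ M) (L ^ M)) (word z (q * (L : ℤ) ^ M) (L ^ M)) := by
      by_contra hcon
      have h2 := D_eq_zero (show D (word z (p * (L : ℤ) ^ M) (L ^ M))
        (word z (q * (L : ℤ) ^ M) (L ^ M)) = 0 by omega)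
      have hpos : 0 < L ^ M := by positivity
      have h3 : (word z (p * (L : ℤ) ^ M) (L ^ M))[0]? = (word z (q * (L : ℤ) ^ M) (L ^ M))[0]? := by
        rw [h2]
      unfold word at h3
      rw [List.getElem?_map, List.getElem?_map, List.getElem?_range hpos] at h3
      simp only [Option.map_some, Option.some.injEq] at h3
      rw [mul_comm p, mul_comm q, h.sub_eq M p 0 hpos, h.sub_eq M q 0 hpos] at h3
      exact hb.sub (by omega) M _ _ hpq 0 hpos h3
    have h2 : (L : ℝ) ^ ((M : ℝ) - (2 * C + 5) * (√M + 1)) ≤ (L : ℝ) ^ (0 : ℝ) := by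
      apply Real.rpow_le_rpow_of_exponent_le (by linarith)
      have : (M : ℝ) < k := by exact_mod_cast hkM
      linarith
    rw [Real.rpow_zero] at h2
    exact h2.trans (by exact_mod_cast h1)
  · push Not at hkM
    obtain ⟨m, rfl⟩ := Nat.exists_eq_add_of_le' hkM
    have h1 := block_lower h hb hl1 (hKap m) k p q hpq
    refine le_trans (le_min ?_ ?_) h1
    · have h8 : (L : ℝ) ^ (-3 : ℝ) ≤ 1 / 8 := by
        rw [Real.rpow_neg hL0.le, one_div]
        apply inv_anti₀ (by norm_num)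
        have : (2 : ℝ) ^ (3 : ℕ) ≤ (L : ℝ) ^ (3 : ℕ) := pow_le_pow_left₀ (by norm_num) hLr 3
        have e : (L : ℝ) ^ (3 : ℝ) = (L : ℝ) ^ (3 : ℕ) := by
          rw [← Real.rpow_natCast]; norm_num
        rw [e]
        linarith
      have e : (L : ℝ) ^ ((m : ℝ) - 3) ≤ (L : ℝ) ^ m / 8 := by
        rw [sub_eq_add_neg, Real.rpow_add hL0, Real.rpow_natCast]
        have : 0 ≤ (L : ℝ) ^ m := by positivity
        nlinarith [mul_le_mul_of_nonneg_left h8 this]
      refine le_trans (Real.rpow_le_rpow_of_exponent_le (by linarith) ?_) e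
      refine hexp.trans ?_
      push_cast
      linarith
    · -- `⌊L^k / l⌋ ≥ L^(k - lam - 1)`
      have h2 : (L : ℝ) ^ ((k : ℝ) - lam - 1) ≤ ((L ^ k / l : ℕ) : ℝ) := by
        have h3 : (L : ℝ) ^ ((k : ℝ) - lam) = (L : ℝ) ^ k / l := by
          rw [Real.rpow_sub hL0, hl', Real.rpow_natCast]
        have h4 : (L : ℝ) ^ ((k : ℝ) - lam - 1) = (L : ℝ) ^ k / l / L := by
          rw [Real.rpow_sub hL0, h3, Real.rpow_one]
        have h5 : (L : ℝ) ^ k / l < ((L ^ k / l : ℕ) : ℝ) + 1 := by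
          rw [div_lt_iff₀ hl0]
          have := Nat.lt_div_mul_add (a := L ^ k) (b := l) (by omega)
          have h6 : L ^ k < (L ^ k / l + 1) * l := by
            calc L ^ k < L ^ k / l * l + l := this
              _ = (L ^ k / l + 1) * l := by ring
          exact_mod_cast h6
        have h7 : (1 : ℝ) ≤ (L : ℝ) ^ ((k : ℝ) - lam - 1) :=
          Real.one_le_rpow (by linarith) (by linarith)
        rw [h4] at h7 ⊢
        have h8 : 2 * ((L : ℝ) ^ k / l / L) ≤ (L : ℝ) ^ k / l := by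
          have h9 : (L : ℝ) ^ k / l / L * L = (L : ℝ) ^ k / l := by field_simp
          nlinarith
        linarith
      have e : (L : ℝ) ^ ((k : ℝ) - lam - 1) * (L : ℝ) ^ ((m : ℝ) - C * (√m + 1)) =
          (L : ℝ) ^ ((k : ℝ) - lam - 1 + ((m : ℝ) - C * (√m + 1))) := by
        rw [Real.rpow_add hL0]
      calc (L : ℝ) ^ (((m + k : ℕ) : ℝ) - (2 * C + 5) * (√((m + k : ℕ) : ℝ) + 1))
          ≤ (L : ℝ) ^ ((k : ℝ) - lam - 1 + ((m : ℝ) - C * (√m + 1))) := by
            apply Real.rpow_le_rpow_of_exponent_le (by linarith)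
            have h3 : √(m : ℝ) ≤ √((m + k : ℕ) : ℝ) := by
              apply Real.sqrt_le_sqrt
              push_cast
              linarith [(Nat.cast_nonneg k : (0 : ℝ) ≤ k)]
            have h4 : ((m + k : ℕ) : ℝ) = m + k := by push_cast; ring
            rw [hg] at hk1
            nlinarith
        _ = _ := e.symm
        _ ≤ _ := mul_le_mul_of_nonneg_right h2 (by positivity)

end H95.Edit
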