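import Pool.Agent.H95.Edit.M10_Final
import Pool.Agent.H95.Edit.M11_Bij

/-! M12: lower bounds for substitutions without coincidences, in particular for the sequence of
Thue and Morse. -/

namespace H95.Edit

open Filter Topology

variable {A : Type}

theorem dropLast_sublist_of_sublist_concat {w x : List A} {a : A} (h : w.Sublist (x ++ [a])) :
    w.dropLast.Sublist x := by
  obtain ⟨w₁, w₂, rfl, h1, h2⟩ := List.sublist_append_iff.1 h
  rcases List.sublist_singleton.1 h2 with rfl | rfl
  · rw [List.append_nil]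
    exact (List.dropLast_sublist _).trans h1
  · rw [List.dropLast_concat]
    exact h1

theorem lcs_concat_le (x y : List A) (a b : A) : lcs (x ++ [a]) (y ++ [b]) ≤ lcs x y + 1 := by
  obtain ⟨w, h1, h2, h3⟩ := exists_lcs (x ++ [a]) (y ++ [b])
  have h4 := le_lcs (dropLast_sublist_of_sublist_concat h1) (dropLast_sublist_of_sublist_concat h2)
  rw [List.length_dropLast, h3] at h4
  omega

/-- the edit distance of prefixes of the same length is monotone -/
theorem prefix_mono (f g : ℕ → A) {m n : ℕ} (h : m ≤ n) :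
    (m : ℝ) - lcs ((List.range m).map f) ((List.range m).map g) ≤
      n - lcs ((List.range n).map f) ((List.range n).map g) := by
  induction n, h using Nat.le_induction with
  | base => exact le_rfl
  | succ n _ ih =>
    refine ih.trans ?_
    rw [List.range_succ, List.map_append, List.map_append]
    have h1 := lcs_concat_le ((List.range n).map f) ((List.range n).map g) (f n) (g n)
    have h2 : (lcs ((List.range n).map f ++ List.map f [n]) ((List.range n).map g ++
        List.map g [n]) : ℝ) ≤ lcs ((List.range n).map f) ((List.range n).map g) + 1 := by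
      exact_mod_cast h1
    push_cast
    linarith

theorem editDist_map (f g : ℕ → A) (n : ℕ) :
    editDist ((List.range n).map f) ((List.range n).map g) =
      n - lcs ((List.range n).map f) ((List.range n).map g) := by
  unfold editDist
  simp only [List.length_map, List.length_range]
  ring

theorem take_iter (σ : A → List A) (L : ℕ) (hL : ∀ a, (σ a).length = L) (N n : ℕ)
    (hn : n ≤ L ^ N) (a : A) :
    ((subst σ)^[N] [a]).take n = (List.range n).map (fun r => sub L (toFun σ) N a r) := by
  apply List.ext_getElem?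
  intro i
  by_cases hi : i < n
  · rw [List.getElem?_take_of_lt hi, getElem_iter σ L hL N a i (hi.trans_le hn),
      List.getElem?_map, List.getElem?_range hi]
    rfl
  · push Not at hi
    rw [List.getElem?_eq_none (by rw [List.length_take]; omega),
      List.getElem?_eq_none (by simpa using hi)]

theorem occurs {σ : A → List A} {z : ℤ → A} (hp : Primitive σ)
    (hW : ∀ n, Words σ n = Set.range (fun a : ℤ => word z a n)) (x : A) : ∃ a : ℤ, z a = x := by
  obtain ⟨k, hk⟩ := hp
  have h1 := hk (k + 1) (by omega) x x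
  have h2 : [x] ∈ Words σ 1 :=
    ⟨rfl, k + 1, x, by omega, List.singleton_infix_iff _ _ |>.2 h1⟩
  rw [hW] at h2
  obtain ⟨a, ha⟩ := h2
  refine ⟨a, ?_⟩
  simp only [word, List.range_one, List.map_cons, List.map_nil, List.cons.injEq, and_true,
    Nat.cast_zero, add_zero] at ha
  exact ha

/-- **Lower bound.** -/
theorem bij_main [Finite A] [Nontrivial A] (σ : A → List A) (hp : Primitive σ) (L : ℕ)
    (hL : ∀ a, (σ a).length = L) (hap : ¬ ∃ p, 1 ≤ p ∧ Periodic σ p)
    (hb : ∀ a b, a ≠ b → ∀ i : ℕ, i < L → (σ a)[i]? ≠ (σ b)[i]?) :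
    ∃ C : ℝ, 0 < C ∧ ∀ n : ℕ, 2 ≤ n → ∀ N : ℕ, n ≤ L ^ N → ∀ a b : A, a ≠ b →
      (n : ℝ) * 2 ^ (-(C * √(Real.logb 2 n))) ≤
        editDist (((subst σ)^[N] [a]).take n) (((subst σ)^[N] [b]).take n) := by
  obtain ⟨K, z, hK, hsys, hW⟩ := exists_sys σ L hL hp
  have hL2 := hsys.two_le
  have hL1 : 2 ≤ L := by
    by_contra hcon
    have : L = 0 ∨ L = 1 := by omega
    rcases this with rfl | rfl
    · rw [zero_pow (by omega)] at hL2
      omega
    · rw [one_pow] at hL2
      omega
  have hbij : Bij L (toFun σ) := by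
    intro a b hab r hr h
    apply hb a b hab r hr
    have h2 : ∀ c : A, (σ c)[r]? = some (toFun σ c r) := by
      intro c
      have h3 : r < (σ c).length := by rw [hL]; exact hr
      unfold toFun
      rw [List.getD_eq_getElem?_getD, List.getElem?_eq_getElem h3]
      rfl
    rw [h2, h2, h]
  have hbijK : Bij (L ^ K) (fun a r => sub L (toFun σ) K a r) :=
    fun a b hab r hr => hbij.sub (by omega) K a b hab r hr
  have hPer : ¬ Per z (fun a b => a = b) := by
    rintro ⟨p, hp1, hp2⟩
    exact hap ⟨p, hp1, (periodic_iff hW p).2 hp2⟩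
  obtain ⟨l, hl1, hl⟩ := exists_rgn hsys (eq_compat _ _) hPer
  obtain ⟨C₁, hC₁, hblock⟩ := block_sqrt hsys hbijK hl1 hl
  set lam : ℝ := Real.logb 2 ((L ^ K : ℕ) : ℝ) with hlam
  have hLK : (2 : ℝ) ≤ ((L ^ K : ℕ) : ℝ) := by exact_mod_cast hL2
  have hlam1 : 1 ≤ lam := by
    rw [hlam, Real.le_logb_iff_rpow_le one_lt_two (by linarith), Real.rpow_one]
    exact hLK
  refine ⟨lam + 2 * lam * C₁ + 1, by positivity, ?_⟩
  intro n hn N hnN a b hab
  -- the level
  set M := Nat.log (L ^ K) n with hM
  have hM1 : (L ^ K) ^ M ≤ n := Nat.pow_log_le_self _ (by omega)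
  have hM2 : n < (L ^ K) ^ (M + 1) := Nat.lt_pow_succ_log_self (by omega) n
  have hKM : K * M ≤ N := by
    have h1 : L ^ (K * M) ≤ L ^ N := by
      rw [pow_mul]
      exact hM1.trans hnN
    exact (Nat.pow_le_pow_iff_right (by omega)).1 h1
  obtain ⟨j, rfl⟩ := Nat.exists_eq_add_of_le' hKM
  rw [take_iter σ L hL _ n hnN a, take_iter σ L hL _ n hnN b, editDist_map]
  refine le_trans ?_ (prefix_mono _ _ hM1)
  -- the prefixes are blocks
  obtain ⟨p, hp'⟩ := occurs hp hW (sub L (toFun σ) j a 0)
  obtain ⟨q, hq'⟩ := occurs hp hW (sub L (toFun σ) j b 0)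
  have hpq : z p ≠ z q := by
    rw [hp', hq']
    exact hbij.sub (by omega) j a b hab 0 (by positivity)
  have hword : ∀ (c : A) (p : ℤ), z p = sub L (toFun σ) j c 0 →
      (List.range ((L ^ K) ^ M)).map (fun r => sub L (toFun σ) (j + K * M) c r) =
        word z (p * ((L ^ K : ℕ) : ℤ) ^ M) ((L ^ K) ^ M) := by
    intro c p hc
    unfold word
    apply List.map_congr_left
    intro r hr
    rw [List.mem_range] at hr
    rw [mul_comm p, hsys.sub_eq M p r hr, hc, sub_add]
    have h1 : r < L ^ (K * M) := by rwa [pow_mul]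
    rw [Nat.div_eq_of_lt h1, Nat.mod_eq_of_lt h1]
    -- iterating the power
    have h2 : ∀ (m : ℕ) (c : A) (r : ℕ), sub L (toFun σ) (K * m) c r =
        sub (L ^ K) (fun a r => sub L (toFun σ) K a r) m c r := by
      intro m
      induction m with
      | zero => intro c r; rfl
      | succ m ih =>
        intro c r
        rw [Nat.mul_succ, sub_add]
        change _ = sub L (toFun σ) K (sub (L ^ K) (fun a r => sub L (toFun σ) K a r) m c
          (r / L ^ K)) (r % L ^ K)
        rw [ih]
    exact h2 M _ r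
  rw [hword a p hp', hword b q hq']
  have hD := hblock M p q hpq
  have hDl := D_add_lcs (word z (p * ((L ^ K : ℕ) : ℤ) ^ M) ((L ^ K) ^ M))
    (word z (q * ((L ^ K : ℕ) : ℤ) ^ M) ((L ^ K) ^ M))
  rw [length_word, length_word] at hDl
  set Dv := D (word z (p * ((L ^ K : ℕ) : ℤ) ^ M) ((L ^ K) ^ M))
    (word z (q * ((L ^ K : ℕ) : ℤ) ^ M) ((L ^ K) ^ M)) with hDv
  set lv := lcs (word z (p * ((L ^ K : ℕ) : ℤ) ^ M) ((L ^ K) ^ M))
    (word z (q * ((L ^ K : ℕ) : ℤ) ^ M) ((L ^ K) ^ M)) with hlv
  have hDl' : (Dv : ℝ) + 2 * lv = (((L ^ K) ^ M : ℕ) : ℝ) + (((L ^ K) ^ M : ℕ) : ℝ) := by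
    exact_mod_cast hDl
  have hgoal : (((L ^ K) ^ M : ℕ) : ℝ) - lv = Dv / 2 := by linarith
  rw [hgoal]
  -- arithmetic
  have hn0 : (0 : ℝ) < n := by exact_mod_cast (by omega : 0 < n)
  set x : ℝ := Real.logb 2 n with hx
  have hx1 : 1 ≤ x := by
    rw [hx, Real.le_logb_iff_rpow_le one_lt_two hn0, Real.rpow_one]
    exact_mod_cast hn
  have hsx : 1 ≤ √x := by
    rw [Real.one_le_sqrt]
    exact hx1
  have hnx : (n : ℝ) = 2 ^ x := by
    rw [hx, Real.rpow_logb two_pos (by norm_num) hn0]
  have hLx : (((L ^ K : ℕ) : ℝ)) = 2 ^ lam := by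
    rw [hlam, Real.rpow_logb two_pos (by norm_num) (by linarith)]
  have hMx : (M : ℝ) * lam ≤ x := by
    have h1 : (((L ^ K : ℕ) : ℝ)) ^ M ≤ n := by exact_mod_cast hM1
    rw [hLx, hnx, ← Real.rpow_mul_natCast two_pos.le] at h1
    have h2 := (Real.rpow_le_rpow_left_iff one_lt_two).1 h1
    linarith
  have hMx2 : x ≤ (M + 1) * lam := by
    have h1 : (n : ℝ) ≤ (((L ^ K : ℕ) : ℝ)) ^ (M + 1) := by exact_mod_cast hM2.le
    rw [hLx, hnx, ← Real.rpow_mul_natCast two_pos.le] at h1
    have h2 := (Real.rpow_le_rpow_left_iff one_lt_two).1 h1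
    push_cast at h2
    linarith
  have hMs : √(M : ℝ) ≤ √x := by
    apply Real.sqrt_le_sqrt
    have : (0 : ℝ) ≤ M := Nat.cast_nonneg M
    nlinarith
  have hfin : (n : ℝ) * 2 ^ (-((lam + 2 * lam * C₁ + 1) * √x)) ≤
      (((L ^ K : ℕ) : ℝ)) ^ ((M : ℝ) - C₁ * (√M + 1)) / 2 := by
    rw [hLx, ← Real.rpow_mul two_pos.le, hnx, ← Real.rpow_add two_pos]
    have h1 : (2 : ℝ) ^ (lam * ((M : ℝ) - C₁ * (√M + 1))) / 2 =
        2 ^ (lam * ((M : ℝ) - C₁ * (√M + 1)) - 1) := by
      rw [Real.rpow_sub two_pos, Real.rpow_one]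
    rw [h1]
    apply Real.rpow_le_rpow_of_exponent_le one_le_two
    have h2 : lam * (C₁ * (√M + 1)) ≤ lam * (C₁ * (√x + 1)) := by gcongr
    have h3 : lam * C₁ ≤ lam * C₁ * √x := le_mul_of_one_le_right (by positivity) hsx
    have h4 : lam ≤ lam * √x := le_mul_of_one_le_right (by positivity) hsx
    nlinarith
  refine hfin.trans ?_
  linarith

/-- the sequence of Thue and Morse: is the number of ones in the binary expansion odd? -/
def tm (n : ℕ) : Bool := decide ((Nat.digits 2 n).sum % 2 = 1)

/-- the substitution of Thue and Morse -/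
def tms (b : Bool) : List Bool := [b, !b]

theorem tm_two_mul (n : ℕ) : tm (2 * n) = tm n := by
  rcases Nat.eq_zero_or_pos n with rfl | hn
  · rfl
  · have h := Nat.digits_add 2 (by norm_num) 0 n (by norm_num) (Or.inr hn.ne')
    rw [zero_add] at h
    unfold tm
    rw [h]
    simp

theorem tm_two_mul_add_one (n : ℕ) : tm (2 * n + 1) = !tm n := by
  have h := Nat.digits_add 2 (by norm_num) 1 n (by norm_num) (Or.inl one_ne_zero)
  rw [add_comm 1] at h
  unfold tm
  rw [h, List.sum_cons]
  rcases Nat.mod_two_eq_zero_or_one (Nat.digits 2 n).sum with h1 | h1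
  · have h2 : (1 + (Nat.digits 2 n).sum) % 2 = 1 := by omega
    rw [h1, h2]
    rfl
  · have h2 : (1 + (Nat.digits 2 n).sum) % 2 = 0 := by omega
    rw [h1, h2]
    rfl

theorem tms_length (a : Bool) : (tms a).length = 2 := rfl

theorem sub_tms (N : ℕ) (a : Bool) (r : ℕ) (hr : r < 2 ^ N) :
    sub 2 (toFun tms) N a r = (a ^^ tm r) := by
  induction N generalizing r with
  | zero =>
    have : r = 0 := by simpa using hr
    subst this
    simp [sub, tm]
  | succ N ih =>
    have h1 : r / 2 < 2 ^ N := Nat.div_lt_of_lt_mul (by rw [mul_comm]; rwa [← pow_succ])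
    change toFun tms (sub 2 (toFun tms) N a (r / 2)) (r % 2) = _
    rw [ih _ h1]
    rcases Nat.mod_two_eq_zero_or_one r with h2 | h2
    · have h3 : tm r = tm (r / 2) := by
        conv_lhs => rw [← Nat.div_add_mod r 2, h2, add_zero]
        exact tm_two_mul _
      rw [h2, h3]
      rfl
    · have h3 : tm r = !tm (r / 2) := by
        conv_lhs => rw [← Nat.div_add_mod r 2, h2]
        exact tm_two_mul_add_one _
      rw [h2, h3, Bool.xor_not]
      rfl

theorem tms_primitive : Primitive tms := by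
  refine ⟨1, fun m hm a b => ?_⟩
  have h2 : 2 ≤ 2 ^ m := by
    calc 2 = 2 ^ 1 := rfl
      _ ≤ 2 ^ m := Nat.pow_le_pow_right (by norm_num) hm
  have h0 := getElem_iter tms 2 tms_length m a 0 (by omega)
  have h1 := getElem_iter tms 2 tms_length m a 1 (by omega)
  rw [sub_tms m a 0 (by omega)] at h0
  rw [sub_tms m a 1 (by omega)] at h1
  have t0 : tm 0 = false := by simp [tm]
  have t1 : tm 1 = true := by simp [tm]
  rw [t0] at h0
  rw [t1] at h1
  have m0 := List.mem_of_getElem? h0
  have m1 := List.mem_of_getElem? h1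
  cases a <;> cases b <;> simp at m0 m1 <;> assumption

theorem tm_aperiodic : ∀ p : ℕ, 1 ≤ p → ¬ ∀ i : ℕ, tm (i + p) = tm i := by
  intro p
  induction p using Nat.strong_induction_on with
  | _ p ih =>
    intro hp h
    rcases Nat.even_or_odd' p with ⟨c, rfl | rfl⟩
    · apply ih c (by omega) (by omega)
      intro i
      have h1 := h (2 * i)
      rw [← mul_add, tm_two_mul, tm_two_mul] at h1
      exact h1
    · have h1 : ∀ m, c ≤ m → tm (m + 1) = tm m := by
        intro m hm
        obtain ⟨i, rfl⟩ := Nat.exists_eq_add_of_le' hm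
        have h2 := h (2 * i)
        have h3 := h (2 * i + 1)
        have e1 : 2 * i + (2 * c + 1) = 2 * (i + c) + 1 := by ring
        have e2 : 2 * i + 1 + (2 * c + 1) = 2 * (i + c + 1) := by ring
        rw [e1, tm_two_mul_add_one, tm_two_mul] at h2
        rw [e2, tm_two_mul, tm_two_mul_add_one, ← h2, Bool.not_not] at h3
        exact h3
      have h4 := h1 (2 * c) (by omega)
      rw [tm_two_mul_add_one, tm_two_mul] at h4
      cases h5 : tm c <;> rw [h5] at h4 <;> simp at h4

theorem tms_aperiodic : ¬ ∃ p, 1 ≤ p ∧ Periodic tms p := by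
  rintro ⟨p, hp, h⟩
  refine tm_aperiodic p hp fun i => ?_
  have hn : i + p + 1 ≤ 2 ^ (i + p + 1) := Nat.lt_two_pow_self.le
  have h1 := h (i + p + 1) (((subst tms)^[i + p + 1] [false]).take (i + p + 1))
    ⟨by rw [List.length_take, length_iter tms 2 tms_length]; omega, i + p + 1, false, by omega,
      (List.take_prefix _ _).isInfix⟩ i (by omega)
  rw [take_iter tms 2 tms_length _ _ hn, List.getElem?_map, List.getElem?_map,
    List.getElem?_range (by omega), List.getElem?_range (by omega)] at h1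
  simp only [Option.map_some, Option.some.injEq] at h1
  rw [sub_tms _ _ _ (by omega), sub_tms _ _ _ (by omega), Bool.false_xor, Bool.false_xor] at h1
  exact h1

/-- **Thue and Morse.** -/
theorem thue_morse :
    ∃ C : ℝ, 0 < C ∧ ∀ n : ℕ, 2 ≤ n → (n : ℝ) * 2 ^ (-(C * √(Real.logb 2 n))) ≤
      editDist ((List.range n).map tm) ((List.range n).map (fun i => !tm i)) := by
  obtain ⟨C, hC, h⟩ := bij_main tms tms_primitive 2 tms_length tms_aperiodic (by
    intro a b hab i hi
    have : i = 0 ∨ i = 1 := by omega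
    rcases this with rfl | rfl <;> cases a <;> cases b <;> simp [tms] at hab ⊢)
  refine ⟨C, hC, fun n hn => ?_⟩
  have hn2 : n ≤ 2 ^ n := Nat.lt_two_pow_self.le
  have h1 := h n hn n hn2 false true (by simp)
  rw [take_iter tms 2 tms_length n n hn2, take_iter tms 2 tms_length n n hn2] at h1
  have e1 : (List.range n).map (fun r => sub 2 (toFun tms) n false r) = (List.range n).map tm := by
    apply List.map_congr_left
    intro r hr
    rw [List.mem_range] at hr
    rw [sub_tms n false r (by omega), Bool.false_xor]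
  have e2 : (List.range n).map (fun r => sub 2 (toFun tms) n true r) =
      (List.range n).map (fun i => !tm i) := by
    apply List.map_congr_left
    intro r hr
    rw [List.mem_range] at hr
    rw [sub_tms n true r (by omega), Bool.true_xor]
  rw [e1, e2] at h1
  exact h1

end H95.Edit
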