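import Pool.Agent.H95.Edit.M7_Core
import Pool.Agent.H95.Edit.M9_Lang

/-! M13: growth rates of the mismatch numbers of a set of pairs of letters. -/

namespace H95.Edit

open Finset Filter Topology

variable {A : Type} {L : ℕ} {s : A → ℕ → A}

/-- the largest `k`-th mismatch number of a set of pairs -/
noncomputable def GT (L : ℕ) (s : A → ℕ → A) (T : Set (A × A)) (k : ℕ) : ℕ :=
  sSup ((fun x : A × A => Hm L s k x.1 x.2) '' T)

lemma Hm_le_nat (k : ℕ) (a b : A) : Hm L s k a b ≤ L ^ k :=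
  NQ_le L s (fun a b => a = b) k a b

lemma GT_bdd (T : Set (A × A)) (k : ℕ) :
    BddAbove ((fun x : A × A => Hm L s k x.1 x.2) '' T) := by
  refine ⟨L ^ k, ?_⟩
  rintro _ ⟨x, -, rfl⟩
  exact Hm_le_nat k x.1 x.2

lemma le_GT {T : Set (A × A)} {x : A × A} (hx : x ∈ T) (k : ℕ) :
    Hm L s k x.1 x.2 ≤ GT L s T k :=
  le_csSup (GT_bdd T k) ⟨x, hx, rfl⟩

lemma GT_le {T : Set (A × A)} {k B : ℕ} (h : ∀ x ∈ T, Hm L s k x.1 x.2 ≤ B) :
    GT L s T k ≤ B := by
  unfold GT
  rcases T.eq_empty_or_nonempty with rfl | hT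
  · simp
  · refine csSup_le (hT.image _) ?_
    rintro _ ⟨x, hx, rfl⟩
    exact h x hx

lemma exists_GT {T : Set (A × A)} (hT : T.Nonempty) (k : ℕ) :
    ∃ x ∈ T, GT L s T k = Hm L s k x.1 x.2 := by
  have h := Nat.sSup_mem (hT.image (fun x : A × A => Hm L s k x.1 x.2)) (GT_bdd T k)
  obtain ⟨x, hx, hx2⟩ := h
  exact ⟨x, hx, hx2.symm⟩

/-- the pairs which are reached from a set of pairs -/
def RS (L : ℕ) (s : A → ℕ → A) (T : Set (A × A)) : Set (A × A) :=
  {y | ∃ x ∈ T, ∃ d r : ℕ, r < L ^ d ∧ y = (sub L s d x.1 r, sub L s d x.2 r)}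

lemma subset_RS (T : Set (A × A)) : T ⊆ RS L s T := by
  intro x hx
  exact ⟨x, hx, 0, 0, by simp, rfl⟩

lemma RS_closed {T : Set (A × A)} {y : A × A} (hy : y ∈ RS L s T) {k r : ℕ} (hr : r < L ^ k) :
    (sub L s k y.1 r, sub L s k y.2 r) ∈ RS L s T := by
  obtain ⟨x, hx, d, q, hq, rfl⟩ := hy
  refine ⟨x, hx, d + k, q * L ^ k + r, ?_, ?_⟩
  · rw [pow_add]
    calc q * L ^ k + r < q * L ^ k + L ^ k := by omega
      _ = (q + 1) * L ^ k := by ring
      _ ≤ L ^ d * L ^ k := Nat.mul_le_mul_right _ hq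
  · rw [sub_add_of_lt L s d k x.1 q r hr, sub_add_of_lt L s d k x.2 q r hr]

open Classical in
lemma Hm_add_le (hL : 1 ≤ L) (k l : ℕ) (a b : A) (B : ℕ)
    (hB : ∀ r < L ^ k, Hm L s l (sub L s k a r) (sub L s k b r) ≤ B) :
    Hm L s (k + l) a b ≤ Hm L s k a b * B := by
  rw [Hm_add hL]
  have h1 : ∀ r ∈ range (L ^ k), Hm L s l (sub L s k a r) (sub L s k b r) ≤
      if sub L s k a r ≠ sub L s k b r then B else 0 := by
    intro r hr
    split_ifs with h
    · exact hB r (Finset.mem_range.1 hr)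
    · rw [not_not] at h
      rw [h, Hm_self]
  refine (Finset.sum_le_sum h1).trans (le_of_eq ?_)
  rw [← Finset.sum_filter, Finset.sum_const, smul_eq_mul]
  rfl

lemma Hm_sub_le (hL : 1 ≤ L) (d k r : ℕ) (hr : r < L ^ d) (a b : A) :
    Hm L s k (sub L s d a r) (sub L s d b r) ≤ Hm L s (d + k) a b := by
  rw [Hm_add hL]
  exact Finset.single_le_sum (f := fun r => Hm L s k (sub L s d a r) (sub L s d b r))
    (fun _ _ => Nat.zero_le _) (Finset.mem_range.2 hr)

lemma GT_submul (hL : 1 ≤ L) (T : Set (A × A)) (k l : ℕ) :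
    GT L s (RS L s T) (k + l) ≤ GT L s (RS L s T) k * GT L s (RS L s T) l := by
  apply GT_le
  intro y hy
  refine (Hm_add_le hL k l y.1 y.2 (GT L s (RS L s T) l) ?_).trans ?_
  · intro r hr
    exact le_GT (RS_closed hy hr) l
  · exact Nat.mul_le_mul_right _ (le_GT hy k)

lemma GT_RS_le [Finite A] (hL : 1 ≤ L) (T : Set (A × A)) :
    ∃ D : ℕ, ∀ k, GT L s (RS L s T) k ≤ L ^ D * GT L s T k := by
  classical
  have := Fintype.ofFinite A
  have hex : ∀ y : A × A, ∃ d : ℕ, y ∈ RS L s T →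
      ∃ x ∈ T, ∃ r : ℕ, r < L ^ d ∧ y = (sub L s d x.1 r, sub L s d x.2 r) := by
    intro y
    by_cases hy : y ∈ RS L s T
    · obtain ⟨x, hx, d, r, hr, e⟩ := hy
      exact ⟨d, fun _ => ⟨x, hx, r, hr, e⟩⟩
    · exact ⟨0, fun h => absurd h hy⟩
  choose f hf using hex
  refine ⟨∑ y : A × A, f y, fun k => GT_le ?_⟩
  intro y hy
  obtain ⟨x, hx, r, hr, e⟩ := hf y hy
  have h1 : Hm L s k y.1 y.2 ≤ Hm L s (f y + k) x.1 x.2 := by
    have e1 : y.1 = sub L s (f y) x.1 r := congrArg Prod.fst e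
    have e2 : y.2 = sub L s (f y) x.2 r := congrArg Prod.snd e
    rw [e1, e2]
    exact Hm_sub_le hL (f y) k r hr x.1 x.2
  have h2 : Hm L s (f y + k) x.1 x.2 ≤ Hm L s k x.1 x.2 * L ^ f y := by
    rw [add_comm]
    exact Hm_add_le hL k (f y) x.1 x.2 (L ^ f y) (fun r _ => Hm_le_nat _ _ _)
  have h3 : f y ≤ ∑ y : A × A, f y :=
    Finset.single_le_sum (f := f) (fun _ _ => Nat.zero_le _) (Finset.mem_univ y)
  calc Hm L s k y.1 y.2 ≤ Hm L s k x.1 x.2 * L ^ f y := h1.trans h2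
    _ ≤ GT L s T k * L ^ (∑ y : A × A, f y) :=
        Nat.mul_le_mul (le_GT hx k) (Nat.pow_le_pow_right hL h3)
    _ = L ^ (∑ y : A × A, f y) * GT L s T k := by ring

/-- the growth rate exists -/
theorem exists_growth [Finite A] (hL : 2 ≤ L) (T : Set (A × A)) (hT : ∀ k, 1 ≤ GT L s T k) :
    ∃ κ : ℝ, 0 ≤ κ ∧ κ ≤ Real.log L ∧
      Tendsto (fun k : ℕ => Real.log (GT L s T k) / k) atTop (𝓝 κ) ∧
      Tendsto (fun k : ℕ => Real.log (GT L s (RS L s T) k) / k) atTop (𝓝 κ) := by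
  have hL1 : 1 ≤ L := by omega
  have hle : ∀ k, GT L s T k ≤ GT L s (RS L s T) k := by
    intro k
    exact GT_le (fun x hx => le_GT (subset_RS T hx) k)
  have hpos : ∀ k, (1 : ℝ) ≤ GT L s T k := fun k => by exact_mod_cast hT k
  have hpos' : ∀ k, (1 : ℝ) ≤ GT L s (RS L s T) k := fun k => by
    exact_mod_cast (hT k).trans (hle k)
  set u : ℕ → ℝ := fun k => Real.log (GT L s (RS L s T) k) with hu
  have hsub : Subadditive u := by
    intro m n
    have h1 : (GT L s (RS L s T) (m + n) : ℝ) ≤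
        (GT L s (RS L s T) m : ℝ) * GT L s (RS L s T) n := by
      exact_mod_cast GT_submul hL1 T m n
    have h2 := Real.log_le_log (by linarith [hpos' (m + n)]) h1
    rw [Real.log_mul (by linarith [hpos' m]) (by linarith [hpos' n])] at h2
    exact h2
  have hbdd : BddBelow (Set.range fun n : ℕ => u n / n) := by
    refine ⟨0, ?_⟩
    rintro _ ⟨n, rfl⟩
    exact div_nonneg (Real.log_natCast_nonneg _) (Nat.cast_nonneg n)
  have hlim := hsub.tendsto_lim hbdd
  obtain ⟨D, hD⟩ := GT_RS_le (s := s) hL1 T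
  have hlogL : 0 ≤ Real.log L := Real.log_natCast_nonneg L
  have hkT : Tendsto (fun k : ℕ => (k : ℝ)) atTop atTop := tendsto_natCast_atTop_atTop
  have hdiv : Tendsto (fun k : ℕ => D * Real.log L / k) atTop (𝓝 0) :=
    tendsto_const_nhds.div_atTop hkT
  have hlim2 : Tendsto (fun k : ℕ => u k / k - D * Real.log L / k) atTop
      (𝓝 (hsub.lim)) := by
    have := hlim.sub hdiv
    rwa [sub_zero] at this
  have hT2 : Tendsto (fun k : ℕ => Real.log (GT L s T k) / k) atTop (𝓝 hsub.lim) := by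
    refine tendsto_of_tendsto_of_tendsto_of_le_of_le hlim2 hlim ?_ ?_
    · intro k
      simp only
      rw [← sub_div]
      apply div_le_div_of_nonneg_right _ (Nat.cast_nonneg k)
      have h1 : (GT L s (RS L s T) k : ℝ) ≤ (L : ℝ) ^ D * GT L s T k := by exact_mod_cast hD k
      have h2 := Real.log_le_log (by linarith [hpos' k]) h1
      have hLpos : (0 : ℝ) < L := by exact_mod_cast hL1
      rw [Real.log_mul (by positivity) (by linarith [hpos k]), Real.log_pow] at h2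
      simp only [hu]
      linarith
    · intro k
      simp only
      apply div_le_div_of_nonneg_right _ (Nat.cast_nonneg k)
      apply Real.log_le_log (by linarith [hpos k])
      exact_mod_cast hle k
  refine ⟨hsub.lim, ?_, ?_, hT2, hlim⟩
  · exact ge_of_tendsto' hT2 (fun k => div_nonneg (Real.log_natCast_nonneg _) (Nat.cast_nonneg k))
  · refine le_of_tendsto hT2 ?_
    filter_upwards [eventually_ge_atTop 1] with k hk
    have hk0 : (0 : ℝ) < k := by exact_mod_cast hk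
    rw [div_le_iff₀ hk0]
    have h1 : (GT L s T k : ℝ) ≤ (L : ℝ) ^ k := by
      exact_mod_cast (GT_le (T := T) (fun x _ => Hm_le_nat (L := L) (s := s) k x.1 x.2))
    have h2 := Real.log_le_log (by linarith [hpos k]) h1
    rw [Real.log_pow] at h2
    linarith

end H95.Edit
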