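import Pool.Agent.H95.Edit.M13_Grow
import Pool.Agent.H95.Edit.M10_Final

/-! M14: the exponent of a substitution of constant length in terms of the growth rates of the lags. -/

namespace H95.Edit

open Finset Filter Topology

variable {A : Type}

section Gen

variable {L : ℕ} {s : A → ℕ → A} {z : ℤ → A} {Q : A → A → Prop}

/-- the pairs of letters at distance `p` -/
def LP (z : ℤ → A) (p : ℕ) : Set (A × A) := Set.range (fun n : ℤ => (z n, z (n + p)))

lemma exists_div (P : ℕ) (hP : 0 < P) (n : ℤ) :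
    ∃ (q : ℤ) (r : ℕ), r < P ∧ n = (P : ℤ) * q + r := by
  have hPz : (0 : ℤ) < (P : ℤ) := by exact_mod_cast hP
  refine ⟨n / (P : ℤ), (n % (P : ℤ)).toNat, ?_, ?_⟩
  · have h1 := Int.emod_nonneg n hPz.ne'
    have h2 := Int.emod_lt_of_pos n hPz
    zify
    rw [Int.toNat_of_nonneg h1]
    exact h2
  · have h1 := Int.emod_nonneg n hPz.ne'
    rw [Int.toNat_of_nonneg h1]
    exact (Int.mul_ediv_add_emod n _).symm

/-- if the mismatch numbers of a lag vanish then the fixed point is periodic -/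
theorem per_of_zero (h : Sys L s z) {p k : ℕ} (hp : 1 ≤ p)
    (h0 : ∀ n : ℤ, Hm L s k (z n) (z (n + p)) = 0) : Per z (fun a b => a = b) := by
  classical
  have hL := h.two_le
  have hLk : 0 < L ^ k := Nat.pow_pos (by omega)
  refine ⟨p * L ^ k, Nat.succ_le_of_lt (Nat.mul_pos hp hLk), ?_⟩
  intro n
  obtain ⟨q, r, hr, hn⟩ := exists_div (L ^ k) hLk n
  push_cast at hn
  subst hn
  have e1 : (L : ℤ) ^ k * q + r + ((p * L ^ k : ℕ) : ℤ) = (L : ℤ) ^ k * (q + p) + r := by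
    push_cast; ring
  change z ((L : ℤ) ^ k * q + r) = z ((L : ℤ) ^ k * q + r + ((p * L ^ k : ℕ) : ℤ))
  rw [e1, h.sub_eq k q r hr, h.sub_eq k (q + p) r hr]
  have h1 := h0 q
  unfold Hm at h1
  rw [Finset.card_eq_zero, Finset.filter_eq_empty_iff] at h1
  have h2 := h1 (x := r) (Finset.mem_range.2 hr)
  simpa using h2

/-- the converse compatibility for iterated images -/
theorem of_sub (hL : 1 ≤ L) (hQ' : ∀ a b, (∀ r < L, Q (s a r) (s b r)) → Q a b) (k : ℕ) (a b : A)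
    (h : ∀ r < L ^ k, Q (sub L s k a r) (sub L s k b r)) : Q a b := by
  induction k with
  | zero => exact h 0 (by simp)
  | succ k ih =>
    apply ih
    intro q hq
    apply hQ'
    intro r hr
    have h1 : q * L + r < L ^ (k + 1) := by
      rw [pow_succ]
      calc q * L + r < q * L + L := by omega
        _ = (q + 1) * L := by ring
        _ ≤ L ^ k * L := Nat.mul_le_mul_right _ hq
    have h2 := h (q * L + r) h1
    obtain ⟨e1, e2⟩ := div_mod_lt (a := q) hr
    simp only [sub] at h2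
    rwa [e1, e2] at h2

/-- the least period modulo a relation which is compatible in both directions is at most the number
of letters -/
theorem exists_small_period [Fintype A] (h : Sys L s z) (hQ : Compat L s Q)
    (hQ' : ∀ a b, (∀ r < L, Q (s a r) (s b r)) → Q a b) (hP : Per z Q) :
    ∃ p : ℕ, 1 ≤ p ∧ p ≤ Fintype.card A ∧ ∀ n : ℤ, Q (z n) (z (n + p)) := by
  classical
  have hL := h.two_le
  have hex : ∃ p : ℕ, 1 ≤ p ∧ ∀ n : ℤ, Q (z n) (z (n + p)) := hP
  set p := Nat.find hex with hpdef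
  obtain ⟨hp1, hp⟩ := Nat.find_spec hex
  rw [← hpdef] at hp1 hp
  have hmin : ∀ d : ℕ, 1 ≤ d → d < p → ¬ ∀ n : ℤ, Q (z n) (z (n + d)) := by
    intro d hd1 hd2 hd
    exact Nat.find_min hex hd2 ⟨hd1, hd⟩
  -- the letters at `0, ..., p - 1` are different
  have hkey : ∀ n d : ℕ, 1 ≤ d → d < p → ¬ Q (z n) (z ((n + d : ℕ) : ℤ)) := by
    intro n d hd1 hd2 hnd
    apply hmin d hd1 hd2
    -- choose a level
    obtain ⟨j, hj⟩ : ∃ j : ℕ, p ≤ L ^ j := ⟨p, (Nat.lt_pow_self (by omega)).le⟩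
    have hLj : 0 < L ^ j := Nat.pow_pos (by omega)
    -- `L ^ j * d` is a period
    have hN : ∀ N : ℤ, Q (z N) (z (N + (L : ℤ) ^ j * d)) := by
      intro N
      obtain ⟨q, r, hr, hq⟩ := exists_div p (by omega) (N - (L : ℤ) ^ j * n)
      have hr' : r < L ^ j := by omega
      have h1 := hQ.sub j _ _ hnd r hr'
      rw [← h.sub_eq j _ r hr', ← h.sub_eq j _ r hr'] at h1
      -- `N = L ^ j * n + r + q * p`
      have h2 := Per.zmul hQ hp q ((L : ℤ) ^ j * n + r)
      have h3 := Per.zmul hQ hp q ((L : ℤ) ^ j * ((n + d : ℕ) : ℤ) + r)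
      have e1 : (L : ℤ) ^ j * n + r + q * p = N := by linarith
      have e2 : (L : ℤ) ^ j * ((n + d : ℕ) : ℤ) + r + q * p = N + (L : ℤ) ^ j * d := by
        push_cast
        linarith
      rw [e1] at h2
      rw [e2] at h3
      exact hQ.equiv.trans (hQ.equiv.trans (hQ.equiv.symm h2) h1) h3
    intro m
    apply of_sub (by omega) hQ' j
    intro r hr
    rw [← h.sub_eq j _ r hr, ← h.sub_eq j _ r hr]
    have h1 := hN ((L : ℤ) ^ j * m + r)
    have e : (L : ℤ) ^ j * m + r + (L : ℤ) ^ j * d = (L : ℤ) ^ j * (m + d) + r := by ring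
    rwa [e] at h1
  refine ⟨p, hp1, ?_, hp⟩
  have hinj : Function.Injective (fun i : Fin p => z ((i : ℕ) : ℤ)) := by
    intro i j hij
    by_contra hne
    have hne' : (i : ℕ) ≠ (j : ℕ) := fun h => hne (Fin.ext h)
    simp only at hij
    rcases Nat.lt_or_gt_of_ne hne' with hlt | hlt
    · apply hkey i ((j : ℕ) - i) (by omega) (by omega)
      rw [Nat.add_sub_cancel' hlt.le, hij]
      exact hQ.equiv.refl _
    · apply hkey j ((i : ℕ) - j) (by omega) (by omega)
      rw [Nat.add_sub_cancel' hlt.le, hij]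
      exact hQ.equiv.refl _
  have := Fintype.card_le_of_injective _ hinj
  simpa using this

end Gen

section Pow

variable {L : ℕ} {s : A → ℕ → A} {z : ℤ → A} {K : ℕ}

/-- mismatch numbers of the power -/
theorem Hm_pow (k : ℕ) (a b : A) :
    Hm (L ^ K) (fun a r => sub L s K a r) k a b = Hm L s (K * k) a b := by
  classical
  unfold Hm
  rw [← pow_mul]
  congr 1
  apply Finset.filter_congr
  intro r _
  rw [sub_pow, sub_pow]

theorem rpow_pow_eq (hL : 2 ≤ L) (x : ℝ) (k : ℕ) :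
    ((L ^ K : ℕ) : ℝ) ^ (x * k) = Real.exp (x * Real.log L * ((K * k : ℕ) : ℝ)) := by
  have hLpos : (0 : ℝ) < L := by
    have : 0 < L := by omega
    exact_mod_cast this
  push_cast
  rw [Real.rpow_def_of_pos (by positivity), Real.log_pow]
  congr 1
  ring

theorem qe_of_le (hL : 2 ≤ L) (hK : 1 ≤ K) {p : ℕ} (hT : ∀ k, 1 ≤ GT L s (LP z p) k) {κ η : ℝ}
    (hκ0 : 0 ≤ κ)
    (hκ : Tendsto (fun k : ℕ => Real.log (GT L s (LP z p) k) / k) atTop (𝓝 κ))
    (hle : κ ≤ η * Real.log L) (n : ℤ) :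
    Qe (L ^ K) (fun a r => sub L s K a r) η (z n) (z (n + p)) := by
  intro ε hε
  have hLpos : (0 : ℝ) < L := by
    have : 0 < L := by omega
    exact_mod_cast this
  have hlogL : 0 < Real.log L := Real.log_pos (by
    have : 1 < L := by omega
    exact_mod_cast this)
  have hη : 0 ≤ η := by
    by_contra hneg
    rw [not_le] at hneg
    have := mul_neg_of_neg_of_pos hneg hlogL
    linarith
  have hlt : κ < (η + ε) * Real.log L := by
    have := mul_pos hε hlogL
    rw [add_mul]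
    linarith
  have hev := hκ.eventually (gt_mem_nhds hlt)
  obtain ⟨J, hJ⟩ := Filter.eventually_atTop.1 hev
  refine ⟨((L ^ K : ℕ) : ℝ) ^ (J + 1), ?_⟩
  intro k
  rw [Hm_pow, rpow_pow_eq hL]
  have hmem : (z n, z (n + p)) ∈ LP z p := ⟨n, rfl⟩
  have hLK1 : (1 : ℝ) ≤ ((L ^ K : ℕ) : ℝ) := by
    exact_mod_cast Nat.one_le_pow K L (by omega)
  have hC1 : (1 : ℝ) ≤ ((L ^ K : ℕ) : ℝ) ^ (J + 1) := one_le_pow₀ hLK1
  have hexp1 : (1 : ℝ) ≤ Real.exp ((η + ε) * Real.log L * ((K * k : ℕ) : ℝ)) := by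
    apply Real.one_le_exp
    positivity
  rcases Nat.lt_or_ge (J : ℕ) k with hk | hk
  · -- large `k`
    have hKk : J ≤ K * k := by nlinarith
    have hKk0 : (0 : ℝ) < ((K * k : ℕ) : ℝ) := by
      have : 0 < K * k := by nlinarith
      exact_mod_cast this
    have h1 := hJ (K * k) hKk
    rw [div_lt_iff₀ hKk0] at h1
    have h2 : (Hm L s (K * k) (z n) (z (n + p)) : ℝ) ≤ GT L s (LP z p) (K * k) := by
      exact_mod_cast le_GT hmem (K * k)
    have h3 : (1 : ℝ) ≤ GT L s (LP z p) (K * k) := by exact_mod_cast hT (K * k)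
    have h4 : (GT L s (LP z p) (K * k) : ℝ) ≤
        Real.exp ((η + ε) * Real.log L * ((K * k : ℕ) : ℝ)) := by
      rw [← Real.log_le_iff_le_exp (by linarith)]
      exact h1.le
    calc (Hm L s (K * k) (z n) (z (n + p)) : ℝ)
        ≤ 1 * Real.exp ((η + ε) * Real.log L * ((K * k : ℕ) : ℝ)) := by
          rw [one_mul]
          exact h2.trans h4
      _ ≤ _ := by
          apply mul_le_mul_of_nonneg_right hC1 (Real.exp_pos _).le
  · have h1 : (Hm L s (K * k) (z n) (z (n + p)) : ℝ) ≤ ((L ^ K : ℕ) : ℝ) ^ k := by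
      have := Hm_le_nat (L := L) (s := s) (K * k) (z n) (z (n + p))
      rw [pow_mul] at this
      exact_mod_cast this
    have h2 : ((L ^ K : ℕ) : ℝ) ^ k ≤ ((L ^ K : ℕ) : ℝ) ^ (J + 1) :=
      pow_le_pow_right₀ hLK1 (by omega)
    calc (Hm L s (K * k) (z n) (z (n + p)) : ℝ) ≤ ((L ^ K : ℕ) : ℝ) ^ (J + 1) * 1 := by
          rw [mul_one]
          exact h1.trans h2
      _ ≤ _ := by
          apply mul_le_mul_of_nonneg_left hexp1 (by linarith)

theorem le_of_qe [Finite A] (hL : 2 ≤ L) (hK : 1 ≤ K) {p : ℕ}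
    (hT : ∀ k, 1 ≤ GT L s (LP z p) k) {κ η : ℝ}
    (hκ : Tendsto (fun k : ℕ => Real.log (GT L s (LP z p) k) / k) atTop (𝓝 κ))
    (hQ : ∀ n : ℤ, Qe (L ^ K) (fun a r => sub L s K a r) η (z n) (z (n + p))) :
    κ ≤ η * Real.log L := by
  classical
  have hlogL : 0 < Real.log L := Real.log_pos (by
    have : 1 < L := by omega
    exact_mod_cast this)
  have hKT : Tendsto (fun k : ℕ => K * k) atTop atTop :=
    tendsto_id.const_mul_atTop' hK
  have hκK := hκ.comp hKT
  have key : ∀ ε : ℝ, 0 < ε → κ ≤ (η + ε) * Real.log L := by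
    intro ε hε
    have hex : ∀ x : A × A, ∃ C : ℝ, x ∈ LP z p → ∀ k : ℕ, (Hm L s (K * k) x.1 x.2 : ℝ) ≤
        C * Real.exp ((η + ε) * Real.log L * ((K * k : ℕ) : ℝ)) := by
      intro x
      by_cases hx : x ∈ LP z p
      · obtain ⟨n, rfl⟩ := hx
        obtain ⟨C, hC⟩ := hQ n ε hε
        refine ⟨C, fun _ k => ?_⟩
        have := hC k
        rwa [Hm_pow, rpow_pow_eq hL] at this
      · exact ⟨0, fun h => absurd h hx⟩
    obtain ⟨C, hC0, hC⟩ := exists_uniform_upper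
      (fun (x : A × A) C => x ∈ LP z p → ∀ k : ℕ, (Hm L s (K * k) x.1 x.2 : ℝ) ≤
        C * Real.exp ((η + ε) * Real.log L * ((K * k : ℕ) : ℝ)))
      (fun x c c' hcc hc hx k => (hc hx k).trans
        (mul_le_mul_of_nonneg_right hcc (Real.exp_pos _).le)) hex
    have hne : (LP z p).Nonempty := ⟨_, 0, rfl⟩
    have hG : ∀ k : ℕ, (GT L s (LP z p) (K * k) : ℝ) ≤
        C * Real.exp ((η + ε) * Real.log L * ((K * k : ℕ) : ℝ)) := by
      intro k
      obtain ⟨x, hx, e⟩ := exists_GT (s := s) hne (L := L) (K * k)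
      rw [e]
      exact hC x hx k
    have hCpos : 0 < C := by
      have h1 := hG 0
      have h2 : (1 : ℝ) ≤ GT L s (LP z p) (K * 0) := by exact_mod_cast hT _
      by_contra hcon
      have h3 : C = 0 := le_antisymm (not_lt.1 hcon) hC0
      rw [h3, zero_mul] at h1
      linarith
    have hlog : ∀ k : ℕ, Real.log (GT L s (LP z p) (K * k)) ≤
        Real.log C + (η + ε) * Real.log L * ((K * k : ℕ) : ℝ) := by
      intro k
      have h2 : (1 : ℝ) ≤ GT L s (LP z p) (K * k) := by exact_mod_cast hT _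
      have h3 := Real.log_le_log (by linarith) (hG k)
      rwa [Real.log_mul hCpos.ne' (Real.exp_pos _).ne', Real.log_exp] at h3
    have hKT' : Tendsto (fun k : ℕ => ((K * k : ℕ) : ℝ)) atTop atTop :=
      tendsto_natCast_atTop_atTop.comp hKT
    have hr : Tendsto (fun k : ℕ => Real.log C / ((K * k : ℕ) : ℝ) + (η + ε) * Real.log L) atTop
        (𝓝 (0 + (η + ε) * Real.log L)) :=
      (tendsto_const_nhds.div_atTop hKT').add tendsto_const_nhds
    rw [zero_add] at hr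
    refine le_of_tendsto_of_tendsto hκK hr ?_
    filter_upwards [eventually_ge_atTop 1] with k hk
    have hKk0 : (0 : ℝ) < ((K * k : ℕ) : ℝ) := by
      have : 0 < K * k := by nlinarith
      exact_mod_cast this
    simp only [Function.comp]
    rw [div_le_iff₀ hKk0, add_mul, div_mul_cancel₀ _ hKk0.ne']
    exact hlog k
  refine le_of_forall_pos_le_add ?_
  intro δ hδ
  have := key (δ / Real.log L) (div_pos hδ hlogL)
  rw [add_mul, div_mul_cancel₀ _ hlogL.ne'] at this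
  exact this

/-- mismatch numbers of the lags are positive if the fixed point is not periodic -/
theorem one_le_GT (hK : 1 ≤ K) (h : Sys (L ^ K) (fun a r => sub L s K a r) z) (hL : 2 ≤ L)
    (hap : ¬ Per z (fun a b => a = b)) {p : ℕ} (hp : 1 ≤ p) (k : ℕ) :
    1 ≤ GT L s (LP z p) k := by
  by_contra hcon
  have h0 : GT L s (LP z p) k = 0 := by omega
  apply hap
  apply per_of_zero h (k := k) hp
  intro n
  have hmem : (z n, z (n + p)) ∈ LP z p := ⟨n, rfl⟩
  have h1 : Hm L s k (z n) (z (n + p)) ≤ GT L s (LP z p) k := le_GT hmem k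
  rw [Hm_pow]
  have hkK : k ≤ K * k := by nlinarith
  obtain ⟨d, hd⟩ := Nat.exists_eq_add_of_le hkK
  have h2 := Hm_add_le (s := s) (L := L) (by omega) k d (z n) (z (n + p)) (L ^ d)
    (fun r _ => Hm_le_nat _ _ _)
  rw [← hd] at h2
  have h3 : Hm L s k (z n) (z (n + p)) = 0 := by omega
  rw [h3, zero_mul] at h2
  omega

/-- the exponent in terms of the growth rates of the lags -/
theorem core_lag [Fintype A] (hA : 1 ≤ Fintype.card A) (hL : 2 ≤ L) (hK : 1 ≤ K)
    (h : Sys (L ^ K) (fun a r => sub L s K a r) z)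
    (hap : ¬ Per z (fun a b => a = b)) :
    ∃ κ : ℕ → ℝ, (∀ p, 1 ≤ p → 0 ≤ κ p ∧ κ p ≤ Real.log L ∧
      Tendsto (fun k : ℕ => Real.log (GT L s (LP z p) k) / k) atTop (𝓝 (κ p)) ∧
      Tendsto (fun k : ℕ => Real.log (GT L s (RS L s (LP z p)) k) / k) atTop (𝓝 (κ p))) ∧
      ∃ p₀, 1 ≤ p₀ ∧ p₀ ≤ Fintype.card A ∧ (∀ p, 1 ≤ p → κ p₀ ≤ κ p) ∧
        LowerB (L ^ K) z (κ p₀ / Real.log L) ∧ UpperB (L ^ K) z (κ p₀ / Real.log L) := by
  have hlogL : 0 < Real.log L := Real.log_pos (by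
    have : 1 < L := by omega
    exact_mod_cast this)
  have hex : ∀ p : ℕ, ∃ κ : ℝ, 1 ≤ p → 0 ≤ κ ∧ κ ≤ Real.log L ∧
      Tendsto (fun k : ℕ => Real.log (GT L s (LP z p) k) / k) atTop (𝓝 κ) ∧
      Tendsto (fun k : ℕ => Real.log (GT L s (RS L s (LP z p)) k) / k) atTop (𝓝 κ) := by
    intro p
    by_cases hp : 1 ≤ p
    · obtain ⟨κ, h1, h2, h3, h4⟩ := exists_growth hL (LP z p) (one_le_GT hK h hL hap hp)
      exact ⟨κ, fun _ => ⟨h1, h2, h3, h4⟩⟩
    · exact ⟨0, fun h => absurd h hp⟩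
  choose κ hκ using hex
  have hL' := h.two_le
  have hsmall : ∀ p, 1 ≤ p → ∃ p', 1 ≤ p' ∧ p' ≤ Fintype.card A ∧ κ p' ≤ κ p := by
    intro p hp
    obtain ⟨h1, h2, h3, -⟩ := hκ p hp
    have hle : κ p ≤ κ p / Real.log L * Real.log L := by
      rw [div_mul_cancel₀ _ hlogL.ne']
    have h4 := qe_of_le hL hK (one_le_GT hK h hL hap hp) h1 h3 hle
    obtain ⟨p', h5, h6, h7⟩ := exists_small_period h (Qe.compat hL' (κ p / Real.log L))
      (fun a b hab => Qe.of_step hL' _ a b hab) ⟨p, hp, h4⟩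
    refine ⟨p', h5, h6, ?_⟩
    have h8 := le_of_qe hL hK (one_le_GT hK h hL hap h5) (hκ p' h5).2.2.1 h7
    rwa [div_mul_cancel₀ _ hlogL.ne'] at h8
  obtain ⟨p₀, hp₀, hmin⟩ := Finset.exists_min_image (Finset.Icc 1 (Fintype.card A)) κ
    ⟨1, Finset.mem_Icc.2 ⟨le_refl _, hA⟩⟩
  rw [Finset.mem_Icc] at hp₀
  have hmin' : ∀ p, 1 ≤ p → κ p₀ ≤ κ p := by
    intro p hp
    obtain ⟨p', h5, h6, h7⟩ := hsmall p hp
    exact (hmin p' (Finset.mem_Icc.2 ⟨h5, h6⟩)).trans h7
  obtain ⟨h1, h2, h3, -⟩ := hκ p₀ hp₀.1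
  refine ⟨κ, hκ, p₀, hp₀.1, hp₀.2, hmin', ?_, ?_⟩
  · apply lowerB_of_not_per h
    · rw [div_le_one hlogL]
      exact h2
    · rintro η hη ⟨p, hp, hper⟩
      have h4 := le_of_qe hL hK (one_le_GT hK h hL hap hp) (hκ p hp).2.2.1 hper
      have h5 := hmin' p hp
      rw [lt_div_iff₀ hlogL] at hη
      linarith
  · apply upperB_of_per h
    refine ⟨p₀, hp₀.1, ?_⟩
    apply qe_of_le hL hK (one_le_GT hK h hL hap hp₀.1) h1 h3
    rw [div_mul_cancel₀ _ hlogL.ne']

end Pow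

end H95.Edit
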