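import Pool.Agent.H95.Edit.M14_Lag

/-! M15: the growth rate of a closed set of pairs is a spectral radius. -/

namespace H95.Edit

open Finset Filter Topology
open scoped Matrix.Norms.Operator ENNReal NNReal Matrix

variable {A : Type} {L : ℕ} {s : A → ℕ → A}

open Classical in
/-- the matrix of the pairs in `N` -/
noncomputable def PM (L : ℕ) (s : A → ℕ → A) (N : Set (A × A)) : Matrix (A × A) (A × A) ℕ :=
  fun x y => if x ∈ N ∧ x.1 ≠ x.2 ∧ y.1 ≠ y.2 then
    ((range L).filter (fun i => s x.1 i = y.1 ∧ s x.2 i = y.2)).card else 0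

open Classical in
theorem PM_mulVec [Fintype A] (hL : 2 ≤ L) {N : Set (A × A)}
    (hN : ∀ x ∈ N, ∀ i < L, (s x.1 i, s x.2 i) ∈ N) (k : ℕ) (v : A × A → ℕ)
    (hv : ∀ y ∈ N, y.1 ≠ y.2 → v y = Hm L s k y.1 y.2) (x : A × A) :
    (PM L s N *ᵥ v) x = if x ∈ N ∧ x.1 ≠ x.2 then Hm L s (k + 1) x.1 x.2 else 0 := by
  unfold Matrix.mulVec dotProduct PM
  split_ifs with hx
  · obtain ⟨hxN, hne⟩ := hx
    rw [Hm_succ hL]
    have h1 : ∀ y : A × A, (if x ∈ N ∧ x.1 ≠ x.2 ∧ y.1 ≠ y.2 then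
        ((range L).filter (fun i => s x.1 i = y.1 ∧ s x.2 i = y.2)).card else 0) * v y =
        ∑ i ∈ range L, if (s x.1 i, s x.2 i) = y ∧ y.1 ≠ y.2 then v y else 0 := by
      intro y
      by_cases hy : y.1 ≠ y.2
      · rw [if_pos ⟨hxN, hne, hy⟩, Finset.card_filter, Finset.sum_mul]
        apply Finset.sum_congr rfl
        intro i _
        by_cases h2 : (s x.1 i, s x.2 i) = y
        · have h3 : s x.1 i = y.1 ∧ s x.2 i = y.2 := by
            rw [← h2]
            exact ⟨rfl, rfl⟩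
          rw [if_pos h3, if_pos ⟨h2, hy⟩, one_mul]
        · have h3 : ¬ (s x.1 i = y.1 ∧ s x.2 i = y.2) := fun h => h2 (Prod.ext h.1 h.2)
          rw [if_neg h3, if_neg (fun h => h2 h.1), zero_mul]
      · rw [if_neg (fun h => hy h.2.2), zero_mul]
        symm
        apply Finset.sum_eq_zero
        intro i _
        rw [if_neg (fun h => hy h.2)]
    rw [Finset.sum_congr rfl (fun y _ => h1 y), Finset.sum_comm]
    apply Finset.sum_congr rfl
    intro i hi
    rw [Finset.mem_range] at hi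
    by_cases hp : s x.1 i = s x.2 i
    · rw [hp, Hm_self]
      apply Finset.sum_eq_zero
      intro y _
      rw [if_neg]
      rintro ⟨h2, h3⟩
      apply h3
      rw [← h2]
    · rw [Finset.sum_eq_single (s x.1 i, s x.2 i)]
      · rw [if_pos ⟨rfl, hp⟩]
        exact hv _ (hN x hxN i hi) hp
      · intro y _ hy
        rw [if_neg (fun h => hy h.1.symm)]
      · intro h
        exact absurd (Finset.mem_univ _) h
  · apply Finset.sum_eq_zero
    intro y _
    beta_reduce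
    rw [if_neg (fun h => hx ⟨h.1, h.2.1⟩), zero_mul]

open Classical in
theorem PM_pow_row [Fintype A] (hL : 2 ≤ L) {N : Set (A × A)}
    (hN : ∀ x ∈ N, ∀ i < L, (s x.1 i, s x.2 i) ∈ N) (k : ℕ) :
    ∀ x ∈ N, x.1 ≠ x.2 → ((PM L s N) ^ k *ᵥ 1) x = Hm L s k x.1 x.2 := by
  induction k with
  | zero =>
    intro x _ hx
    rw [pow_zero, Matrix.one_mulVec]
    unfold Hm
    have : (range (L ^ 0)).filter (fun r => sub L s 0 x.1 r ≠ sub L s 0 x.2 r) = range (L ^ 0) := by
      apply Finset.filter_true_of_mem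
      intro r _
      simpa [sub] using hx
    rw [this]
    simp
  | succ k ih =>
    intro x hxN hx
    rw [pow_succ', ← Matrix.mulVec_mulVec, PM_mulVec hL hN k _ ih, if_pos ⟨hxN, hx⟩]

open Classical in
theorem PM_pow_row' [Fintype A] (hL : 2 ≤ L) {N : Set (A × A)}
    (hN : ∀ x ∈ N, ∀ i < L, (s x.1 i, s x.2 i) ∈ N) (k : ℕ) (x : A × A) :
    ((PM L s N) ^ (k + 1) *ᵥ 1) x = if x ∈ N ∧ x.1 ≠ x.2 then Hm L s (k + 1) x.1 x.2 else 0 := by
  rw [pow_succ', ← Matrix.mulVec_mulVec, PM_mulVec hL hN k _ (PM_pow_row hL hN k)]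

open Classical in
theorem norm_PM_pow [Fintype A] (hL : 2 ≤ L) {N : Set (A × A)}
    (hN : ∀ x ∈ N, ∀ i < L, (s x.1 i, s x.2 i) ∈ N) (hne : N.Nonempty) (k : ℕ)
    (hpos : 1 ≤ GT L s N (k + 1)) :
    ‖((PM L s N).map (Nat.cast : ℕ → ℂ)) ^ (k + 1)‖ = (GT L s N (k + 1) : ℝ) := by
  have e : ((PM L s N).map (Nat.cast : ℕ → ℂ)) ^ (k + 1) =
      ((PM L s N) ^ (k + 1)).map (Nat.cast : ℕ → ℂ) := by
    have := map_pow (Nat.castRingHom ℂ).mapMatrix (PM L s N) (k + 1)
    exact this.symm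
  rw [e, Matrix.linfty_opNorm_def]
  have hrow : ∀ x : A × A, (∑ y : A × A, ‖(((PM L s N) ^ (k + 1)).map (Nat.cast : ℕ → ℂ)) x y‖₊) =
      ((if x ∈ N ∧ x.1 ≠ x.2 then Hm L s (k + 1) x.1 x.2 else 0 : ℕ) : ℝ≥0) := by
    intro x
    rw [← PM_pow_row' hL hN k x]
    unfold Matrix.mulVec dotProduct
    push_cast
    apply Finset.sum_congr rfl
    intro y _
    rw [Matrix.map_apply]
    simp
  have h2 : ((Finset.univ : Finset (A × A)).sup fun x : A × A =>
      ∑ y : A × A, ‖(((PM L s N) ^ (k + 1)).map (Nat.cast : ℕ → ℂ)) x y‖₊) =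
      ((GT L s N (k + 1) : ℕ) : ℝ≥0) := by
    apply le_antisymm
    · apply Finset.sup_le
      intro x _
      rw [hrow]
      split_ifs with hx
      · exact_mod_cast le_GT hx.1 (k + 1)
      · simp
    · obtain ⟨x, hx, hx2⟩ := exists_GT (L := L) (s := s) hne (k + 1)
      have hxne : x.1 ≠ x.2 := by
        intro hcon
        rw [hcon, Hm_self] at hx2
        omega
      have h3 := Finset.le_sup (f := fun x : A × A =>
        ∑ y : A × A, ‖(((PM L s N) ^ (k + 1)).map (Nat.cast : ℕ → ℂ)) x y‖₊) (Finset.mem_univ x)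
      refine le_trans (le_of_eq ?_) h3
      rw [hrow, if_pos ⟨hx, hxne⟩, hx2]
  rw [h2]
  simp

open Classical in
/-- Gelfand's formula for the matrix of the pairs -/
theorem spectral [Fintype A] (hL : 2 ≤ L) {N : Set (A × A)}
    (hN : ∀ x ∈ N, ∀ i < L, (s x.1 i, s x.2 i) ∈ N) (hne : N.Nonempty)
    (hpos : ∀ k, 1 ≤ GT L s N k) {κ : ℝ}
    (hκ : Tendsto (fun k : ℕ => Real.log (GT L s N k) / k) atTop (𝓝 κ)) :
    spectralRadius ℂ ((PM L s N).map (Nat.cast : ℕ → ℂ)) = ENNReal.ofReal (Real.exp κ) := by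
  have h1 := spectrum.pow_norm_pow_one_div_tendsto_nhds_spectralRadius
    ((PM L s N).map (Nat.cast : ℕ → ℂ))
  have h2 : Tendsto (fun k : ℕ => ENNReal.ofReal (Real.exp (Real.log (GT L s N k) / k))) atTop
      (𝓝 (ENNReal.ofReal (Real.exp κ))) :=
    (ENNReal.continuous_ofReal.tendsto _).comp ((Real.continuous_exp.tendsto _).comp hκ)
  refine tendsto_nhds_unique h1 (h2.congr' ?_)
  filter_upwards [eventually_ge_atTop 1] with k hk
  obtain ⟨m, rfl⟩ := Nat.exists_eq_add_of_le' hk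
  rw [norm_PM_pow hL hN hne m (hpos _)]
  have h3 : (0 : ℝ) < GT L s N (m + 1) := by
    have := hpos (m + 1)
    exact_mod_cast this
  rw [Real.rpow_def_of_pos h3]
  congr 2
  ring

end H95.Edit
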