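import Pool.Agent.H95.Edit.Pub

/-!
Mismatches of the iterated images of pairs of letters at distance `p`, and the matrix of a distance:
notions used by the formula for the growth exponent of a substitution of constant length.
-/

namespace H95.Edit

open Classical in
/-- the number of places at which `σ^k(a)` and `σ^k(b)` differ -/
noncomputable def mismatch {A : Type} (σ : A → List A) (k : ℕ) (a b : A) : ℕ :=
  ((Finset.range ((subst σ)^[k] [a]).length).filter
    (fun i => ((subst σ)^[k] [a])[i]? ≠ ((subst σ)^[k] [b])[i]?)).card

/-- the pairs (first letter, last letter) of the words of length `p + 1` of the language -/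
def LagPair {A : Type} (σ : A → List A) (p : ℕ) : Set (A × A) :=
  {x | ∃ w ∈ Words σ (p + 1), w[0]? = some x.1 ∧ w[p]? = some x.2}

/-- the largest number of places at which `σ^k(a)` and `σ^k(b)` differ, for `(a, b)` in
`LagPair σ p` -/
noncomputable def lagMismatch {A : Type} (σ : A → List A) (p k : ℕ) : ℕ :=
  sSup {m | ∃ x ∈ LagPair σ p, m = mismatch σ k x.1 x.2}

/-- the pairs of letters which stand at the same place of `σ^d(a)` and of `σ^d(b)`, for some `d`
and some `(a, b)` in `LagPair σ p` -/
def Below {A : Type} (σ : A → List A) (p : ℕ) : Set (A × A) :=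
  {y | ∃ x ∈ LagPair σ p, ∃ d r : ℕ,
    ((subst σ)^[d] [x.1])[r]? = some y.1 ∧ ((subst σ)^[d] [x.2])[r]? = some y.2}

open Classical in
/-- the matrix of the distance `p`: for `x` in `Below σ p`, `x` and `y` not diagonal, the entry is
the number of places of `(σ(x.1), σ(x.2))` at which the pair `y` stands -/
noncomputable def lagMatrix {A : Type} (σ : A → List A) (p : ℕ) : Matrix (A × A) (A × A) ℂ :=
  fun x y => if x ∈ Below σ p ∧ x.1 ≠ x.2 ∧ y.1 ≠ y.2 then
    (((Finset.range (σ x.1).length).filter
      (fun i => (σ x.1)[i]? = some y.1 ∧ (σ x.2)[i]? = some y.2)).card : ℂ) else 0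

end H95.Edit
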