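import Pool.Agent.H95.Edit.M15_Spec
import Pool.Agent.H95.Edit.PubLag

/-! M16: the formula for the growth exponent of a substitution of constant length. -/

namespace H95.Edit

open Finset Filter Topology

variable {A : Type}

theorem mismatch_eq (σ : A → List A) (L : ℕ) (hL : ∀ a, (σ a).length = L) (k : ℕ) (a b : A) :
    mismatch σ k a b = Hm L (toFun σ) k a b := by
  classical
  unfold mismatch Hm
  rw [length_iter σ L hL]
  congr 1
  apply Finset.filter_congr
  intro i hi
  rw [Finset.mem_range] at hi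
  rw [getElem_iter σ L hL k a i hi, getElem_iter σ L hL k b i hi]
  simp

theorem lagPair_eq {σ : A → List A} {z : ℤ → A}
    (hW : ∀ n, Words σ n = Set.range (fun a : ℤ => word z a n)) (p : ℕ) :
    LagPair σ p = LP z p := by
  ext x
  unfold LagPair LP
  simp only [Set.mem_setOf_eq, Set.mem_range]
  constructor
  · rintro ⟨w, hw, h1, h2⟩
    rw [hW] at hw
    obtain ⟨n, rfl⟩ := hw
    simp only at h1 h2
    rw [getElem_word z n (p + 1) 0 (by omega)] at h1
    rw [getElem_word z n (p + 1) p (by omega)] at h2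
    simp only [Nat.cast_zero, add_zero, Option.some.injEq] at h1 h2
    exact ⟨n, Prod.ext h1 h2⟩
  · rintro ⟨n, rfl⟩
    refine ⟨word z n (p + 1), by rw [hW]; exact ⟨n, rfl⟩, ?_, ?_⟩
    · rw [getElem_word z n (p + 1) 0 (by omega)]
      simp
    · rw [getElem_word z n (p + 1) p (by omega)]

theorem lagMismatch_eq {σ : A → List A} {L : ℕ} (hL : ∀ a, (σ a).length = L) {z : ℤ → A}
    (hW : ∀ n, Words σ n = Set.range (fun a : ℤ => word z a n)) (p k : ℕ) :
    lagMismatch σ p k = GT L (toFun σ) (LP z p) k := by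
  unfold lagMismatch GT
  rw [lagPair_eq hW]
  congr 1
  ext m
  simp only [Set.mem_setOf_eq, Set.mem_image, mismatch_eq σ L hL]
  constructor
  · rintro ⟨x, hx, rfl⟩
    exact ⟨x, hx, rfl⟩
  · rintro ⟨x, hx, rfl⟩
    exact ⟨x, hx, rfl⟩

theorem getElem_iter_iff (σ : A → List A) (L : ℕ) (hL : ∀ a, (σ a).length = L) (k : ℕ) (a b : A)
    (r : ℕ) : ((subst σ)^[k] [a])[r]? = some b ↔ r < L ^ k ∧ sub L (toFun σ) k a r = b := by
  constructor
  · intro h
    have hr : r < L ^ k := by
      by_contra hcon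
      rw [List.getElem?_eq_none (by rw [length_iter σ L hL]; omega)] at h
      simp at h
    refine ⟨hr, ?_⟩
    rw [getElem_iter σ L hL k a r hr] at h
    simpa using h
  · rintro ⟨hr, rfl⟩
    exact getElem_iter σ L hL k a r hr

theorem below_eq {σ : A → List A} {L : ℕ} (hL : ∀ a, (σ a).length = L) {z : ℤ → A}
    (hW : ∀ n, Words σ n = Set.range (fun a : ℤ => word z a n)) (p : ℕ) :
    Below σ p = RS L (toFun σ) (LP z p) := by
  ext y
  unfold Below RS
  rw [lagPair_eq hW]
  simp only [Set.mem_setOf_eq, getElem_iter_iff σ L hL]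
  constructor
  · rintro ⟨x, hx, d, r, ⟨hr, h1⟩, -, h2⟩
    exact ⟨x, hx, d, r, hr, Prod.ext h1.symm h2.symm⟩
  · rintro ⟨x, hx, d, r, hr, rfl⟩
    exact ⟨x, hx, d, r, ⟨hr, rfl⟩, hr, rfl⟩

theorem lagMatrix_eq {σ : A → List A} {L : ℕ} (hL : ∀ a, (σ a).length = L) {z : ℤ → A}
    (hW : ∀ n, Words σ n = Set.range (fun a : ℤ => word z a n)) (p : ℕ) :
    lagMatrix σ p = (PM L (toFun σ) (RS L (toFun σ) (LP z p))).map (Nat.cast : ℕ → ℂ) := by
  classical
  ext x y
  rw [Matrix.map_apply]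
  unfold lagMatrix PM
  rw [below_eq hL hW]
  split_ifs with h
  · congr 2
    rw [hL]
    apply Finset.filter_congr
    intro i hi
    rw [Finset.mem_range] at hi
    have h1 : ∀ c d : A, (σ c)[i]? = some d ↔ toFun σ c i = d := by
      intro c d
      have h2 := getElem_iter_iff σ L hL 1 c d i
      rw [pow_one, sub_one c i hi] at h2
      simp only [Function.iterate_one, subst, List.flatMap_cons, List.flatMap_nil,
        List.append_nil] at h2
      rw [h2]
      exact ⟨fun h => h.2, fun h => ⟨hi, h⟩⟩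
    rw [h1, h1]
  · simp

/-- two letters: all growth rates are the number of mismatches -/
theorem GT_two {L : ℕ} {s : A → ℕ → A} {z : ℤ → A} (hL : 1 ≤ L) {a b : A} (hab : a ≠ b)
    (htwo : ∀ c : A, c = a ∨ c = b) {p : ℕ} (h0 : 1 ≤ GT L s (LP z p) 0) (k : ℕ) :
    GT L s (LP z p) k = Hm L s 1 a b ^ k := by
  classical
  apply le_antisymm
  · apply GT_le
    intro x _
    rcases htwo x.1 with e1 | e1 <;> rcases htwo x.2 with e2 | e2 <;> rw [e1, e2]
    · rw [Hm_self]; exact Nat.zero_le _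
    · rw [Hm_two hL hab htwo]
    · rw [Hm_comm, Hm_two hL hab htwo]
    · rw [Hm_self]; exact Nat.zero_le _
  · obtain ⟨x, hx, e⟩ := exists_GT (L := L) (s := s) (T := LP z p) ⟨_, 0, rfl⟩ 0
    have hne : x.1 ≠ x.2 := by
      intro hcon
      rw [hcon, Hm_self] at e
      omega
    refine le_trans (le_of_eq ?_) (le_GT hx k)
    rcases htwo x.1 with e1 | e1 <;> rcases htwo x.2 with e2 | e2
    · exact absurd (e1.trans e2.symm) hne
    · rw [e1, e2]
      exact (Hm_two hL hab htwo k).symm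
    · rw [e1, e2]
      exact (Hm_two hL hab htwo k).symm.trans (Hm_comm k a b)
    · exact absurd (e1.trans e2.symm) hne

open Classical in
theorem formula [Fintype A] (hA : 2 ≤ Fintype.card A) (σ : A → List A) (hp : Primitive σ) (L : ℕ)
    (hL : ∀ a, (σ a).length = L) (hper : ¬ ∃ p, 1 ≤ p ∧ Periodic σ p) :
    ∃ ρ : ℕ → ℝ,
      (∀ p, 1 ≤ p → 1 ≤ ρ p ∧ ρ p ≤ L ∧
        spectralRadius ℂ (lagMatrix σ p) = ENNReal.ofReal (ρ p) ∧
        Tendsto (fun k : ℕ => (lagMismatch σ p k : ℝ) ^ (1 / (k : ℝ))) atTop (𝓝 (ρ p)) ∧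
        ∀ a b : A, a ≠ b → (∀ c, c = a ∨ c = b) →
          ρ p = ((Finset.range L).filter (fun i => (σ a)[i]? ≠ (σ b)[i]?)).card) ∧
      ∃ p₀, 1 ≤ p₀ ∧ p₀ ≤ Fintype.card A ∧ (∀ p, 1 ≤ p → ρ p₀ ≤ ρ p) ∧
        Tendsto (fun n : ℕ => Real.log (diam σ n) / Real.log n) atTop
          (𝓝 (Real.log L / Real.log ((L : ℝ) ^ 2 / ρ p₀))) := by
  have hnt : Nontrivial A := Fintype.one_lt_card_iff_nontrivial.1 (by omega)
  obtain ⟨K, z, hK, hsys, hW⟩ := exists_sys σ L hL hp
  have hL2 := two_le_of_primitive σ L hL hp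
  have hap : ¬ Per z (fun a b => a = b) := by
    rintro ⟨p, hp1, hp2⟩
    exact hper ⟨p, hp1, (periodic_iff hW p).2 hp2⟩
  obtain ⟨κ, hκ, p₀, h1, h2, h3, hlow, hup⟩ := core_lag (by omega) hL2 hK hsys hap
  have hLpos : (0 : ℝ) < L := by
    have : 0 < L := by omega
    exact_mod_cast this
  have hlogL : 0 < Real.log L := Real.log_pos (by
    have : 1 < L := by omega
    exact_mod_cast this)
  have hGT : ∀ p, 1 ≤ p → ∀ k, 1 ≤ GT L (toFun σ) (LP z p) k := fun p hp1 k =>
    one_le_GT hK hsys hL2 hap hp1 k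
  have hroot : ∀ p, 1 ≤ p →
      Tendsto (fun k : ℕ => (lagMismatch σ p k : ℝ) ^ (1 / (k : ℝ))) atTop
        (𝓝 (Real.exp (κ p))) := by
    intro p hp1
    obtain ⟨h4, h5, h6, h7⟩ := hκ p hp1
    refine ((Real.continuous_exp.tendsto _).comp h6).congr ?_
    intro k
    have h8 : (0 : ℝ) < GT L (toFun σ) (LP z p) k := by
      have := hGT p hp1 k
      exact_mod_cast this
    simp only [Function.comp]
    rw [lagMismatch_eq hL hW, Real.rpow_def_of_pos h8]
    congr 1
    ring
  refine ⟨fun p => Real.exp (κ p), ?_, p₀, h1, h2, ?_, ?_⟩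
  · intro p hp1
    obtain ⟨h4, h5, h6, h7⟩ := hκ p hp1
    refine ⟨Real.one_le_exp h4, ?_, ?_, hroot p hp1, ?_⟩
    · calc Real.exp (κ p) ≤ Real.exp (Real.log L) := Real.exp_le_exp.2 h5
        _ = L := Real.exp_log hLpos
    · rw [lagMatrix_eq hL hW]
      apply spectral hL2
      · intro x hx i hi
        have h8 := RS_closed (k := 1) (r := i) hx (by rw [pow_one]; exact hi)
        rwa [sub_one _ i hi, sub_one _ i hi] at h8
      · exact ⟨_, subset_RS _ ⟨0, rfl⟩⟩
      · intro k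
        have h8 := hGT p hp1 k
        have h9 : GT L (toFun σ) (LP z p) k ≤ GT L (toFun σ) (RS L (toFun σ) (LP z p)) k :=
          GT_le (fun x hx => le_GT (subset_RS _ hx) k)
        omega
      · exact h7
    · intro a b hab htwo
      have h8 : ∀ k : ℕ, GT L (toFun σ) (LP z p) k = Hm L (toFun σ) 1 a b ^ k := fun k =>
        GT_two (by omega) hab htwo (hGT p hp1 0) k
      have h9 : 1 ≤ Hm L (toFun σ) 1 a b := by
        have := h8 1
        rw [pow_one] at this
        rw [← this]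
        exact hGT p hp1 1
      have h10 : (0 : ℝ) < (Hm L (toFun σ) 1 a b : ℝ) := by exact_mod_cast h9
      have h11 : Tendsto (fun k : ℕ => (lagMismatch σ p k : ℝ) ^ (1 / (k : ℝ))) atTop
          (𝓝 (Hm L (toFun σ) 1 a b : ℝ)) := by
        refine tendsto_const_nhds.congr' ?_
        filter_upwards [eventually_ge_atTop 1] with k hk
        rw [lagMismatch_eq hL hW, h8 k]
        push_cast
        rw [one_div, Real.pow_rpow_inv_natCast h10.le (by omega)]
      have h12 := tendsto_nhds_unique (hroot p hp1) h11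
      simp only
      rw [h12, Hm_one_eq σ L hL a b]
  · intro p hp1
    exact Real.exp_le_exp.2 (h3 p hp1)
  · obtain ⟨h4, h5, h6, h7⟩ := hκ p₀ h1
    have hlim := tendsto_of_bounds hW hsys.two_le (div_nonneg h4 hlogL.le)
      ((div_le_one hlogL).2 h5) hlow hup
    have e : (1 : ℝ) / (2 - κ p₀ / Real.log L) =
        Real.log L / Real.log ((L : ℝ) ^ 2 / Real.exp (κ p₀)) := by
      rw [Real.log_div (by positivity) (Real.exp_pos _).ne', Real.log_pow, Real.log_exp]
      have h8 : 2 * Real.log L - κ p₀ ≠ 0 := by linarith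
      have h9 : 2 - κ p₀ / Real.log L ≠ 0 := by
        have : κ p₀ / Real.log L ≤ 1 := (div_le_one hlogL).2 h5
        linarith
      push_cast
      field_simp
    rw [← e]
    exact hlim

end H95.Edit
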