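import Pool.Agent.H95.Edit.M2_Sub

/-! M3: growth of the mismatch numbers of pairs of letters (helper13). -/

namespace H95.Edit

open Finset

variable {A : Type} {L : ℕ} {s : A → ℕ → A}

lemma exists_uniform_upper {ι : Type} [Finite ι] (P : ι → ℝ → Prop)
    (hmono : ∀ i c c', c ≤ c' → P i c → P i c') (h : ∀ i, ∃ c, P i c) :
    ∃ c : ℝ, 0 ≤ c ∧ ∀ i, P i c := by
  choose f hf using h
  have hb : BddAbove (Set.range f) := (Set.finite_range f).bddAbove
  obtain ⟨M, hM⟩ := hb
  refine ⟨max M 0, le_max_right _ _, fun i => ?_⟩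
  exact hmono i _ _ ((hM ⟨i, rfl⟩).trans (le_max_left _ _)) (hf i)

lemma exists_uniform_lower {ι : Type} [Finite ι] (P : ι → ℝ → Prop)
    (hmono : ∀ i c c', 0 < c' → c' ≤ c → P i c → P i c') (h : ∀ i, ∃ c, 0 < c ∧ P i c) :
    ∃ c : ℝ, 0 < c ∧ c ≤ 1 ∧ ∀ i, P i c := by
  choose f hf0 hf using h
  obtain ⟨M, hM0, hM⟩ := exists_uniform_upper (fun i c => (f i)⁻¹ ≤ c)
    (fun i c c' h1 h2 => h2.trans h1) (fun i => ⟨_, le_rfl⟩)
  refine ⟨min 1 (M + 1)⁻¹, by positivity, min_le_left _ _, fun i => ?_⟩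
  refine hmono i (f i) _ (by positivity) ((min_le_right _ _).trans ?_) (hf i)
  rw [inv_le_comm₀ (by positivity) (hf0 i)]
  linarith [hM i]

lemma Hm_self (k : ℕ) (a : A) : Hm L s k a a = 0 := by
  unfold Hm
  simp

lemma Hm_comm (k : ℕ) (a b : A) : Hm L s k a b = Hm L s k b a := by
  classical
  unfold Hm
  congr 1
  ext r
  simp only [Finset.mem_filter]
  rw [ne_comm]

lemma Hm_triangle (k : ℕ) (a b c : A) : Hm L s k a c ≤ Hm L s k a b + Hm L s k b c := by
  classical
  unfold Hm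
  refine le_trans (Finset.card_le_card ?_) (Finset.card_union_le _ _)
  intro r hr
  rw [Finset.mem_filter] at hr
  rw [Finset.mem_union, Finset.mem_filter, Finset.mem_filter]
  by_cases h : sub L s k a r = sub L s k b r
  · right
    exact ⟨hr.1, fun h2 => hr.2 (h.trans h2)⟩
  · left
    exact ⟨hr.1, h⟩

lemma Hm_le (k : ℕ) (a b : A) : (Hm L s k a b : ℝ) ≤ (L : ℝ) ^ k := by
  classical
  have : Hm L s k a b ≤ L ^ k := by
    unfold Hm
    exact (Finset.card_filter_le _ _).trans (by rw [Finset.card_range])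
  exact_mod_cast this

lemma sub_one (a : A) (r : ℕ) (hr : r < L) : sub L s 1 a r = s a r := by
  simp [sub, Nat.mod_eq_of_lt hr]

lemma Hm_succ (hL : 2 ≤ L) (m : ℕ) (a b : A) :
    Hm L s (m + 1) a b = ∑ r ∈ range L, Hm L s m (s a r) (s b r) := by
  rw [Nat.add_comm m 1, Hm_add (by omega)]
  rw [pow_one]
  apply Finset.sum_congr rfl
  intro r hr
  rw [Finset.mem_range] at hr
  rw [sub_one a r hr, sub_one b r hr]

lemma pw_mono (hL : 2 ≤ L) {x y : ℝ} (h : x ≤ y) : (L : ℝ) ^ x ≤ (L : ℝ) ^ y :=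
  Real.rpow_le_rpow_of_exponent_le (by exact_mod_cast (by omega : 1 ≤ L)) h

lemma pw_pos (hL : 2 ≤ L) (x : ℝ) : 0 < (L : ℝ) ^ x :=
  Real.rpow_pos_of_pos (by exact_mod_cast (by omega : 0 < L)) _

lemma pw_add (hL : 2 ≤ L) (x y : ℝ) : (L : ℝ) ^ (x + y) = (L : ℝ) ^ x * (L : ℝ) ^ y :=
  Real.rpow_add (by exact_mod_cast (by omega : 0 < L)) _ _

theorem Qe.mono {η η' : ℝ} (h : η ≤ η') (hL : 2 ≤ L) {a b : A} (hab : Qe L s η a b) :
    Qe L s η' a b := by
  intro ε hε
  obtain ⟨C, hC⟩ := hab ε hε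
  refine ⟨max C 0, fun k => (hC k).trans ?_⟩
  calc C * (L : ℝ) ^ ((η + ε) * k) ≤ max C 0 * (L : ℝ) ^ ((η + ε) * k) := by
        have := pw_pos hL ((η + ε) * k)
        gcongr
        exact le_max_left _ _
    _ ≤ max C 0 * (L : ℝ) ^ ((η' + ε) * k) := by
        apply mul_le_mul_of_nonneg_left _ (le_max_right _ _)
        apply pw_mono hL
        have : (0 : ℝ) ≤ k := Nat.cast_nonneg k
        nlinarith

theorem Qe.compat (hL : 2 ≤ L) (η : ℝ) : Compat L s (Qe L s η) where
  equiv :=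
    { refl := fun a ε hε => ⟨0, fun k => by rw [Hm_self]; simp⟩
      symm := fun {a b} h ε hε => by
        obtain ⟨C, hC⟩ := h ε hε
        exact ⟨C, fun k => by rw [Hm_comm]; exact hC k⟩
      trans := fun {a b c} h1 h2 ε hε => by
        obtain ⟨C, hC⟩ := h1 ε hε
        obtain ⟨C', hC'⟩ := h2 ε hε
        refine ⟨C + C', fun k => ?_⟩
        have : (Hm L s k a c : ℝ) ≤ Hm L s k a b + Hm L s k b c := by
          exact_mod_cast Hm_triangle k a b c
        rw [add_mul]
        linarith [hC k, hC' k] }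
  step := by
    intro a b h r hr ε hε
    obtain ⟨C, hC⟩ := h ε hε
    refine ⟨C * (L : ℝ) ^ (η + ε), fun k => ?_⟩
    have h1 : Hm L s k (s a r) (s b r) ≤ Hm L s (k + 1) a b := by
      rw [Hm_succ hL]
      exact Finset.single_le_sum (f := fun r => Hm L s k (s a r) (s b r))
        (fun _ _ => Nat.zero_le _) (Finset.mem_range.2 hr)
    have h2 : (Hm L s k (s a r) (s b r) : ℝ) ≤ Hm L s (k + 1) a b := by exact_mod_cast h1
    refine h2.trans ((hC (k + 1)).trans (le_of_eq ?_))
    rw [mul_assoc, ← pw_add hL]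
    push_cast
    ring_nf

theorem Qe.one (hL : 2 ≤ L) (a b : A) : Qe L s 1 a b := by
  intro ε hε
  refine ⟨1, fun k => ?_⟩
  rw [one_mul]
  refine (Hm_le k a b).trans ?_
  rw [← Real.rpow_natCast]
  apply pw_mono hL
  have : (0 : ℝ) ≤ k := Nat.cast_nonneg k
  nlinarith

/-- converse of the compatibility -/
theorem Qe.of_step (hL : 2 ≤ L) (η : ℝ) (a b : A) (h : ∀ r : ℕ, r < L → Qe L s η (s a r) (s b r)) :
    Qe L s η a b := by
  intro ε hε
  obtain ⟨C, hC0, hC⟩ := exists_uniform_upper (ι := Fin L)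
    (fun r C => ∀ k : ℕ, (Hm L s k (s a r) (s b r) : ℝ) ≤ C * (L : ℝ) ^ ((η + ε) * k))
    (fun r c c' hcc hc k => (hc k).trans (by
      have := pw_pos hL ((η + ε) * k)
      gcongr)) (fun r => h r r.2 ε hε)
  refine ⟨max 1 (L * C * (L : ℝ) ^ (-(η + ε))), fun k => ?_⟩
  rcases k with _ | k
  · have := Hm_le (L := L) (s := s) 0 a b
    simp only [pow_zero] at this
    simp only [Nat.cast_zero, mul_zero, Real.rpow_zero, mul_one]
    exact this.trans (le_max_left _ _)
  · rw [Hm_succ hL]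
    push_cast
    calc ∑ r ∈ range L, (Hm L s k (s a r) (s b r) : ℝ)
        ≤ ∑ r ∈ range L, C * (L : ℝ) ^ ((η + ε) * k) := by
          apply Finset.sum_le_sum
          intro r hr
          exact hC ⟨r, Finset.mem_range.1 hr⟩ k
      _ = (L * C * (L : ℝ) ^ (-(η + ε))) * (L : ℝ) ^ ((η + ε) * (k + 1)) := by
          rw [Finset.sum_const, Finset.card_range, nsmul_eq_mul]
          have : (η + ε) * (k + 1) = (η + ε) * k + (η + ε) := by ring
          rw [this, pw_add hL, Real.rpow_neg (by positivity)]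
          have := pw_pos hL (η + ε)
          field_simp
      _ ≤ max 1 (L * C * (L : ℝ) ^ (-(η + ε))) * (L : ℝ) ^ ((η + ε) * (k + 1)) := by
          have := pw_pos hL ((η + ε) * (k + 1))
          gcongr
          exact le_max_right _ _

/-- right continuity: the relation at `η` is the relation slightly above `η` -/
theorem Qe.right_cont [Finite A] (hL : 2 ≤ L) (η : ℝ) :
    ∃ δ : ℝ, 0 < δ ∧ ∀ a b, Qe L s (η + δ) a b → Qe L s η a b := by
  obtain ⟨δ, hδ, -, h⟩ := exists_uniform_lower (ι := A × A)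
    (fun p δ => Qe L s (η + δ) p.1 p.2 → Qe L s η p.1 p.2)
    (fun p c c' h1 h2 h3 h4 => h3 (Qe.mono (by linarith) hL h4)) (fun p => by
      by_contra hno
      push Not at hno
      have h1 : ¬ Qe L s η p.1 p.2 := (hno 1 one_pos).2
      apply h1
      intro ε hε
      obtain ⟨C, hC⟩ := (hno (ε / 2) (by linarith)).1 (ε / 2) (by linarith)
      refine ⟨C, fun k => (hC k).trans (le_of_eq ?_)⟩
      congr 2
      ring)
  exact ⟨δ, hδ, fun a b => h (a, b)⟩

/-- for a negative exponent the images coincide from some level on -/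
theorem Qe.of_neg [Finite A] (hL : 2 ≤ L) {η : ℝ} (hη : η < 0) :
    ∃ k : ℕ, ∀ a b, Qe L s η a b → ∀ r : ℕ, r < L ^ k → sub L s k a r = sub L s k b r := by
  classical
  have key : ∀ p : A × A, ∃ K : ℝ, ∀ k : ℕ, K ≤ k → Qe L s η p.1 p.2 → Hm L s k p.1 p.2 = 0 := by
    intro p
    by_cases hp : Qe L s η p.1 p.2
    · obtain ⟨C, hC⟩ := hp (-η / 2) (by linarith)
      have hL0 : (0 : ℝ) < L := by positivity
      have hlt : (L : ℝ) ^ (η / 2) < 1 := Real.rpow_lt_one_of_one_lt_of_neg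
        (by exact_mod_cast (by omega : 1 < L)) (by linarith)
      have h0 : 0 ≤ (L : ℝ) ^ (η / 2) := (pw_pos hL _).le
      have ht : Filter.Tendsto (fun k : ℕ => C * ((L : ℝ) ^ (η / 2)) ^ k) Filter.atTop
          (nhds (C * 0)) :=
        (tendsto_pow_atTop_nhds_zero_of_lt_one h0 hlt).const_mul C
      rw [mul_zero] at ht
      have hev := ht.eventually (gt_mem_nhds (show (0 : ℝ) < 1 by norm_num))
      obtain ⟨K, hK⟩ := Filter.eventually_atTop.1 hev
      refine ⟨K, fun k hk _ => ?_⟩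
      have h1 := hK k (by exact_mod_cast hk)
      have h2 := hC k
      have h3 : (L : ℝ) ^ ((η + -η / 2) * k) = ((L : ℝ) ^ (η / 2)) ^ k := by
        rw [← Real.rpow_natCast, ← Real.rpow_mul hL0.le]
        congr 1
        ring
      rw [h3] at h2
      have h4 : (Hm L s k p.1 p.2 : ℝ) < 1 := lt_of_le_of_lt h2 h1
      have h5 : Hm L s k p.1 p.2 < 1 := by exact_mod_cast h4
      omega
    · exact ⟨0, fun k _ h => absurd h hp⟩
  obtain ⟨K, hK0, hK⟩ := exists_uniform_upper
    (fun (p : A × A) K => ∀ k : ℕ, K ≤ k → Qe L s η p.1 p.2 → Hm L s k p.1 p.2 = 0)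
    (fun p c c' h1 h2 k hk => h2 k (h1.trans hk)) key
  obtain ⟨k, hk⟩ := exists_nat_ge K
  refine ⟨k, fun a b hab r hr => ?_⟩
  have h1 := hK (a, b) k hk hab
  unfold Hm at h1
  rw [Finset.card_eq_zero] at h1
  by_contra h2
  have : r ∈ (range (L ^ k)).filter (fun r => sub L s k a r ≠ sub L s k b r) :=
    Finset.mem_filter.2 ⟨Finset.mem_range.2 hr, h2⟩
  rw [h1] at this
  simp at this

/-- pairs outside `Qe η` which occur as sub-pairs of `(a, b)` -/
def Reach (L : ℕ) (s : A → ℕ → A) (η : ℝ) (a b : A) (p : A × A) : Prop :=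
  ¬ Qe L s η p.1 p.2 ∧ ∃ j r : ℕ, r < L ^ j ∧ p = (sub L s j a r, sub L s j b r)

lemma Reach.sub (hL : 2 ≤ L) {η : ℝ} {a b : A} {p : A × A} (hp : Reach L s η a b p) (k r : ℕ)
    (hr : r < L ^ k) (h : ¬ Qe L s η (sub L s k p.1 r) (sub L s k p.2 r)) :
    Reach L s η a b (sub L s k p.1 r, sub L s k p.2 r) := by
  obtain ⟨-, j, r', hr', rfl⟩ := hp
  have hpos : 0 < L ^ k := Nat.pow_pos (by omega)
  refine ⟨h, j + k, r' * L ^ k + r, ?_, ?_⟩
  · calc r' * L ^ k + r < r' * L ^ k + L ^ k := by omega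
      _ = (r' + 1) * L ^ k := by ring
      _ ≤ L ^ j * L ^ k := Nat.mul_le_mul_right _ hr'
      _ = L ^ (j + k) := (pow_add _ _ _).symm
  · have h1 : (r' * L ^ k + r) / L ^ k = r' := by
      rw [Nat.add_comm, Nat.add_mul_div_right _ _ hpos, Nat.div_eq_of_lt hr, Nat.zero_add]
    have h2 : (r' * L ^ k + r) % L ^ k = r := by
      rw [Nat.add_comm, Nat.add_mul_mod_self_right, Nat.mod_eq_of_lt hr]
    rw [sub_add, sub_add, h1, h2]

/-- every pair outside `Q` has a child outside `Q` -/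
lemma NQ_pos (hL : 2 ≤ L) {η : ℝ} {a b : A} (h : ¬ Qe L s η a b) (k : ℕ) :
    1 ≤ NQ L s (Qe L s η) k a b := by
  classical
  induction k generalizing a b with
  | zero =>
    unfold NQ
    rw [Nat.one_le_iff_ne_zero, ← Nat.pos_iff_ne_zero, Finset.card_pos]
    exact ⟨0, Finset.mem_filter.2 ⟨by simp, h⟩⟩
  | succ k ih =>
    have hex : ∃ r : ℕ, r < L ∧ ¬ Qe L s η (s a r) (s b r) := by
      by_contra hno
      push Not at hno
      exact h (Qe.of_step hL η a b hno)
    obtain ⟨r, hr, hn⟩ := hex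
    rw [Nat.add_comm k 1, NQ_add (by omega)]
    refine (ih hn).trans ?_
    have := Finset.single_le_sum
      (f := fun r => NQ L s (Qe L s η) k (sub L s 1 a r) (sub L s 1 b r))
      (fun _ _ => Nat.zero_le _) (Finset.mem_range.2 (show r < L ^ 1 by simpa using hr))
    simp only [sub_one a r hr, sub_one b r hr] at this
    exact this

lemma NQ_mono (hL : 2 ≤ L) {η : ℝ} (a b : A) (k m : ℕ) :
    NQ L s (Qe L s η) k a b ≤ NQ L s (Qe L s η) (k + m) a b := by
  classical
  rw [NQ_add (by omega)]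
  calc NQ L s (Qe L s η) k a b
      = ∑ r ∈ (range (L ^ k)).filter (fun r => ¬ Qe L s η (sub L s k a r) (sub L s k b r)), 1 := by
        rw [Finset.sum_const, smul_eq_mul, mul_one]
        unfold NQ
        congr
    _ ≤ ∑ r ∈ (range (L ^ k)).filter (fun r => ¬ Qe L s η (sub L s k a r) (sub L s k b r)),
          NQ L s (Qe L s η) m (sub L s k a r) (sub L s k b r) := by
        apply Finset.sum_le_sum
        intro r hr
        exact NQ_pos hL (Finset.mem_filter.1 hr).2 m
    _ ≤ ∑ r ∈ range (L ^ k), NQ L s (Qe L s η) m (sub L s k a r) (sub L s k b r) :=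
        Finset.sum_le_sum_of_subset (Finset.filter_subset _ _)

lemma NQ_sub_le (hL : 2 ≤ L) {η : ℝ} (a b : A) (j m r : ℕ) (hr : r < L ^ j) :
    NQ L s (Qe L s η) m (sub L s j a r) (sub L s j b r) ≤ NQ L s (Qe L s η) (j + m) a b := by
  rw [NQ_add (by omega)]
  exact Finset.single_le_sum
    (f := fun r => NQ L s (Qe L s η) m (sub L s j a r) (sub L s j b r))
    (fun _ _ => Nat.zero_le _) (Finset.mem_range.2 hr)

/-- the key step: at every level some reachable pair has many sub-pairs outside `Q` -/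
lemma exists_big [Finite A] (hL : 2 ≤ L) {η : ℝ} {a b : A} (hab : ¬ Qe L s η a b) (i : ℕ)
    (hi : 1 ≤ i) : ∃ p, Reach L s η a b p ∧ (L : ℝ) ^ (η * i) ≤ NQ L s (Qe L s η) i p.1 p.2 := by
  classical
  by_contra hno
  push Not at hno
  apply hab
  intro ε hε
  -- uniform constant for the pairs in `Q`
  obtain ⟨C, hC0, hC⟩ := exists_uniform_upper (ι := A × A)
    (fun p C => Qe L s η p.1 p.2 → ∀ k : ℕ, (Hm L s k p.1 p.2 : ℝ) ≤ C * (L : ℝ) ^ ((η + ε) * k))
    (fun p c c' hcc hc hq k => (hc hq k).trans (by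
      have := pw_pos hL ((η + ε) * k)
      gcongr)) (fun p => by
      by_cases hp : Qe L s η p.1 p.2
      · obtain ⟨C, hC⟩ := hp ε hε
        exact ⟨C, fun _ => hC⟩
      · exact ⟨0, fun h => absurd h hp⟩)
  have hi0 : (0 : ℝ) < i := by exact_mod_cast (by omega : 0 < i)
  have hg : 0 < (L : ℝ) ^ ((η + ε) * i) - (L : ℝ) ^ (η * i) := by
    rw [sub_pos]
    apply Real.rpow_lt_rpow_of_exponent_lt (by exact_mod_cast (by omega : 1 < L))
    nlinarith
  set g : ℝ := (L : ℝ) ^ ((η + ε) * i) - (L : ℝ) ^ (η * i) with hgdef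
  set D : ℝ := max ((L : ℝ) ^ i * (L : ℝ) ^ (|η + ε| * i)) ((L : ℝ) ^ i * C / g) with hD
  have hD0 : 0 ≤ D := le_trans (by positivity) (le_max_left _ _)
  have key : ∀ k : ℕ, ∀ p, Reach L s η a b p →
      (Hm L s k p.1 p.2 : ℝ) ≤ D * (L : ℝ) ^ ((η + ε) * k) := by
    intro k
    induction k using Nat.strong_induction_on with
    | _ k ih =>
      intro p hp
      by_cases hk : k < i
      · have hL1 : (1 : ℝ) ≤ L := by exact_mod_cast (by omega : 1 ≤ L)
        calc (Hm L s k p.1 p.2 : ℝ) ≤ (L : ℝ) ^ k := Hm_le _ _ _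
          _ ≤ (L : ℝ) ^ i := pow_le_pow_right₀ hL1 hk.le
          _ = (L : ℝ) ^ i * 1 := (mul_one _).symm
          _ ≤ (L : ℝ) ^ i * ((L : ℝ) ^ (|η + ε| * i) * (L : ℝ) ^ ((η + ε) * k)) := by
              apply mul_le_mul_of_nonneg_left _ (by positivity)
              rw [← pw_add hL]
              apply Real.one_le_rpow hL1
              have h1 : (k : ℝ) ≤ i := by exact_mod_cast hk.le
              have h2 : (0 : ℝ) ≤ k := Nat.cast_nonneg k
              have h3 := neg_abs_le (η + ε)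
              have h4 := abs_nonneg (η + ε)
              nlinarith
          _ = ((L : ℝ) ^ i * (L : ℝ) ^ (|η + ε| * i)) * (L : ℝ) ^ ((η + ε) * k) := by ring
          _ ≤ D * (L : ℝ) ^ ((η + ε) * k) := by
              have := pw_pos hL ((η + ε) * k)
              gcongr
              exact le_max_left _ _
      · obtain ⟨m, rfl⟩ : ∃ m, k = i + m := ⟨k - i, by omega⟩
        have ihm := ih m (by omega)
        have hX : 0 < (L : ℝ) ^ ((η + ε) * m) := pw_pos hL _
        rw [Hm_add (by omega)]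
        push_cast
        have hsplit : ∀ r ∈ range (L ^ i), (Hm L s m (sub L s i p.1 r) (sub L s i p.2 r) : ℝ) ≤
            (if ¬ Qe L s η (sub L s i p.1 r) (sub L s i p.2 r) then
              D * (L : ℝ) ^ ((η + ε) * m) else 0) + C * (L : ℝ) ^ ((η + ε) * m) := by
          intro r hr
          rw [Finset.mem_range] at hr
          by_cases hq : Qe L s η (sub L s i p.1 r) (sub L s i p.2 r)
          · rw [if_neg (by simpa using hq), zero_add]
            exact hC (sub L s i p.1 r, sub L s i p.2 r) hq m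
          · rw [if_pos hq]
            have := ihm _ (hp.sub hL i r hr hq)
            have h2 : 0 ≤ C * (L : ℝ) ^ ((η + ε) * m) := by positivity
            linarith
        refine (Finset.sum_le_sum hsplit).trans ?_
        rw [Finset.sum_add_distrib, ← Finset.sum_filter, Finset.sum_const, Finset.sum_const,
          nsmul_eq_mul, nsmul_eq_mul, Finset.card_range]
        have hN : (((range (L ^ i)).filter
            (fun r => ¬ Qe L s η (sub L s i p.1 r) (sub L s i p.2 r))).card : ℝ) ≤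
            (L : ℝ) ^ (η * i) := by
          have h1 := (hno p hp).le
          unfold NQ at h1
          convert h1 using 3
        calc (((range (L ^ i)).filter
              (fun r => ¬ Qe L s η (sub L s i p.1 r) (sub L s i p.2 r))).card : ℝ) *
              (D * (L : ℝ) ^ ((η + ε) * m)) + ((L ^ i : ℕ) : ℝ) * (C * (L : ℝ) ^ ((η + ε) * m))
            ≤ (L : ℝ) ^ (η * i) * (D * (L : ℝ) ^ ((η + ε) * m)) +
              ((L ^ i : ℕ) : ℝ) * (C * (L : ℝ) ^ ((η + ε) * m)) := by gcongr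
          _ = ((L : ℝ) ^ (η * i) * D + (L : ℝ) ^ i * C) * (L : ℝ) ^ ((η + ε) * m) := by
              push_cast
              ring
          _ ≤ ((L : ℝ) ^ ((η + ε) * i) * D) * (L : ℝ) ^ ((η + ε) * m) := by
              apply mul_le_mul_of_nonneg_right _ hX.le
              have h1 : (L : ℝ) ^ i * C / g ≤ D := le_max_right _ _
              rw [div_le_iff₀ hg] at h1
              rw [hgdef] at h1
              linarith
          _ = D * (L : ℝ) ^ ((η + ε) * ((i : ℝ) + m)) := by
              rw [mul_add, pw_add hL]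
              ring
  refine ⟨D, fun k => key k (a, b) ⟨hab, 0, 0, by simp, ?_⟩⟩
  simp [sub]

/-- **Growth.** Pairs outside `Qe η` have at least `c L ^ (η k)` sub-pairs outside `Qe η`. -/
theorem Qe.growth [Finite A] (hL : 2 ≤ L) (η : ℝ) :
    ∃ c : ℝ, 0 < c ∧ c ≤ 1 ∧ ∀ a b, ¬ Qe L s η a b → ∀ k : ℕ,
      c * (L : ℝ) ^ (η * k) ≤ NQ L s (Qe L s η) k a b := by
  classical
  have hL1 : (1 : ℝ) ≤ L := by exact_mod_cast (by omega : 1 ≤ L)
  obtain ⟨c, hc, hc1, h⟩ := exists_uniform_lower (ι := A × A)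
    (fun p c => ¬ Qe L s η p.1 p.2 → ∀ k : ℕ,
      c * (L : ℝ) ^ (η * k) ≤ NQ L s (Qe L s η) k p.1 p.2)
    (fun p c c' h1 h2 h3 h4 k => (mul_le_mul_of_nonneg_right h2 (pw_pos hL _).le).trans (h3 h4 k))
    (fun p => by
      by_cases hp : Qe L s η p.1 p.2
      · exact ⟨1, one_pos, fun h => absurd hp h⟩
      -- levels at which the reachable pairs occur
      have hlev : ∃ R : ℕ, ∀ q, Reach L s η p.1 p.2 q → ∃ j r : ℕ, j ≤ R ∧ r < L ^ j ∧
          q = (sub L s j p.1 r, sub L s j p.2 r) := by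
        have hex : ∀ q : A × A, ∃ j : ℕ, Reach L s η p.1 p.2 q → ∃ r : ℕ, r < L ^ j ∧
            q = (sub L s j p.1 r, sub L s j p.2 r) := by
          intro q
          by_cases hq : Reach L s η p.1 p.2 q
          · obtain ⟨-, j, r, h1, h2⟩ := hq
            exact ⟨j, fun _ => ⟨r, h1, h2⟩⟩
          · exact ⟨0, fun h => absurd h hq⟩
        choose f hf using hex
        obtain ⟨R, hR⟩ := (Set.finite_range f).bddAbove
        refine ⟨R, fun q hq => ?_⟩
        obtain ⟨r, h1, h2⟩ := hf q hq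
        exact ⟨f q, r, hR ⟨q, rfl⟩, h1, h2⟩
      obtain ⟨R, hR⟩ := hlev
      refine ⟨(L : ℝ) ^ (-(|η| * R)), pw_pos hL _, fun _ k => ?_⟩
      rw [← pw_add hL]
      have habs := neg_abs_le η
      have habs' := le_abs_self η
      have habs0 := abs_nonneg η
      have hk0 : (0 : ℝ) ≤ k := Nat.cast_nonneg k
      by_cases hk : k ≤ R
      · have h1 : (L : ℝ) ^ (-(|η| * R) + η * k) ≤ 1 := by
          apply Real.rpow_le_one_of_one_le_of_nonpos hL1
          have : (k : ℝ) ≤ R := by exact_mod_cast hk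
          nlinarith
        have h2 : (1 : ℝ) ≤ NQ L s (Qe L s η) k p.1 p.2 := by
          exact_mod_cast NQ_pos hL hp k
        exact h1.trans h2
      · obtain ⟨m, rfl⟩ : ∃ m, k = R + m := ⟨k - R, by omega⟩
        obtain ⟨q, hq, hbig⟩ := exists_big hL hp m (by omega)
        obtain ⟨j, r, hj, hr, rfl⟩ := hR q hq
        have h1 := NQ_sub_le hL (η := η) (s := s) p.1 p.2 j m r hr
        have h2 := NQ_mono hL (η := η) (s := s) p.1 p.2 (j + m) (R - j)
        have h3 : j + m + (R - j) = R + m := by omega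
        rw [h3] at h2
        have h4 : (NQ L s (Qe L s η) m (sub L s j p.1 r) (sub L s j p.2 r) : ℝ) ≤
            NQ L s (Qe L s η) (R + m) p.1 p.2 := by exact_mod_cast h1.trans h2
        refine le_trans ?_ (hbig.trans h4)
        apply pw_mono hL
        push_cast
        have : (0 : ℝ) ≤ R := Nat.cast_nonneg R
        nlinarith)
  exact ⟨c, hc, hc1, fun a b hab => h (a, b) hab⟩

end H95.Edit
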