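import Mathlib

/-! M4a: the theorem of Morse and Hedlund for two-sided sequences (helper13). -/

namespace H95.Edit

open Finset

/-- **Morse and Hedlund** for the sequence `π ∘ z`: if there are at most `n` different words of
length `n`, the sequence is periodic. -/
theorem morse_hedlund {B : Type} [Finite B] (w : ℤ → B) (n : ℕ) (hn : 1 ≤ n)
    (h : {u : Fin n → B | ∃ a : ℤ, ∀ i : Fin n, u i = w (a + (i : ℕ))}.ncard ≤ n) :
    ∃ p : ℕ, 1 ≤ p ∧ ∀ m : ℤ, w m = w (m + p) := by
  classical
  set f : (k : ℕ) → ℤ → (Fin k → B) := fun k a i => w (a + (i : ℕ)) with hf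
  have hset : {u : Fin n → B | ∃ a : ℤ, ∀ i : Fin n, u i = w (a + (i : ℕ))} = Set.range (f n) := by
    ext u
    constructor
    · rintro ⟨a, ha⟩
      exact ⟨a, (funext ha).symm⟩
    · rintro ⟨a, rfl⟩
      exact ⟨a, fun i => rfl⟩
  rw [hset] at h
  have hex : ∃ k, k < n ∧ (Set.range (f (k + 1))).ncard ≤ (Set.range (f k)).ncard := by
    by_contra hno
    push Not at hno
    have : ∀ k, k ≤ n → k + 1 ≤ (Set.range (f k)).ncard := by
      intro k
      induction k with
      | zero =>
        intro _
        have : (Set.range (f 0)).Nonempty := ⟨_, ⟨0, rfl⟩⟩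
        have := (Set.ncard_pos (Set.toFinite _)).2 this
        omega
      | succ k ih =>
        intro hk
        have h1 := ih (by omega)
        have h2 := hno k (by omega)
        omega
    have := this n le_rfl
    omega
  obtain ⟨k, -, hk⟩ := hex
  -- right determinism
  have e1 : (fun u : Fin (k + 1) → B => fun i : Fin k => u i.castSucc) '' Set.range (f (k + 1)) =
      Set.range (f k) := by
    ext u
    constructor
    · rintro ⟨_, ⟨a, rfl⟩, rfl⟩
      exact ⟨a, by funext i; simp [hf]⟩
    · rintro ⟨a, rfl⟩
      exact ⟨f (k + 1) a, ⟨a, rfl⟩, by funext i; simp [hf]⟩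
  have e2 : (fun u : Fin (k + 1) → B => fun i : Fin k => u i.succ) '' Set.range (f (k + 1)) =
      Set.range (f k) := by
    ext u
    constructor
    · rintro ⟨_, ⟨a, rfl⟩, rfl⟩
      exact ⟨a + 1, by funext i; simp [hf]; congr 1; ring⟩
    · rintro ⟨a, rfl⟩
      exact ⟨f (k + 1) (a - 1), ⟨a - 1, rfl⟩, by funext i; simp [hf]⟩
  have i1 : Set.InjOn (fun u : Fin (k + 1) → B => fun i : Fin k => u i.castSucc)
      (Set.range (f (k + 1))) := by
    apply Set.injOn_of_ncard_image_eq _ (Set.toFinite _)
    apply le_antisymm (Set.ncard_image_le (Set.toFinite _))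
    rw [e1]
    exact hk
  have i2 : Set.InjOn (fun u : Fin (k + 1) → B => fun i : Fin k => u i.succ)
      (Set.range (f (k + 1))) := by
    apply Set.injOn_of_ncard_image_eq _ (Set.toFinite _)
    apply le_antisymm (Set.ncard_image_le (Set.toFinite _))
    rw [e2]
    exact hk
  have r1 : ∀ a b : ℤ, (∀ i : ℕ, i < k → w (a + i) = w (b + i)) → w (a + k) = w (b + k) := by
    intro a b hab
    have h1 : f (k + 1) a = f (k + 1) b := by
      apply i1 ⟨a, rfl⟩ ⟨b, rfl⟩
      funext i
      simpa [hf] using hab i i.2
    have h2 := congrFun h1 (Fin.last k)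
    simpa [hf] using h2
  have r2 : ∀ a b : ℤ, (∀ i : ℕ, i < k → w (a + 1 + i) = w (b + 1 + i)) → w a = w b := by
    intro a b hab
    have h1 : f (k + 1) a = f (k + 1) b := by
      apply i2 ⟨a, rfl⟩ ⟨b, rfl⟩
      funext i
      have := hab i i.2
      simp only [hf, Fin.val_succ]
      push_cast
      rw [show a + ((i : ℕ) + 1 : ℤ) = a + 1 + (i : ℕ) by ring,
        show b + ((i : ℕ) + 1 : ℤ) = b + 1 + (i : ℕ) by ring]
      exact this
    have h2 := congrFun h1 0
    simpa [hf] using h2
  have s1 : ∀ a b : ℤ, (∀ i : ℕ, i < k → w (a + i) = w (b + i)) →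
      ∀ i : ℕ, i < k → w (a + 1 + i) = w (b + 1 + i) := by
    intro a b hab i hi
    by_cases hik : i + 1 < k
    · have := hab (i + 1) hik
      push_cast at this
      rw [show a + 1 + (i : ℤ) = a + (i + 1) by ring, show b + 1 + (i : ℤ) = b + (i + 1) by ring]
      exact this
    · have hik' : k = i + 1 := by omega
      have := r1 a b hab
      rw [hik'] at this
      push_cast at this
      rw [show a + 1 + (i : ℤ) = a + (i + 1) by ring, show b + 1 + (i : ℤ) = b + (i + 1) by ring]
      exact this
  have s2 : ∀ a b : ℤ, (∀ i : ℕ, i < k → w (a + i) = w (b + i)) →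
      ∀ i : ℕ, i < k → w (a - 1 + i) = w (b - 1 + i) := by
    intro a b hab i hi
    rcases Nat.eq_zero_or_pos i with rfl | hi0
    · have := r2 (a - 1) (b - 1) (by
        intro i hi
        rw [show a - 1 + 1 + (i : ℤ) = a + i by ring, show b - 1 + 1 + (i : ℤ) = b + i by ring]
        exact hab i hi)
      simpa using this
    · obtain ⟨j, rfl⟩ : ∃ j, i = j + 1 := ⟨i - 1, by omega⟩
      have := hab j (by omega)
      push_cast
      rw [show a - 1 + ((j : ℤ) + 1) = a + j by ring, show b - 1 + ((j : ℤ) + 1) = b + j by ring]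
      exact this
  -- two equal windows
  obtain ⟨a, b, hab, hne⟩ : ∃ a b : ℤ, f k a = f k b ∧ a ≠ b := by
    by_contra hno
    push Not at hno
    have : Function.Injective (f k) := fun a b hab => hno a b hab
    exact not_injective_infinite_finite (f k) this
  have main : ∀ a b : ℤ, a < b → f k a = f k b → ∃ p : ℕ, 1 ≤ p ∧ ∀ m : ℤ, w m = w (m + p) := by
    intro a b hlt hfab
    have h0 : ∀ i : ℕ, i < k → w (a + i) = w (b + i) := by
      intro i hi
      have := congrFun hfab ⟨i, hi⟩
      simpa [hf] using this
    have hall : ∀ j : ℤ, ∀ i : ℕ, i < k → w (a + j + i) = w (b + j + i) := by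
      intro j
      induction j using Int.induction_on with
      | zero => simpa using h0
      | succ j ih =>
        have := s1 (a + j) (b + j) ih
        intro i hi
        rw [show a + ((j : ℤ) + 1) + i = a + j + 1 + i by ring,
          show b + ((j : ℤ) + 1) + i = b + j + 1 + i by ring]
        exact this i hi
      | pred j ih =>
        have := s2 (a + -j) (b + -j) ih
        intro i hi
        rw [show a + (-(j : ℤ) - 1) + i = a + -j - 1 + i by ring,
          show b + (-(j : ℤ) - 1) + i = b + -j - 1 + i by ring]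
        exact this i hi
    refine ⟨(b - a).toNat, by omega, fun m => ?_⟩
    have h1 := r2 (a + (m - a)) (b + (m - a)) (by
      intro i hi
      have := hall (m - a + 1) i hi
      rw [show a + (m - a) + 1 + (i : ℤ) = a + (m - a + 1) + i by ring,
        show b + (m - a) + 1 + (i : ℤ) = b + (m - a + 1) + i by ring]
      exact this)
    rw [show a + (m - a) = m by ring] at h1
    rw [h1]
    congr 1
    have : ((b - a).toNat : ℤ) = b - a := Int.toNat_of_nonneg (by omega)
    rw [this]
    ring
  rcases lt_or_gt_of_ne hne with hlt | hlt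
  · exact main a b hlt hab
  · exact main b a hlt hab.symm

end H95.Edit
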