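import Pool.Agent.H95.Edit.M2_Sub
import Pool.Agent.H95.Edit.M4a_MH

/-! M4: recognizability modulo `Q`. -/

namespace H95.Edit

open Finset

variable {A : Type} {L : ℕ} {s : A → ℕ → A} {z : ℤ → A} {Q : A → A → Prop}

/-- `g` is a possible misregistration at level `i` -/
def Mis (L : ℕ) (z : ℤ → A) (Q : A → A → Prop) (i : ℕ) (g : ℤ) : Prop :=
  ∀ N : ℕ, ∃ p q : ℤ, ∀ n : ℕ, n < N →
    Q (z (p * (L : ℤ) ^ i + n)) (z (q * (L : ℤ) ^ i + g + n))

/-- agreement of length `N` with the misregistration `g` at level `i` -/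
def MisN (L : ℕ) (z : ℤ → A) (Q : A → A → Prop) (i : ℕ) (g : ℤ) (N : ℕ) : Prop :=
  ∃ p q : ℤ, ∀ n : ℕ, n < N →
    Q (z (p * (L : ℤ) ^ i + n)) (z (q * (L : ℤ) ^ i + g + n))

theorem MisN.mono {i : ℕ} {g : ℤ} {N M : ℕ} (h : MisN L z Q i g M) (hNM : N ≤ M) :
    MisN L z Q i g N := by
  obtain ⟨p, q, hpq⟩ := h
  exact ⟨p, q, fun n hn => hpq n (lt_of_lt_of_le hn hNM)⟩

/-- pigeonhole principle for misregistrations -/
theorem exists_mis_of_forall (i : ℕ) (G : ℕ → ℤ) (P : ℕ → Prop) (m : ℕ)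
    (h : ∀ N, ∃ r, r < m ∧ P r ∧ MisN L z Q i (G r) N) :
    ∃ r, r < m ∧ P r ∧ Mis L z Q i (G r) := by
  by_contra hcon
  have h1 : ∀ r, ∃ N, r < m → P r → ¬ MisN L z Q i (G r) N := by
    intro r
    by_cases hr : r < m ∧ P r
    · have h2 : ¬ ∀ N, MisN L z Q i (G r) N := fun h3 => hcon ⟨r, hr.1, hr.2, h3⟩
      obtain ⟨N, hN⟩ := not_forall.mp h2
      exact ⟨N, fun _ _ => hN⟩
    · exact ⟨0, fun h3 h4 => absurd ⟨h3, h4⟩ hr⟩
  choose N hN using h1
  obtain ⟨r, hr, hP, hM⟩ := h (∑ r ∈ range m, N r)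
  exact hN r hr hP (hM.mono (Finset.single_le_sum (f := N) (fun _ _ => Nat.zero_le _)
    (Finset.mem_range.mpr hr)))

theorem Sys.posL (h : Sys L s z) (i : ℕ) : 0 < L ^ i :=
  pow_pos (by have := h.two_le; omega) i

theorem Sys.blockQ (h : Sys L s z) (hQ : Compat L s Q) (i : ℕ) {a b : ℤ} {K : ℕ}
    (hab : ∀ j : ℕ, j < K → Q (z (a + j)) (z (b + j))) (m : ℕ) (hm : m < K * L ^ i) :
    Q (z (a * (L : ℤ) ^ i + m)) (z (b * (L : ℤ) ^ i + m)) := by
  have hL := h.posL i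
  have h1 : m / L ^ i < K := Nat.div_lt_of_lt_mul (by rw [mul_comm]; exact hm)
  have e : ∀ c : ℤ, c * (L : ℤ) ^ i + (m : ℤ) =
      (L : ℤ) ^ i * (c + ((m / L ^ i : ℕ) : ℤ)) + ((m % L ^ i : ℕ) : ℤ) := by
    intro c
    have h2 : (m : ℤ) = (L : ℤ) ^ i * ((m / L ^ i : ℕ) : ℤ) + ((m % L ^ i : ℕ) : ℤ) := by
      exact_mod_cast (Nat.div_add_mod m (L ^ i)).symm
    linear_combination h2
  rw [e a, e b, h.sub_eq i _ _ (Nat.mod_lt _ hL), h.sub_eq i _ _ (Nat.mod_lt _ hL)]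
  exact hQ.sub i _ _ (hab _ h1) _ (Nat.mod_lt _ hL)

theorem compat_eq : Compat L s (fun a b : A => a = b) where
  equiv := eq_equivalence
  step := by
    intro a b hab r _
    rw [hab]

theorem Sys.block (h : Sys L s z) (i : ℕ) {a b : ℤ} {K : ℕ}
    (hab : ∀ j : ℕ, j < K → z (a + j) = z (b + j)) (m : ℕ) (hm : m < K * L ^ i) :
    z (a * (L : ℤ) ^ i + m) = z (b * (L : ℤ) ^ i + m) :=
  h.blockQ compat_eq i hab m hm

theorem Mis.shift {i : ℕ} {g : ℤ} (h : Mis L z Q i g) (k : ℤ) :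
    Mis L z Q i (g + k * (L : ℤ) ^ i) := by
  intro N
  obtain ⟨p, q, hpq⟩ := h N
  refine ⟨p, q - k, fun n hn => ?_⟩
  have e : (q - k) * (L : ℤ) ^ i + (g + k * (L : ℤ) ^ i) + (n : ℤ) =
    q * (L : ℤ) ^ i + g + n := by ring
  rw [e]
  exact hpq n hn

theorem Mis.zero (hQ : Compat L s Q) (i : ℕ) : Mis L z Q i 0 := by
  intro N
  refine ⟨0, 0, fun n _ => ?_⟩
  rw [add_zero]
  exact hQ.equiv.refl _

theorem Mis.add_aux (h : Sys L s z) (hQ : Compat L s Q) {i : ℕ} {g : ℕ} {g' : ℤ}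
    (hg : Mis L z Q i g) (hg' : Mis L z Q i g') : Mis L z Q i (g + g') := by
  intro N
  have hL := h.posL i
  obtain ⟨R, hR⟩ := h.recur (N + g + 1)
  obtain ⟨p', q', h2⟩ := hg' ((N + g + 1) * L ^ i)
  obtain ⟨p, q, h1⟩ := hg (R * L ^ i + N)
  obtain ⟨t, ht, h3⟩ := hR p' q
  refine ⟨p + t, q', fun n hn => ?_⟩
  have b1 : t * L ^ i + n < R * L ^ i + N := by
    have := Nat.mul_le_mul_right (L ^ i) ht
    omega
  have b2 : g + n < (N + g + 1) * L ^ i :=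
    lt_of_lt_of_le (by omega) (Nat.le_mul_of_pos_right _ hL)
  have a1 := h1 (t * L ^ i + n) b1
  have a2 := h.block i (a := q + t) (b := p') h3 (g + n) b2
  have a3 := h2 (g + n) b2
  have e1 : (p + t) * (L : ℤ) ^ i + n = p * (L : ℤ) ^ i + ((t * L ^ i + n : ℕ) : ℤ) := by
    push_cast; ring
  have e2 : q * (L : ℤ) ^ i + g + ((t * L ^ i + n : ℕ) : ℤ) =
      (q + t) * (L : ℤ) ^ i + ((g + n : ℕ) : ℤ) := by
    push_cast; ring
  have e3 : q' * (L : ℤ) ^ i + (g + g') + n = q' * (L : ℤ) ^ i + g' + ((g + n : ℕ) : ℤ) := by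
    push_cast; ring
  rw [e1, e3]
  rw [e2, a2] at a1
  exact hQ.equiv.trans a1 a3

theorem Mis.add (h : Sys L s z) (hQ : Compat L s Q) {i : ℕ} {g g' : ℤ}
    (hg : Mis L z Q i g) (hg' : Mis L z Q i g') : Mis L z Q i (g + g') := by
  have hL : (1 : ℤ) ≤ (L : ℤ) ^ i := by exact_mod_cast h.posL i
  have h0 : 0 ≤ g + |g| * (L : ℤ) ^ i := by
    have h1 := neg_abs_le g
    have h2 := abs_nonneg g
    nlinarith
  have h3 := hg.shift |g|
  rw [← Int.toNat_of_nonneg h0] at h3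
  have h4 := (Mis.add_aux h hQ h3 hg').shift (-|g|)
  rw [Int.toNat_of_nonneg h0] at h4
  have e : g + |g| * (L : ℤ) ^ i + g' + -|g| * (L : ℤ) ^ i = g + g' := by ring
  rwa [e] at h4

theorem Mis.neg_aux (hQ : Compat L s Q) {i : ℕ} {g : ℕ}
    (hg : Mis L z Q i (-(g : ℤ))) : Mis L z Q i g := by
  intro N
  obtain ⟨p, q, h1⟩ := hg (N + g)
  refine ⟨q, p, fun n hn => ?_⟩
  have a1 := h1 (g + n) (by omega)
  have e1 : q * (L : ℤ) ^ i + -(g : ℤ) + ((g + n : ℕ) : ℤ) = q * (L : ℤ) ^ i + n := by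
    push_cast; ring
  have e2 : p * (L : ℤ) ^ i + ((g + n : ℕ) : ℤ) = p * (L : ℤ) ^ i + g + n := by
    push_cast; ring
  rw [e1, e2] at a1
  exact hQ.equiv.symm a1

theorem Mis.neg (h : Sys L s z) (hQ : Compat L s Q) {i : ℕ} {g : ℤ}
    (hg : Mis L z Q i g) : Mis L z Q i (-g) := by
  have hL : (1 : ℤ) ≤ (L : ℤ) ^ i := by exact_mod_cast h.posL i
  have h0 : 0 ≤ |g| * (L : ℤ) ^ i - g := by
    have h1 := le_abs_self g
    have h2 := abs_nonneg g
    nlinarith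
  have h3 := hg.shift (-|g|)
  have e : g + -|g| * (L : ℤ) ^ i = -(((|g| * (L : ℤ) ^ i - g).toNat : ℕ) : ℤ) := by
    rw [Int.toNat_of_nonneg h0]; ring
  rw [e] at h3
  have h4 := (Mis.neg_aux hQ h3).shift (-|g|)
  rw [Int.toNat_of_nonneg h0] at h4
  have e2 : |g| * (L : ℤ) ^ i - g + -|g| * (L : ℤ) ^ i = -g := by ring
  rwa [e2] at h4

/-- the group of misregistrations -/
def misSub (h : Sys L s z) (hQ : Compat L s Q) (i : ℕ) : AddSubgroup ℤ where
  carrier := {g | Mis L z Q i g}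
  add_mem' := fun ha hb => Mis.add h hQ ha hb
  zero_mem' := Mis.zero hQ i
  neg_mem' := fun ha => Mis.neg h hQ ha

theorem mem_misSub (h : Sys L s z) (hQ : Compat L s Q) (i : ℕ) (g : ℤ) :
    g ∈ misSub h hQ i ↔ Mis L z Q i g := Iff.rfl

theorem Mis.mul (h : Sys L s z) (hQ : Compat L s Q) {i : ℕ} {g : ℤ}
    (hg : Mis L z Q i g) (k : ℤ) : Mis L z Q i (k * g) := by
  have := (misSub h hQ i).zsmul_mem ((mem_misSub h hQ i g).mpr hg) k
  rw [smul_eq_mul] at this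
  exact this

theorem Mis.lift (h : Sys L s z) (hQ : Compat L s Q) {g : ℤ} (hg : Mis L z Q 1 g) (j : ℕ) :
    Mis L z Q (j + 1) ((L : ℤ) ^ j * g) := by
  intro N
  obtain ⟨p, q, hpq⟩ := hg N
  refine ⟨p, q, fun n hn => ?_⟩
  have hL := h.posL j
  have := h.blockQ hQ j (a := p * (L : ℤ) ^ 1) (b := q * (L : ℤ) ^ 1 + g) hpq n
    (lt_of_lt_of_le hn (Nat.le_mul_of_pos_right _ hL))
  have e1 : p * (L : ℤ) ^ (j + 1) + n = p * (L : ℤ) ^ 1 * (L : ℤ) ^ j + n := by ring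
  have e2 : q * (L : ℤ) ^ (j + 1) + (L : ℤ) ^ j * g + n =
      (q * (L : ℤ) ^ 1 + g) * (L : ℤ) ^ j + n := by ring
  rw [e1, e2]
  exact this

theorem Mis.succ (h : Sys L s z) {j : ℕ} {g : ℤ} (hg : Mis L z Q j g) :
    ∃ r : ℕ, Mis L z Q (j + 1) (g + r * (L : ℤ) ^ j) := by
  obtain ⟨r, _, _, hr⟩ := exists_mis_of_forall (L := L) (z := z) (Q := Q) (j + 1)
    (fun r => g + r * (L : ℤ) ^ j) (fun _ => True) L (by
      intro N
      obtain ⟨p, q, hpq⟩ := hg (N + L * L ^ j)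
      have hL2 := h.two_le
      have hL0 : (0 : ℤ) < L := by exact_mod_cast (by omega : 0 < L)
      -- t = (-p) mod L
      have t0 := Int.emod_nonneg (-p) hL0.ne'
      have t1 := Int.emod_lt_of_pos (-p) hL0
      have r0 := Int.emod_nonneg (q + (-p) % L) hL0.ne'
      have r1 := Int.emod_lt_of_pos (q + (-p) % L) hL0
      refine ⟨((q + (-p) % L) % L).toNat, by omega, trivial,
        -((-p) / L), (q + (-p) % L) / L, fun n hn => ?_⟩
      have hb : ((-p) % (L : ℤ)).toNat * L ^ j + n < N + L * L ^ j := by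
        have : ((-p) % (L : ℤ)).toNat ≤ L := by omega
        have := Nat.mul_le_mul_right (L ^ j) this
        omega
      have a1 := hpq (((-p) % (L : ℤ)).toNat * L ^ j + n) hb
      have d1 := Int.mul_ediv_add_emod (-p) L
      have d2 := Int.mul_ediv_add_emod (q + (-p) % L) L
      have c1 : ((((-p) % (L : ℤ)).toNat : ℕ) : ℤ) = (-p) % L := Int.toNat_of_nonneg t0
      have c2 : ((((q + (-p) % L) % L).toNat : ℕ) : ℤ) = (q + (-p) % L) % L :=
        Int.toNat_of_nonneg r0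
      have e1 : -((-p) / (L : ℤ)) * (L : ℤ) ^ (j + 1) + n =
          p * (L : ℤ) ^ j + ((((-p) % (L : ℤ)).toNat * L ^ j + n : ℕ) : ℤ) := by
        push_cast
        rw [c1]
        rw [pow_succ]
        linear_combination (-(L : ℤ) ^ j) * d1
      have e2 : (q + (-p) % (L : ℤ)) / L * (L : ℤ) ^ (j + 1) +
          (g + ((((q + (-p) % L) % L).toNat : ℕ) : ℤ) * (L : ℤ) ^ j) + n =
          q * (L : ℤ) ^ j + g + ((((-p) % (L : ℤ)).toNat * L ^ j + n : ℕ) : ℤ) := by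
        push_cast
        rw [c1, c2]
        rw [pow_succ]
        linear_combination ((L : ℤ) ^ j) * d2
      rw [e1]
      show Q _ (z ((q + (-p) % (L : ℤ)) / L * (L : ℤ) ^ (j + 1) +
          (g + ((((q + (-p) % L) % L).toNat : ℕ) : ℤ) * (L : ℤ) ^ j) + n))
      rw [e2]
      exact a1)
  exact ⟨r, hr⟩

theorem Mis.pow_self (h : Sys L s z) (hQ : Compat L s Q) {e : ℕ} (he : Mis L z Q 1 e) (i : ℕ) :
    Mis L z Q i ((e : ℤ) ^ i) := by
  induction i with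
  | zero =>
    have := (Mis.zero (z := z) hQ 0).shift 1
    simpa using this
  | succ j ih =>
    obtain ⟨r, hr⟩ := Mis.succ h ih
    have h1 := Mis.mul h hQ hr (e : ℤ)
    have h2 := Mis.mul h hQ (Mis.lift h hQ he j) (-(r : ℤ))
    have h3 := Mis.add h hQ h1 h2
    have e1 : (e : ℤ) * ((e : ℤ) ^ j + r * (L : ℤ) ^ j) + -(r : ℤ) * ((L : ℤ) ^ j * e) =
      (e : ℤ) ^ (j + 1) := by ring
    rwa [e1] at h3

/-- `Q` fails to recognise the cuts: then there is a misregistration `0 < e < L`. -/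
theorem exists_mis (h : Sys L s z) (hQ : Compat L s Q) (hR : ¬ ∃ l : ℕ, Rgn L z Q l) :
    ∃ g : ℤ, ¬ (L : ℤ) ∣ g ∧ Mis L z Q 1 g := by
  have hL2 := h.two_le
  have hL0 : (0 : ℤ) < L := by exact_mod_cast (by omega : 0 < L)
  obtain ⟨r, _, hP, hr⟩ := exists_mis_of_forall (L := L) (z := z) (Q := Q) 1
    (fun r => (r : ℤ)) (fun r => ¬ (L : ℤ) ∣ (r : ℤ)) L (by
      intro N
      have h1 : ¬ Rgn L z Q (N + L) := fun h2 => hR ⟨_, h2⟩
      unfold Rgn at h1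
      push Not at h1
      obtain ⟨J, hJ, w, hw⟩ := h1
      have r0 := Int.emod_nonneg J hL0.ne'
      have r1 := Int.emod_lt_of_pos J hL0
      have t0 := Int.emod_nonneg (-w) hL0.ne'
      have t1 := Int.emod_lt_of_pos (-w) hL0
      have d1 := Int.mul_ediv_add_emod (-w) L
      have d2 := Int.mul_ediv_add_emod J L
      have c2 : (((J % (L : ℤ)).toNat : ℕ) : ℤ) = J % L := Int.toNat_of_nonneg r0
      have c1 : ((((-w) % (L : ℤ)).toNat : ℕ) : ℤ) = (-w) % L := Int.toNat_of_nonneg t0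
      refine ⟨(J % (L : ℤ)).toNat, by omega, ?_, -((-w) / L), -((-w) / L) + J / L, fun n hn => ?_⟩
      · intro hd
        rw [c2] at hd
        exact hJ ((Int.dvd_iff_emod_eq_zero).mpr (by
          have := Int.emod_emod_of_dvd J (dvd_refl (L : ℤ))
          rw [← this]
          exact (Int.dvd_iff_emod_eq_zero).mp hd))
      · have a1 := hw (((-w) % (L : ℤ)).toNat + n) (by omega)
        have e1 : -((-w) / (L : ℤ)) * (L : ℤ) ^ 1 + n =
            w + ((((-w) % (L : ℤ)).toNat + n : ℕ) : ℤ) := by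
          push_cast
          rw [c1]
          linear_combination -d1
        have e2 : (-((-w) / (L : ℤ)) + J / L) * (L : ℤ) ^ 1 + (((J % (L : ℤ)).toNat : ℕ) : ℤ) + n =
            w + ((((-w) % (L : ℤ)).toNat + n : ℕ) : ℤ) + J := by
          push_cast
          rw [c1, c2]
          linear_combination -d1 + d2
        rw [e1]
        show Q _ (z ((-((-w) / (L : ℤ)) + J / L) * (L : ℤ) ^ 1 + (((J % (L : ℤ)).toNat : ℕ) : ℤ) + n))
        rw [e2]
        exact a1)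
  exact ⟨r, hP, hr⟩

theorem Mis.pow (h : Sys L s z) (hQ : Compat L s Q) {e : ℕ} (he : Mis L z Q 1 e) (i : ℕ) (k : ℤ) :
    Mis L z Q i (k * (e : ℤ) ^ i) :=
  Mis.mul h hQ (Mis.pow_self h hQ he i) k

/-- windows of length `L ^ i` modulo `Q` -/
theorem windows (h : Sys L s z) (hQ : Compat L s Q) {e : ℕ} (he0 : 1 ≤ e) (he : Mis L z Q 1 e)
    (i : ℕ) (a : ℤ) :
    ∃ (x y : A) (r : ℕ), r < e ^ i ∧ ∀ m : ℕ, m < L ^ i →
      Q (z (a + m)) (if r + m < L ^ i then sub L s i x (r + m)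
        else sub L s i y (r + m - L ^ i)) := by
  have hL := h.posL i
  have hLz : (0 : ℤ) < (L : ℤ) ^ i := by exact_mod_cast hL
  have hei : 0 < e ^ i := pow_pos (by omega) i
  have t0 := Int.emod_nonneg a hLz.ne'
  have t1 := Int.emod_lt_of_pos a hLz
  have d1 := Int.mul_ediv_add_emod a ((L : ℤ) ^ i)
  obtain ⟨r0, hr0⟩ : ∃ r0 : ℕ, (r0 : ℤ) = a % (L : ℤ) ^ i := ⟨_, Int.toNat_of_nonneg t0⟩
  have hr0L : r0 < L ^ i := by
    have : (r0 : ℤ) < (L : ℤ) ^ i := by rw [hr0]; exact t1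
    exact_mod_cast this
  have d3 := Nat.div_add_mod r0 (e ^ i)
  have hr' : r0 % e ^ i < e ^ i := Nat.mod_lt _ hei
  have hr'' : r0 % e ^ i ≤ r0 := Nat.mod_le _ _
  obtain ⟨R, hR⟩ := h.recur 2
  obtain ⟨p', q', h1⟩ := Mis.pow h hQ he i ((r0 / e ^ i : ℕ) : ℤ) (R * L ^ i + 2 * L ^ i)
  obtain ⟨t, ht, h3⟩ := hR (a / (L : ℤ) ^ i) q'
  refine ⟨z (p' + t), z (p' + t + 1), r0 % e ^ i, hr', fun m hm => ?_⟩
  have htR := Nat.mul_le_mul_right (L ^ i) ht
  have a1 := h1 (t * L ^ i + (r0 % e ^ i + m)) (by omega)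
  have a2 := h.block i (a := q' + t) (b := a / (L : ℤ) ^ i) h3 (r0 + m) (by omega)
  have e1 : q' * (L : ℤ) ^ i + ((r0 / e ^ i : ℕ) : ℤ) * (e : ℤ) ^ i +
      ((t * L ^ i + (r0 % e ^ i + m) : ℕ) : ℤ) = (q' + t) * (L : ℤ) ^ i + ((r0 + m : ℕ) : ℤ) := by
    have d4 : ((e : ℤ) ^ i) * ((r0 / e ^ i : ℕ) : ℤ) + ((r0 % e ^ i : ℕ) : ℤ) = r0 := by
      exact_mod_cast d3
    push_cast
    push_cast at d4
    linear_combination d4
  have e2 : a / (L : ℤ) ^ i * (L : ℤ) ^ i + ((r0 + m : ℕ) : ℤ) = a + m := by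
    push_cast
    rw [hr0]
    linear_combination d1
  have e3 : p' * (L : ℤ) ^ i + ((t * L ^ i + (r0 % e ^ i + m) : ℕ) : ℤ) =
      (L : ℤ) ^ i * (p' + t) + ((r0 % e ^ i + m : ℕ) : ℤ) := by
    push_cast
    ring
  rw [e1, a2, e2, e3] at a1
  have a3 := hQ.equiv.symm a1
  by_cases hc : r0 % e ^ i + m < L ^ i
  · rw [if_pos hc]
    rwa [h.sub_eq i _ _ hc] at a3
  · rw [if_neg hc]
    have e4 : (L : ℤ) ^ i * (p' + t) + ((r0 % e ^ i + m : ℕ) : ℤ) =
        (L : ℤ) ^ i * (p' + t + 1) + ((r0 % e ^ i + m - L ^ i : ℕ) : ℤ) := by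
      have : ((r0 % e ^ i + m - L ^ i : ℕ) : ℤ) = ((r0 % e ^ i + m : ℕ) : ℤ) - (L : ℤ) ^ i := by
        rw [Nat.cast_sub (by omega)]
        push_cast
        ring
      rw [this]
      ring
    rw [e4, h.sub_eq i _ _ (by omega)] at a3
    exact a3

/-- **Recognizability.** If `z` is not periodic modulo `Q`, long misregistered windows contain
pairs outside `Q`. -/
theorem exists_rgn [Finite A] (h : Sys L s z) (hQ : Compat L s Q) (hP : ¬ Per z Q) :
    ∃ l : ℕ, 1 ≤ l ∧ Rgn L z Q l := by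
  by_cases hR : ∃ l : ℕ, Rgn L z Q l
  · obtain ⟨l, hl⟩ := hR
    refine ⟨l, ?_, hl⟩
    by_contra hl0
    have hL2 := h.two_le
    obtain ⟨i, hi, _⟩ := hl 1 (by
      intro hd
      have := Int.le_of_dvd one_pos hd
      omega) 0
    omega
  exfalso
  obtain ⟨g, hg, hm⟩ := exists_mis h hQ hR
  have hL2 := h.two_le
  -- the greatest common divisor
  have he : Mis L z Q 1 ((Int.gcd g L : ℕ) : ℤ) := by
    rw [Int.gcd_eq_gcd_ab]
    have h1 := (Mis.mul h hQ hm (Int.gcdA g L)).shift (Int.gcdB g L)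
    have e1 : Int.gcdA g L * g + Int.gcdB g L * (L : ℤ) ^ 1 =
        g * Int.gcdA g L + (L : ℤ) * Int.gcdB g L := by ring
    rwa [e1] at h1
  set e := Int.gcd g L with hedef
  have he1 : 1 ≤ e := Nat.one_le_iff_ne_zero.mpr (by
    intro h0
    have := (Int.gcd_eq_zero_iff.mp h0).2
    omega)
  have hedvd : e ∣ L := by
    have := Int.gcd_dvd_right (a := g) (b := (L : ℤ))
    exact_mod_cast this
  have hene : e ≠ L := by
    intro h0
    have := Int.gcd_dvd_left (a := g) (b := (L : ℤ))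
    rw [← hedef, h0] at this
    exact hg this
  have he2 : 2 * e ≤ L := by
    obtain ⟨c, hc⟩ := hedvd
    have hc2 : 2 ≤ c := by
      rcases Nat.lt_or_ge c 2 with h2 | h2
      · interval_cases c
        · omega
        · omega
      · exact h2
    rw [hc, mul_comm]
    exact Nat.mul_le_mul_left e hc2
  -- the classes modulo `Q`
  let S : Setoid A := ⟨Q, hQ.equiv⟩
  set i := Nat.card A * Nat.card A with hi
  let F : A × A × Fin (e ^ i) → (Fin (L ^ i) → Quotient S) := fun x j =>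
    if (x.2.2 : ℕ) + (j : ℕ) < L ^ i then Quotient.mk S (sub L s i x.1 ((x.2.2 : ℕ) + (j : ℕ)))
      else Quotient.mk S (sub L s i x.2.1 ((x.2.2 : ℕ) + (j : ℕ) - L ^ i))
  have hsub : {u : Fin (L ^ i) → Quotient S | ∃ a : ℤ, ∀ j : Fin (L ^ i),
      u j = Quotient.mk S (z (a + (j : ℕ)))} ⊆ F '' Set.univ := by
    rintro u ⟨a, ha⟩
    obtain ⟨x, y, r, hr, hw⟩ := windows h hQ he1 he i a
    refine ⟨(x, y, ⟨r, hr⟩), trivial, ?_⟩
    funext j
    rw [ha j]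
    have h1 := hw (j : ℕ) j.2
    show (if r + (j : ℕ) < L ^ i then Quotient.mk S (sub L s i x (r + (j : ℕ)))
      else Quotient.mk S (sub L s i y (r + (j : ℕ) - L ^ i))) = _
    by_cases hc : r + (j : ℕ) < L ^ i
    · rw [if_pos hc] at h1 ⊢
      exact Quotient.sound (hQ.equiv.symm h1)
    · rw [if_neg hc] at h1 ⊢
      exact Quotient.sound (hQ.equiv.symm h1)
  have hcard : {u : Fin (L ^ i) → Quotient S | ∃ a : ℤ, ∀ j : Fin (L ^ i),
      u j = Quotient.mk S (z (a + (j : ℕ)))}.ncard ≤ L ^ i := by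
    refine (Set.ncard_le_ncard hsub (Set.toFinite _)).trans ?_
    refine (Set.ncard_image_le (Set.toFinite _)).trans ?_
    rw [Set.ncard_univ, Nat.card_prod, Nat.card_prod, Nat.card_fin, ← mul_assoc, ← hi]
    calc i * e ^ i ≤ 2 ^ i * e ^ i := Nat.mul_le_mul_right _ (Nat.lt_two_pow_self).le
      _ = (2 * e) ^ i := (mul_pow 2 e i).symm
      _ ≤ L ^ i := Nat.pow_le_pow_left he2 i
  obtain ⟨p, hp, hper⟩ := morse_hedlund (fun n => Quotient.mk S (z n)) (L ^ i) (h.posL i) hcard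
  exact hP ⟨p, hp, fun n => Quotient.exact (hper n)⟩

end H95.Edit
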