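import Pool.Agent.H95.Edit.M1_Lcs
import Pool.Agent.H95.Edit.M2_Sub

/-! M6: lower and upper bounds for the edit distance diameter. -/

namespace H95.Edit

open Finset

variable {A : Type} {L : ℕ} {s : A → ℕ → A} {z : ℤ → A} {Q : A → A → Prop}

/-- lower bound: shift by half a block of level `m` -/
theorem lower (h : Sys L s z) {l m : ℕ} (hl1 : 1 ≤ l) (hm : 1 ≤ m) {K : ℝ} (hK : 0 ≤ K)
    (hKap : Kap L z Q l m K) (N : ℕ) :
    ∃ a b : ℤ, min ((L : ℝ) ^ m / 8) ((N / (l * L ^ m) : ℕ) * K) ≤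
      D (word z a N) (word z b N) := by
  have hL2 : 2 ≤ L := h.two_le
  have hP2 : 2 ≤ L ^ m := by
    calc 2 ≤ L := hL2
      _ = L ^ 1 := (pow_one L).symm
      _ ≤ L ^ m := Nat.pow_le_pow_right (by omega) hm
  set P : ℕ := L ^ m with hPdef
  have hPR : ((L : ℝ) ^ m) = (P : ℝ) := by rw [hPdef]; push_cast; rfl
  have hPZ : ((L : ℤ) ^ m) = (P : ℤ) := by rw [hPdef]; push_cast; rfl
  refine ⟨0, ((P / 2 : ℕ) : ℤ), ?_⟩
  set C : ℕ := D (word z 0 N) (word z ((P / 2 : ℕ) : ℤ) N) with hC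
  by_cases hbig : (P : ℝ) / 8 ≤ (C : ℝ)
  · rw [hPR]
    exact le_trans (min_le_left _ _) hbig
  · rw [not_le] at hbig
    refine le_trans (min_le_right _ _) ?_
    set r : ℕ := N / (l * P) with hr
    set e : ℕ := N % (l * P) with he
    have hN : r * (l * P) + e = N := by
      rw [hr, he]
      have := Nat.div_add_mod N (l * P)
      rw [mul_comm] at this
      exact this
    obtain ⟨γ, ν, n', hγ0, hγ, hsum, hdist⟩ :=
      D_split_many z 0 ((P / 2 : ℕ) : ℤ) r (l * P) e N
    rw [hN] at hsum hdist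
    rw [← hC] at hsum
    have hCP : 8 * (C : ℤ) < (P : ℤ) := by
      have : 8 * (C : ℝ) < (P : ℝ) := by linarith
      exact_mod_cast this
    have hcost : ∀ q ∈ range r,
        K ≤ (D (word z (0 + (q : ℤ) * ((l * P : ℕ) : ℤ)) (l * P)) (word z (γ q) (ν q)) : ℝ) := by
      intro q hq
      rw [mem_range] at hq
      by_contra hlt
      rw [not_le] at hlt
      have hw : (0 + (q : ℤ) * ((l * P : ℕ) : ℤ)) = ((q * l : ℕ) : ℤ) * (L : ℤ) ^ m := by
        rw [hPZ]; push_cast; ring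
      rw [hw] at hlt
      obtain ⟨J, hJ, -⟩ := hKap _ _ _ hlt
      have hd := hdist q hq.le
      rw [← hC] at hd
      rw [hPZ] at hJ
      push_cast at hJ hd
      set x : ℤ := (q : ℤ) * (l : ℤ) + J with hx
      have e1 : γ q - ((P : ℤ) / 2) - (q : ℤ) * ((l : ℤ) * (P : ℤ)) =
        (γ q - x * P) - ((P : ℤ) / 2 - J * P) := by rw [hx]; ring
      rw [e1] at hd
      have hJ' : |γ q - x * P| * 8 ≤ P := by linarith
      have h4 : 4 * |(P : ℤ) / 2 - J * P| < P := by
        have t1 : |(P : ℤ) / 2 - J * P| ≤ |γ q - x * P| + |(γ q - x * P) - ((P : ℤ) / 2 - J * P)| := by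
          have := abs_sub_abs_le_abs_sub ((P : ℤ) / 2 - J * P) (γ q - x * P)
          rw [abs_sub_comm ((P : ℤ) / 2 - J * P) (γ q - x * P)] at this
          linarith
        linarith
      have hPz : (2 : ℤ) ≤ P := by exact_mod_cast hP2
      have hhalf1 : 2 * ((P : ℤ) / 2) ≤ P := by omega
      have hhalf2 : (P : ℤ) - 1 ≤ 2 * ((P : ℤ) / 2) := by omega
      rcases le_or_gt J 0 with hJ0 | hJ0
      · have : (P : ℤ) / 2 ≤ (P : ℤ) / 2 - J * P := by nlinarith
        have h5 := le_trans this (le_abs_self _)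
        omega
      · have : (P : ℤ) - (P : ℤ) / 2 ≤ -((P : ℤ) / 2 - J * P) := by nlinarith
        have h5 := le_trans this (neg_le_abs _)
        omega
    have h1 : ((r : ℕ) : ℝ) * K ≤ ∑ q ∈ range r,
        (D (word z (0 + (q : ℤ) * ((l * P : ℕ) : ℤ)) (l * P)) (word z (γ q) (ν q)) : ℝ) := by
      have := Finset.card_nsmul_le_sum (range r) _ K hcost
      simpa using this
    have h2 : (∑ q ∈ range r,
        (D (word z (0 + (q : ℤ) * ((l * P : ℕ) : ℤ)) (l * P)) (word z (γ q) (ν q)) : ℝ)) ≤ C := by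
      have h3 : (∑ q ∈ range r,
        D (word z (0 + (q : ℤ) * ((l * P : ℕ) : ℤ)) (l * P)) (word z (γ q) (ν q))) ≤ C :=
        le_trans (Nat.le_add_right _ _) hsum
      exact_mod_cast h3
    exact le_trans h1 h2

theorem Per.zmul (hQ : Compat L s Q) {p : ℕ} (hp : ∀ n : ℤ, Q (z n) (z (n + p))) (k : ℤ) (n : ℤ) :
    Q (z n) (z (n + k * p)) := by
  have hpos : ∀ (k : ℕ) (n : ℤ), Q (z n) (z (n + k * p)) := by
    intro k
    induction k with
    | zero => intro n; simpa using hQ.equiv.refl (z n)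
    | succ k ih =>
      intro n
      have h1 := ih n
      have h2 := hp (n + k * p)
      have e : n + ((k + 1 : ℕ) : ℤ) * p = n + k * p + p := by push_cast; ring
      rw [e]
      exact hQ.equiv.trans h1 h2
  rcases Int.le_total 0 k with h0 | h0
  · obtain ⟨k', rfl⟩ := Int.eq_ofNat_of_zero_le h0
    exact hpos k' n
  · obtain ⟨k', hk'⟩ := Int.eq_ofNat_of_zero_le (Int.neg_nonneg.mpr h0)
    have hk : k = -(k' : ℤ) := by omega
    have h1 := hpos k' (n + k * p)
    have e : n + k * p + (k' : ℤ) * p = n := by rw [hk]; ring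
    rw [e] at h1
    exact hQ.equiv.symm h1

theorem D_le_two_mul (z : ℤ → A) (a b : ℤ) (N : ℕ) : D (word z a N) (word z b N) ≤ 2 * N := by
  have := D_add_lcs (word z a N) (word z b N)
  rw [length_word, length_word] at this
  omega

/-- upper bound: shift to registration at level `m` and modulo `Q` -/
theorem upper [Finite A] (h : Sys L s z) (hQ : Compat L s Q) (hP : Per z Q) :
    ∃ C : ℕ, ∀ (m N : ℕ) (M : ℝ), (∀ a b, Q a b → (Hm L s m a b : ℝ) ≤ M) → ∀ a b : ℤ,
      (D (word z a N) (word z b N) : ℝ) ≤ C * (L : ℝ) ^ m + 2 * (N / L ^ m : ℕ) * M := by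
  classical
  obtain ⟨p, hp1, hp⟩ := hP
  refine ⟨2 * (p + 3), ?_⟩
  intro m N M hM a b
  have hL2 : 2 ≤ L := h.two_le
  have hM0 : 0 ≤ M := le_trans (Nat.cast_nonneg _) (hM (z 0) (z 0) (hQ.equiv.refl _))
  set P : ℕ := L ^ m with hPdef
  have hP0 : 0 < P := Nat.pos_of_ne_zero (by rw [hPdef]; exact pow_ne_zero _ (by omega))
  have hPR : ((L : ℝ) ^ m) = (P : ℝ) := by rw [hPdef]; push_cast; rfl
  have hPZ : ((L : ℤ) ^ m) = (P : ℤ) := by rw [hPdef]; push_cast; rfl
  rw [hPR]
  have hPz : (0 : ℤ) < P := by exact_mod_cast hP0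
  have hN1 : N < (N / P + 1) * P := by
    have := Nat.lt_succ_iff.mpr (le_refl (N / P))
    rw [Nat.div_lt_iff_lt_mul hP0] at this
    exact this
  by_cases hsmall : N / P < p + 2
  · have h1 : D (word z a N) (word z b N) ≤ 2 * N := D_le_two_mul z a b N
    have h2 : N ≤ (p + 3) * P := by
      have : (N / P + 1) * P ≤ (p + 3) * P := Nat.mul_le_mul_right _ (by omega)
      omega
    have h3 : (D (word z a N) (word z b N) : ℝ) ≤ 2 * ((p + 3) * P) := by
      have : D (word z a N) (word z b N) ≤ 2 * ((p + 3) * P) := by omega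
      exact_mod_cast this
    have h4 : 0 ≤ 2 * ((N / P : ℕ) : ℝ) * M := by positivity
    push_cast
    linarith
  · rw [not_lt] at hsmall
    obtain ⟨n2, hn2⟩ : ∃ n2, N / P = p + 2 + n2 := Nat.exists_eq_add_of_le hsmall
    -- registration of `a`
    set a0 : ℤ := a / P with ha0
    have ha1 : a0 * P ≤ a := by rw [ha0]; exact Int.ediv_mul_le a hPz.ne'
    have ha2 : a < (a0 + 1) * P := by
      rw [ha0]; exact Int.lt_ediv_add_one_mul_self a hPz
    set b0 : ℤ := b / P with hb0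
    have hb1 : b0 * P ≤ b := by rw [hb0]; exact Int.ediv_mul_le b hPz.ne'
    have hb2 : b < (b0 + 1) * P := by
      rw [hb0]; exact Int.lt_ediv_add_one_mul_self b hPz
    obtain ⟨a₁, ha₁⟩ := Int.eq_ofNat_of_zero_le (show 0 ≤ (a0 + 1) * P - a by linarith)
    -- `B ≡ a0 + 1` modulo `p`, `b0 < B ≤ b0 + p`
    have hpz : (0 : ℤ) < p := by exact_mod_cast hp1
    set k : ℤ := (b0 - a0) / p with hk
    set t : ℤ := (b0 - a0) % p with ht
    have hkt : k * p + t = b0 - a0 := by
      rw [hk, ht]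
      have := Int.mul_ediv_add_emod (b0 - a0) p
      rw [mul_comm] at this
      exact this
    have ht0 : 0 ≤ t := Int.emod_nonneg _ hpz.ne'
    have htp : t < p := Int.emod_lt_of_pos _ hpz
    set B : ℤ := a0 + 1 + (k + 1) * p with hB
    have hB1 : b0 + 1 ≤ B := by
      have : B = b0 + 1 + (p - t) := by rw [hB]; linarith
      linarith
    have hB2 : B ≤ b0 + 1 + p := by
      have : B = b0 + 1 + (p - t) := by rw [hB]; linarith
      linarith
    obtain ⟨b₁, hb₁⟩ := Int.eq_ofNat_of_zero_le (show 0 ≤ B * P - b by nlinarith)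
    have ha₁' : (a₁ : ℤ) ≤ P := by
      rw [← ha₁]; linarith
    have hb₁' : (b₁ : ℤ) ≤ (p + 1) * P := by
      rw [← hb₁]; nlinarith
    have ha₁n : a₁ ≤ P := by exact_mod_cast ha₁'
    have hb₁n : b₁ ≤ (p + 1) * P := by exact_mod_cast hb₁'
    have hNP : (p + 2 + n2) * P ≤ N := by
      rw [← hn2]; exact Nat.div_mul_le_self N P
    have hc1 : a₁ + n2 * P ≤ N := by
      have : P + n2 * P ≤ (p + 2 + n2) * P := by nlinarith
      omega
    have hc2 : b₁ + n2 * P ≤ N := by
      have : (p + 1) * P + n2 * P ≤ (p + 2 + n2) * P := by nlinarith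
      omega
    have hcut := D_infix z a b N a₁ b₁ (n2 * P) hc1 hc2
    have ea : a + (a₁ : ℤ) = (a0 + 1) * (L : ℤ) ^ m := by rw [hPZ]; push_cast at ha₁; linarith
    have eb : b + (b₁ : ℤ) = B * (L : ℤ) ^ m := by rw [hPZ]; push_cast at hb₁; linarith
    rw [ea, eb] at hcut
    have hmis := D_le_mismatch z ((a0 + 1) * (L : ℤ) ^ m) (B * (L : ℤ) ^ m) (n2 * P)
    have hmeq := h.mismatch_eq m n2 (a0 + 1) B
    rw [← hPdef] at hmeq
    rw [hmeq] at hmis
    have hsumM : ((∑ i ∈ range n2, Hm L s m (z (a0 + 1 + i)) (z (B + i)) : ℕ) : ℝ) ≤ n2 * M := by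
      push_cast
      have : ∀ i ∈ range n2, ((Hm L s m (z (a0 + 1 + i)) (z (B + i)) : ℕ) : ℝ) ≤ M := by
        intro i _
        apply hM
        have := Per.zmul hQ hp (k + 1) (a0 + 1 + i)
        have e : a0 + 1 + (i : ℤ) + (k + 1) * p = B + i := by rw [hB]; ring
        rw [e] at this
        exact this
      have h5 := Finset.sum_le_card_nsmul (range n2) _ M this
      simpa using h5
    have hfin : (D (word z a N) (word z b N) : ℝ) ≤ 2 * ((N : ℝ) - n2 * P) +
        2 * (n2 * M) := by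
      have h6 : (D (word z a N) (word z b N) : ℝ) ≤ 2 * ((N - n2 * P : ℕ) : ℝ) +
          2 * ((∑ i ∈ range n2, Hm L s m (z (a0 + 1 + i)) (z (B + i)) : ℕ) : ℝ) := by
        have h7 := le_trans hcut (Nat.add_le_add_left hmis _)
        exact_mod_cast h7
      rw [Nat.cast_sub (by omega)] at h6
      push_cast at h6 hsumM ⊢
      linarith
    have hNle : (N : ℝ) ≤ (p + 3 + n2) * P := by
      have : N ≤ (p + 3 + n2) * P := by
        rw [hn2] at hN1
        have e : p + 2 + n2 + 1 = p + 3 + n2 := by ring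
        rw [e] at hN1
        exact hN1.le
      exact_mod_cast this
    have hn2le : (n2 : ℝ) ≤ ((N / P : ℕ) : ℝ) := by
      rw [hn2]; push_cast; linarith [show (0 : ℝ) ≤ p from Nat.cast_nonneg p]
    have hmul : (n2 : ℝ) * M ≤ ((N / P : ℕ) : ℝ) * M := mul_le_mul_of_nonneg_right hn2le hM0
    push_cast
    nlinarith

end H95.Edit
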