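import Pool.Agent.H95.Edit.M3_Pairs
import Pool.Agent.H95.Edit.M4_Rec
import Pool.Agent.H95.Edit.M5_Kap
import Pool.Agent.H95.Edit.M6_Bounds

/-! M7: the exponent of the edit distance diameter of a fixed point. -/

namespace H95.Edit

open Finset

variable {A : Type} {L : ℕ} {s : A → ℕ → A} {z : ℤ → A} {Q : A → A → Prop}

/-- lower bounds with exponent `μ` -/
def LowerB (L : ℕ) (z : ℤ → A) (μ : ℝ) : Prop :=
  ∀ ε : ℝ, 0 < ε → ∃ (c : ℝ) (l : ℕ), 0 < c ∧ 1 ≤ l ∧ ∀ m N : ℕ, 1 ≤ m → ∃ a b : ℤ,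
    min ((L : ℝ) ^ m / 8) ((N / (l * L ^ m) : ℕ) * (c * (L : ℝ) ^ ((μ - ε) * m))) ≤
      D (word z a N) (word z b N)

/-- upper bounds with exponent `μ` -/
def UpperB (L : ℕ) (z : ℤ → A) (μ : ℝ) : Prop :=
  ∀ ε : ℝ, 0 < ε → ∃ C : ℝ, 0 ≤ C ∧ ∀ (m N : ℕ) (a b : ℤ),
    (D (word z a N) (word z b N) : ℝ) ≤
      C * (L : ℝ) ^ m + 2 * (N / L ^ m : ℕ) * (C * (L : ℝ) ^ ((μ + ε) * m))

/-- periodicity modulo a smaller relation is stronger -/
theorem Per.mono {Q Q' : A → A → Prop} (hQ : ∀ a b, Q a b → Q' a b) (h : Per z Q) : Per z Q' := by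
  obtain ⟨p, hp, h⟩ := h
  exact ⟨p, hp, fun n => hQ _ _ (h n)⟩

/-- periodicity modulo `Qe` gives the upper bound -/
theorem upperB_of_per [Finite A] (h : Sys L s z) {μ : ℝ} (hP : Per z (Qe L s μ)) :
    UpperB L z μ := by
  classical
  have := Fintype.ofFinite A
  intro ε hε
  have hL := h.two_le
  obtain ⟨C₀, hC₀⟩ := upper h (Qe.compat (s := s) hL μ) hP
  have hex : ∀ x : A × A, ∃ C : ℝ, Qe L s μ x.1 x.2 →
      ∀ k : ℕ, (Hm L s k x.1 x.2 : ℝ) ≤ C * (L : ℝ) ^ ((μ + ε) * k) := by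
    intro x
    by_cases hx : Qe L s μ x.1 x.2
    · obtain ⟨C, hC⟩ := hx ε hε
      exact ⟨C, fun _ => hC⟩
    · exact ⟨0, fun hc => absurd hc hx⟩
  choose C₁ hC₁ using hex
  set C : ℝ := (C₀ : ℝ) + ∑ x : A × A, |C₁ x| with hCdef
  have hsum0 : 0 ≤ ∑ x : A × A, |C₁ x| := Finset.sum_nonneg (fun _ _ => abs_nonneg _)
  have hC0 : 0 ≤ C := by positivity
  refine ⟨C, hC0, ?_⟩
  intro m N a b
  have hLpos : (0 : ℝ) < L := by
    have : (0 : ℕ) < L := by omega
    exact_mod_cast this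
  have hpow : (0 : ℝ) < (L : ℝ) ^ ((μ + ε) * m) := Real.rpow_pos_of_pos hLpos _
  have hM : ∀ a b, Qe L s μ a b → (Hm L s m a b : ℝ) ≤ C * (L : ℝ) ^ ((μ + ε) * m) := by
    intro a b hab
    refine (hC₁ (a, b) hab m).trans ?_
    apply mul_le_mul_of_nonneg_right _ hpow.le
    have h1 : |C₁ (a, b)| ≤ ∑ x : A × A, |C₁ x| :=
      Finset.single_le_sum (f := fun x : A × A => |C₁ x|) (fun _ _ => abs_nonneg _)
        (Finset.mem_univ (a, b))
    have h2 : C₁ (a, b) ≤ |C₁ (a, b)| := le_abs_self _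
    have h3 : (0 : ℝ) ≤ C₀ := Nat.cast_nonneg _
    linarith
  have h4 := hC₀ m N _ hM a b
  refine h4.trans ?_
  have h5 : (C₀ : ℝ) * (L : ℝ) ^ m ≤ C * (L : ℝ) ^ m := by
    apply mul_le_mul_of_nonneg_right _ (by positivity)
    linarith
  linarith

/-- no periodicity below `μ` gives the lower bound -/
theorem lowerB_of_not_per [Finite A] (h : Sys L s z) {μ : ℝ} (h1 : μ ≤ 1)
    (hP : ∀ η : ℝ, η < μ → ¬ Per z (Qe L s η)) : LowerB L z μ := by
  intro ε hε
  have hL := h.two_le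
  have hLpos : (0 : ℝ) < L := by
    have : (0 : ℕ) < L := by omega
    exact_mod_cast this
  have hη : μ - ε / 2 < μ := by linarith
  obtain ⟨l, hl1, hl⟩ := exists_rgn h (Qe.compat (s := s) hL (μ - ε / 2)) (hP _ hη)
  obtain ⟨c, hc, hc1, hg⟩ := Qe.growth (A := A) (s := s) hL (μ - ε / 2)
  obtain ⟨c₁, hc₁, hK⟩ := kap_growth h (Qe.compat (s := s) hL (μ - ε / 2)) hl1 hl hc hc1
    (by linarith) hg (ε / 2) (by linarith)
  refine ⟨c₁, l, hc₁, hl1, ?_⟩
  intro m N hm
  have h2 := hK m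
  have h3 : (μ - ε / 2 - ε / 2) * (m : ℝ) = (μ - ε) * m := by ring
  rw [h3] at h2
  exact lower h hl1 hm (by positivity) h2 N

/-- periodicity modulo `Qe` with a negative exponent is periodicity -/
theorem per_of_neg [Finite A] (h : Sys L s z) {η : ℝ} (hη : η < 0) (hP : Per z (Qe L s η)) :
    Per z (fun a b => a = b) := by
  have hL := h.two_le
  obtain ⟨k, hk⟩ := Qe.of_neg (A := A) (s := s) hL hη
  obtain ⟨p, hp, hper⟩ := hP
  have hLk : 0 < L ^ k := Nat.pow_pos (by omega)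
  refine ⟨p * L ^ k, Nat.succ_le_of_lt (Nat.mul_pos hp hLk), ?_⟩
  intro n
  have hLkz : (0 : ℤ) < (L : ℤ) ^ k := by exact_mod_cast hLk
  obtain ⟨q, r, hr, hn⟩ : ∃ (q : ℤ) (r : ℕ), r < L ^ k ∧ n = (L : ℤ) ^ k * q + r := by
    refine ⟨n / (L : ℤ) ^ k, (n % (L : ℤ) ^ k).toNat, ?_, ?_⟩
    · have h1 := Int.emod_nonneg n hLkz.ne'
      have h2 := Int.emod_lt_of_pos n hLkz
      zify
      rw [Int.toNat_of_nonneg h1]
      exact h2
    · have h1 := Int.emod_nonneg n hLkz.ne'
      rw [Int.toNat_of_nonneg h1]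
      exact (Int.mul_ediv_add_emod n _).symm
  subst hn
  have e1 : (L : ℤ) ^ k * q + r + ((p * L ^ k : ℕ) : ℤ) = (L : ℤ) ^ k * (q + p) + r := by
    push_cast; ring
  change z ((L : ℤ) ^ k * q + r) = z ((L : ℤ) ^ k * q + r + ((p * L ^ k : ℕ) : ℤ))
  rw [e1, h.sub_eq k q r hr, h.sub_eq k (q + p) r hr]
  exact hk _ _ (hper q) r hr

theorem core [Finite A] (h : Sys L s z) (hap : ¬ Per z (fun a b => a = b)) :
    ∃ μ : ℝ, 0 ≤ μ ∧ μ ≤ 1 ∧ LowerB L z μ ∧ UpperB L z μ := by
  have hL := h.two_le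
  set S : Set ℝ := {η | Per z (Qe L s η)} with hS
  have hone : (1 : ℝ) ∈ S := ⟨1, le_refl _, fun n => Qe.one hL _ _⟩
  have hbdd : ∀ η ∈ S, 0 ≤ η := by
    intro η hη
    by_contra hneg
    exact hap (per_of_neg h (not_le.mp hneg) hη)
  have hbb : BddBelow S := ⟨0, hbdd⟩
  have hne : S.Nonempty := ⟨1, hone⟩
  have h0 : 0 ≤ sInf S := le_csInf hne hbdd
  have h1 : sInf S ≤ 1 := csInf_le hbb hone
  refine ⟨sInf S, h0, h1, ?_, ?_⟩
  · apply lowerB_of_not_per h h1
    intro η hη hP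
    exact absurd (csInf_le hbb hP) (not_le.mpr hη)
  · apply upperB_of_per h
    obtain ⟨δ, hδ, hrc⟩ := Qe.right_cont (A := A) (s := s) hL (sInf S)
    obtain ⟨η, hηS, hη⟩ := exists_lt_of_csInf_lt hne (show sInf S < sInf S + δ by linarith)
    exact Per.mono (fun a b hab => hrc a b (Qe.mono hη.le hL hab)) hηS

theorem m7_Hm_self (L : ℕ) (s : A → ℕ → A) (k : ℕ) (a : A) : Hm L s k a a = 0 := by
  classical
  unfold Hm
  simp

theorem m7_Hm_comm (L : ℕ) (s : A → ℕ → A) (k : ℕ) (a b : A) : Hm L s k a b = Hm L s k b a := by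
  classical
  unfold Hm
  congr 1
  ext r
  simp only [Finset.mem_filter, ne_eq, and_congr_right_iff]
  intro _
  rw [eq_comm]

/-- mismatch numbers of a substitution with two letters -/
theorem Hm_two (hL : 1 ≤ L) {a b : A} (hab : a ≠ b) (htwo : ∀ c : A, c = a ∨ c = b) (k : ℕ) :
    Hm L s k a b = Hm L s 1 a b ^ k := by
  classical
  induction k with
  | zero =>
    unfold Hm
    simp [sub, hab]
  | succ k ih =>
    have hkey : ∀ x y : A, Hm L s k x y = if x ≠ y then Hm L s 1 a b ^ k else 0 := by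
      intro x y
      by_cases hxy : x = y
      · subst hxy
        simp [m7_Hm_self]
      · rw [if_pos hxy, ← ih]
        rcases htwo x with rfl | rfl <;> rcases htwo y with rfl | rfl
        · exact absurd rfl hxy
        · rfl
        · exact m7_Hm_comm _ _ _ _ _
        · exact absurd rfl hxy
    rw [show k + 1 = 1 + k by ring, Hm_add hL 1 k a b]
    simp only [hkey]
    rw [← Finset.sum_filter, Finset.sum_const, smul_eq_mul, add_comm 1 k, pow_succ]
    rw [mul_comm]
    congr 1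

/-- the exponent in the case of two letters -/
theorem core_two (h : Sys L s z) (hap : ¬ Per z (fun a b => a = b)) {a b : A} (hab : a ≠ b)
    (htwo : ∀ c : A, c = a ∨ c = b) :
    1 ≤ Hm L s 1 a b ∧ LowerB L z (Real.log (Hm L s 1 a b) / Real.log L) ∧
      UpperB L z (Real.log (Hm L s 1 a b) / Real.log L) := by
  classical
  have hfin : Finite A := by
    have hsub : (Set.univ : Set A) ⊆ {a, b} := by
      intro c _
      rcases htwo c with rfl | rfl
      · exact Set.mem_insert _ _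
      · exact Set.mem_insert_of_mem _ rfl
    exact Set.finite_univ_iff.mp ((Set.toFinite ({a, b} : Set A)).subset hsub)
  have hL := h.two_le
  have hL1 : 1 ≤ L := by omega
  have hLpos : (0 : ℝ) < L := by exact_mod_cast hL1
  have hL1r : (1 : ℝ) < L := by
    have : (1 : ℕ) < L := by omega
    exact_mod_cast this
  have hlogL : 0 < Real.log L := Real.log_pos hL1r
  have hH1 : 1 ≤ Hm L s 1 a b := by
    by_contra hlt
    have h0 : Hm L s 1 a b = 0 := by omega
    have hall : ∀ x y : A, ∀ r : ℕ, r < L → s x r = s y r := by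
      have hab' : ∀ r : ℕ, r < L → s a r = s b r := by
        intro r hr
        unfold Hm at h0
        rw [Finset.card_eq_zero, Finset.filter_eq_empty_iff] at h0
        have h1 := h0 (x := r) (by simpa using hr)
        simp only [sub, ne_eq, not_not] at h1
        rwa [Nat.mod_eq_of_lt hr] at h1
      intro x y r hr
      rcases htwo x with rfl | rfl <;> rcases htwo y with rfl | rfl
      · rfl
      · exact hab' r hr
      · exact (hab' r hr).symm
      · rfl
    apply hap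
    refine ⟨L, hL1, ?_⟩
    intro n
    have hLz : (0 : ℤ) < (L : ℤ) := by exact_mod_cast hL1
    obtain ⟨q, r, hr, hn⟩ : ∃ (q : ℤ) (r : ℕ), r < L ∧ n = (L : ℤ) * q + r := by
      refine ⟨n / (L : ℤ), (n % (L : ℤ)).toNat, ?_, ?_⟩
      · have h1 := Int.emod_nonneg n hLz.ne'
        have h2 := Int.emod_lt_of_pos n hLz
        zify
        rw [Int.toNat_of_nonneg h1]
        exact h2
      · have h1 := Int.emod_nonneg n hLz.ne'
        rw [Int.toNat_of_nonneg h1]
        exact (Int.mul_ediv_add_emod n _).symm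
    subst hn
    have e1 : (L : ℤ) * q + r + (L : ℤ) = (L : ℤ) * (q + 1) + r := by ring
    change z ((L : ℤ) * q + r) = z ((L : ℤ) * q + r + (L : ℤ))
    rw [e1, h.eq q r hr, h.eq (q + 1) r hr]
    exact hall _ _ r hr
  set H := Hm L s 1 a b with hH
  set μ : ℝ := Real.log H / Real.log L with hμ
  have hHr : (1 : ℝ) ≤ H := by exact_mod_cast hH1
  have hHpos : (0 : ℝ) < H := by linarith
  have hLμ : (L : ℝ) ^ μ = H := by
    rw [hμ, Real.rpow_def_of_pos hLpos, mul_div_cancel₀ _ hlogL.ne', Real.exp_log hHpos]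
  have hLpow : ∀ k : ℕ, (L : ℝ) ^ (μ * k) = (H : ℝ) ^ k := by
    intro k
    rw [Real.rpow_mul hLpos.le, hLμ, Real.rpow_natCast]
  have hHL : H ≤ L := by
    have h1 : Hm L s 1 a b ≤ (range (L ^ 1)).card := by
      unfold Hm
      exact Finset.card_filter_le _ _
    simpa using h1
  have hHm : ∀ k : ℕ, Hm L s k a b = H ^ k := fun k => Hm_two hL1 hab htwo k
  have hHle : ∀ (x y : A) (k : ℕ), (Hm L s k x y : ℝ) ≤ (H : ℝ) ^ k := by
    intro x y k
    rcases htwo x with rfl | rfl <;> rcases htwo y with rfl | rfl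
    · rw [m7_Hm_self]; simp only [Nat.cast_zero]; positivity
    · rw [hHm]; push_cast; exact le_refl _
    · rw [m7_Hm_comm, hHm]; push_cast; exact le_refl _
    · rw [m7_Hm_self]; simp only [Nat.cast_zero]; positivity
  refine ⟨hH1, ?_, ?_⟩
  · apply lowerB_of_not_per h
    · rw [hμ, div_le_one hlogL]
      apply Real.log_le_log hHpos
      exact_mod_cast hHL
    · intro η hη hP
      apply hap
      apply Per.mono _ hP
      have hnot : ¬ Qe L s η a b := by
        intro hQ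
        obtain ⟨C, hC⟩ := hQ ((μ - η) / 2) (by linarith)
        -- H ^ k ≤ C L ^ ((μ+η)/2 k)
        have hlt : (L : ℝ) ^ ((μ - η) / 2) > 1 := Real.one_lt_rpow hL1r (by linarith)
        obtain ⟨k, hk⟩ := pow_unbounded_of_one_lt C hlt
        have h1 := hC k
        rw [hHm] at h1
        push_cast at h1
        rw [← hLpow k] at h1
        have h2 : (L : ℝ) ^ (μ * k) =
            ((L : ℝ) ^ ((μ - η) / 2)) ^ k * (L : ℝ) ^ ((η + (μ - η) / 2) * k) := by
          rw [← Real.rpow_natCast ((L : ℝ) ^ ((μ - η) / 2)) k, ← Real.rpow_mul hLpos.le,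
            ← Real.rpow_add hLpos]
          congr 1
          ring
        rw [h2] at h1
        have hpos : (0 : ℝ) < (L : ℝ) ^ ((η + (μ - η) / 2) * k) := Real.rpow_pos_of_pos hLpos _
        have h3 := le_of_mul_le_mul_right h1 hpos
        linarith
      intro x y hxy
      rcases htwo x with rfl | rfl <;> rcases htwo y with rfl | rfl
      · rfl
      · exact absurd hxy hnot
      · exact absurd ((Qe.compat (s := s) hL η).equiv.symm hxy) hnot
      · rfl
  · apply upperB_of_per h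
    refine ⟨1, le_refl _, ?_⟩
    intro n ε hε
    refine ⟨1, ?_⟩
    intro k
    refine (hHle _ _ k).trans ?_
    rw [← hLpow k, one_mul]
    apply Real.rpow_le_rpow_of_exponent_le hL1r.le
    have : (0 : ℝ) ≤ k := Nat.cast_nonneg _
    nlinarith

end H95.Edit
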